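import Pool.Agent.Q14.UM.EK

set_option autoImplicit false

/-! Powers of a sum over primes: supports, upper and lower bounds for the mean squares. -/

namespace Run7.h311.LW

open Filter Topology MeasureTheory Complex
open Pool.Agent.Q97.UM Pool.Agent.Q14.UM

noncomputable section

/-- the number of prime factors `> P`, with multiplicity -/
def om (P n : ℕ) : ℕ := n.primeFactorsList.countP (fun p => decide (P < p))

theorem om_mul (P : ℕ) {m n : ℕ} (hm : m ≠ 0) (hn : n ≠ 0) : om P (m * n) = om P m + om P n := by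
  unfold om
  rw [(Nat.perm_primeFactorsList_mul hm hn).countP_eq, List.countP_append]

theorem om_one (P : ℕ) : om P 1 = 0 := by
  unfold om
  simp

theorem om_prime {P p : ℕ} (hp : p.Prime) (h : P < p) : om P p = 1 := by
  unfold om
  rw [Nat.primeFactorsList_prime hp]
  simp [h]

theorem om_smooth {P n : ℕ} (h : ∀ p : ℕ, p.Prime → p ∣ n → p ≤ P) : om P n = 0 := by
  unfold om
  rw [List.countP_eq_zero]
  intro p hp
  have h1 := h p (Nat.prime_of_mem_primeFactorsList hp) (Nat.dvd_of_mem_primeFactorsList hp)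
  simpa using h1

theorem card_le_om {P k : ℕ} (hk : k ≠ 0) (S : Finset ℕ) (hS : ∀ p ∈ S, p.Prime ∧ P < p) :
    (S.filter (fun s => s ∣ k)).card ≤ om P k := by
  unfold om
  rw [List.countP_eq_length_filter]
  refine le_trans (Finset.card_le_card ?_) (List.toFinset_card_le _)
  intro p hp
  rw [Finset.mem_filter] at hp
  rw [List.mem_toFinset, List.mem_filter]
  have h1 := hS p hp.1
  exact ⟨(Nat.mem_primeFactorsList hk).2 ⟨h1.1, hp.2⟩, by simpa using h1.2⟩

/-- the support condition for the coefficients of a sum over the primes in `(P, X]` -/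
def Qs (P X : ℕ) (q : ℕ → ℂ) : Prop := ∀ n, q n ≠ 0 → n.Prime ∧ P < n ∧ n ≤ X

theorem Qs.len {P X : ℕ} {q : ℕ → ℂ} (h : Qs P X q) : ∀ n, X < n → q n = 0 := by
  intro n hn
  by_contra h1
  have := (h n h1).2.2
  omega

theorem Qs.sp {P X : ℕ} {q : ℕ → ℂ} (h : Qs P X q) : SP (fun p => P < p) q := by
  intro n hn
  obtain ⟨h1, h2, -⟩ := h n hn
  refine ⟨h1.ne_zero, fun p hp hpn => ?_⟩
  rw [(Nat.prime_dvd_prime_iff_eq hp h1).1 hpn]
  exact h2

theorem cvp_om {P X : ℕ} {q : ℕ → ℂ} (h : Qs P X q) (j : ℕ) : ∀ n, cvp q j n ≠ 0 → n ≠ 0 ∧ om P n = j := by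
  induction j with
  | zero =>
    intro n hn
    unfold cvp at hn
    have : n = 1 := by
      by_contra h1
      exact hn (if_neg h1)
    subst this
    exact ⟨one_ne_zero, om_one P⟩
  | succ j ih =>
    intro n hn
    change cv q (cvp q j) n ≠ 0 at hn
    unfold cv at hn
    obtain ⟨b, hb, h1⟩ := Finset.exists_ne_zero_of_sum_ne_zero hn
    rw [Nat.mem_divisorsAntidiagonal] at hb
    have h2 := h b.1 (left_ne_zero_of_mul h1)
    have h3 := ih b.2 (right_ne_zero_of_mul h1)
    refine ⟨hb.2, ?_⟩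
    rw [← hb.1, om_mul P h2.1.ne_zero h3.1, om_prime h2.1 h2.2.1, h3.2]
    omega

/-- the convolution bound, with a support condition -/
theorem cv_bds (q f : ℕ → ℂ) (S : Finset ℕ) (hS : ∀ n, q n ≠ 0 → n ∈ S) (hS1 : ∀ s ∈ S, 1 ≤ s) (X M : ℕ) (V : ℝ)
    (hV0 : 0 ≤ V) (hV : ∀ k, k ≠ 0 → cv q f k ≠ 0 → ((S.filter (fun s => s ∣ k)).card : ℝ) ≤ V)
    (hM : ∀ n, M < n → f n = 0) :
    N2 X (cv q f) ≤ V * (∑ s ∈ S, ‖q s‖ ^ 2 / s) * N2 M f := by
  have h1 : ∀ k ∈ Finset.Icc 1 X, ‖cv q f k‖ ^ 2 / (k : ℝ) ≤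
      V * ∑ s ∈ S.filter (fun s => s ∣ k), ‖q s‖ ^ 2 * (‖f (k / s)‖ ^ 2 / k) := by
    intro k hk
    have hk1 := (Finset.mem_Icc.1 hk).1
    by_cases hz : cv q f k = 0
    · rw [hz, norm_zero]
      have : 0 ≤ V * ∑ s ∈ S.filter (fun s => s ∣ k), ‖q s‖ ^ 2 * (‖f (k / s)‖ ^ 2 / k) := by positivity
      simpa using this
    have hVk := hV k (by omega) hz
    rw [cv_filter q f S hS k (by omega)]
    have h2 : ‖∑ s ∈ S.filter (fun s => s ∣ k), q s * f (k / s)‖ ^ 2 ≤
        ((S.filter (fun s => s ∣ k)).card : ℝ) * ∑ s ∈ S.filter (fun s => s ∣ k), (‖q s‖ * ‖f (k / s)‖) ^ 2 := by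
      calc ‖∑ s ∈ S.filter (fun s => s ∣ k), q s * f (k / s)‖ ^ 2 ≤
          (∑ s ∈ S.filter (fun s => s ∣ k), ‖q s‖ * ‖f (k / s)‖) ^ 2 := by
            apply pow_le_pow_left₀ (norm_nonneg _)
            refine (norm_sum_le _ _).trans (le_of_eq ?_)
            apply Finset.sum_congr rfl
            intro s _
            rw [norm_mul]
        _ ≤ _ := sq_sum_le_card_mul_sum_sq
    have hk0 : (0 : ℝ) < k := by exact_mod_cast hk1
    rw [div_le_iff₀ hk0]
    refine h2.trans ?_
    have h3 : V * (∑ s ∈ S.filter (fun s => s ∣ k), ‖q s‖ ^ 2 * (‖f (k / s)‖ ^ 2 / k)) * (k : ℝ) =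
        V * ∑ s ∈ S.filter (fun s => s ∣ k), (‖q s‖ * ‖f (k / s)‖) ^ 2 := by
      rw [mul_assoc, Finset.sum_mul]
      congr 1
      apply Finset.sum_congr rfl
      intro s _
      field_simp
    rw [h3]
    apply mul_le_mul_of_nonneg_right hVk
    positivity
  unfold N2
  calc ∑ k ∈ Finset.Icc 1 X, ‖cv q f k‖ ^ 2 / (k : ℝ) ≤
      ∑ k ∈ Finset.Icc 1 X, V * ∑ s ∈ S.filter (fun s => s ∣ k), ‖q s‖ ^ 2 * (‖f (k / s)‖ ^ 2 / k) := Finset.sum_le_sum h1
    _ = V * ∑ s ∈ S, ‖q s‖ ^ 2 * ∑ k ∈ (Finset.Icc 1 X).filter (fun k => s ∣ k), ‖f (k / s)‖ ^ 2 / k := by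
        rw [← Finset.mul_sum]
        congr 1
        simp only [Finset.sum_filter]
        rw [Finset.sum_comm]
        apply Finset.sum_congr rfl
        intro s _
        rw [Finset.mul_sum]
        apply Finset.sum_congr rfl
        intro k _
        split_ifs <;> simp
    _ ≤ V * ∑ s ∈ S, ‖q s‖ ^ 2 * ((1 / (s : ℝ)) * ∑ m ∈ Finset.Icc 1 M, ‖f m‖ ^ 2 / m) := by
        apply mul_le_mul_of_nonneg_left _ hV0
        apply Finset.sum_le_sum
        intro s hs
        apply mul_le_mul_of_nonneg_left _ (by positivity)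
        exact sum_mult s X M (hS1 s hs) (fun n => ‖f n‖ ^ 2) (fun n => by positivity) (fun n hn => by simp [hM n hn])
    _ = _ := by
        rw [mul_assoc, Finset.sum_mul]
        congr 1
        apply Finset.sum_congr rfl
        intro s _
        ring

theorem N2_supp {P X : ℕ} {q : ℕ → ℂ} (h : Qs P X q) : ∑ s ∈ bigP P X, ‖q s‖ ^ 2 / (s : ℝ) = N2 X q := by
  unfold N2 bigP
  rw [Finset.sum_filter]
  refine Finset.sum_congr rfl fun n _ => ?_
  split_ifs with h1
  · rfl
  · have : q n = 0 := by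
      by_contra h2
      exact h1 ⟨(h n h2).1, (h n h2).2.1⟩
    rw [this]
    simp

theorem mem_bigP {P X p : ℕ} (h : p ∈ bigP P X) : p.Prime ∧ P < p := by
  unfold bigP at h
  rw [Finset.mem_filter] at h
  exact h.2

/-- upper bound for the mean square of a power -/
theorem cvp_up {P X : ℕ} {q : ℕ → ℂ} (h : Qs P X q) (j : ℕ) : ∀ M : ℕ,
    N2 M (cvp q j) ≤ j.factorial * N2 X q ^ j := by
  induction j with
  | zero =>
    intro M
    unfold N2 cvp
    simp only [Nat.factorial_zero, Nat.cast_one, pow_zero, mul_one]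
    calc ∑ n ∈ Finset.Icc 1 M, ‖(if n = 1 then (1 : ℂ) else 0)‖ ^ 2 / (n : ℝ) ≤
        ∑ n ∈ Finset.Icc 1 M, (if n = 1 then (1 : ℝ) else 0) := by
          refine Finset.sum_le_sum fun n _ => ?_
          split_ifs with h1
          · subst h1; simp
          · simp
      _ ≤ 1 := by
          rw [Finset.sum_ite_eq']
          split_ifs <;> norm_num
  | succ j ih =>
    intro M
    have h1 := cv_bds q (cvp q j) (bigP P X) (fun n hn => by
        unfold bigP
        rw [Finset.mem_filter, Finset.mem_Icc]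
        obtain ⟨a1, a2, a3⟩ := h n hn
        exact ⟨⟨a1.one_lt.le, a3⟩, a1, a2⟩)
      (fun s hs => (mem_bigP hs).1.one_lt.le) M (X ^ j) ((j : ℝ) + 1) (by positivity) (fun k hk hc => by
        have h2 := card_le_om hk (bigP P X) (P := P) (fun p hp => mem_bigP hp)
        rw [(cvp_om h (j + 1) k hc).2] at h2
        exact_mod_cast h2) (cvp_len q X h.len j)
    change N2 M (cv q (cvp q j)) ≤ _
    refine h1.trans ?_
    rw [N2_supp h, Nat.factorial_succ]
    have h2 := ih (X ^ j)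
    have h3 : 0 ≤ N2 X q := by unfold N2; positivity
    calc ((j : ℝ) + 1) * N2 X q * N2 (X ^ j) (cvp q j) ≤ ((j : ℝ) + 1) * N2 X q * (j.factorial * N2 X q ^ j) := by
          gcongr
      _ = _ := by push_cast; ring

/-- an elementary inequality for powers -/
theorem pow_diff {A B : ℝ} (hA : 0 ≤ A) (hAB : A ≤ B) (n : ℕ) : B ^ (n + 1) ≤ A ^ (n + 1) + (n + 1) * (B - A) * B ^ n := by
  induction n with
  | zero => simp
  | succ n ih =>
    have hB : 0 ≤ B := hA.trans hAB
    have h1 : A ^ (n + 1) ≤ B ^ (n + 1) := pow_le_pow_left₀ hA hAB _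
    have h2 : B * B ^ (n + 1) ≤ B * (A ^ (n + 1) + (n + 1) * (B - A) * B ^ n) := mul_le_mul_of_nonneg_left ih hB
    have h3 : (B - A) * A ^ (n + 1) ≤ (B - A) * B ^ (n + 1) := mul_le_mul_of_nonneg_left h1 (by linarith)
    push_cast
    have e1 : B ^ (n + 1 + 1) = B * B ^ (n + 1) := by ring
    have e2 : B * (A ^ (n + 1) + (n + 1) * (B - A) * B ^ n) =
        A ^ (n + 1 + 1) + (B - A) * A ^ (n + 1) + (n + 1) * (B - A) * B ^ (n + 1) := by ring
    rw [e1]
    linarith

open Classical in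
/-- lower bound for the elementary symmetric functions -/
theorem es_ge (x : ℕ → ℝ) (h : ℝ) (hh : 0 ≤ h) (S : Finset ℕ) : (∀ p ∈ S, 0 ≤ x p ∧ x p ≤ h) → ∀ r : ℕ,
    (max 0 (∑ p ∈ S, x p - r * h)) ^ r / (r.factorial : ℝ) ≤ ∑ s ∈ S.powersetCard r, ∏ p ∈ s, x p := by
  induction S using Finset.induction_on with
  | empty =>
    intro _ r
    rcases Nat.eq_zero_or_pos r with h0 | h0
    · subst h0; simp
    · have h1 : max 0 (∑ p ∈ (∅ : Finset ℕ), x p - r * h) = 0 := by
        rw [Finset.sum_empty]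
        apply max_eq_left
        have : 0 ≤ (r : ℝ) * h := by positivity
        linarith
      rw [h1, zero_pow h0.ne', zero_div]
      rw [Finset.powersetCard_eq_empty.2 (by simpa using h0)]
      simp
  | insert a S ha ih =>
    intro hx r
    have hxS : ∀ p ∈ S, 0 ≤ x p ∧ x p ≤ h := fun p hp => hx p (Finset.mem_insert_of_mem hp)
    obtain ⟨ha0, hah⟩ := hx a (Finset.mem_insert_self _ _)
    rcases r with _ | r
    · simp
    · have e1 : ∑ s ∈ (insert a S).powersetCard (r + 1), ∏ p ∈ s, x p =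
          ∑ s ∈ S.powersetCard (r + 1), ∏ p ∈ s, x p + x a * ∑ s ∈ S.powersetCard r, ∏ p ∈ s, x p := by
        rw [Finset.powersetCard_succ_insert ha, Finset.sum_union, Finset.sum_image, Finset.mul_sum]
        · congr 1
          refine Finset.sum_congr rfl fun s hs => ?_
          rw [Finset.prod_insert]
          intro h2
          exact ha ((Finset.mem_powersetCard.1 hs).1 h2)
        · intro s hs t ht hst
          have h1 : a ∉ s := fun h2 => ha ((Finset.mem_powersetCard.1 hs).1 h2)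
          have h2 : a ∉ t := fun h2 => ha ((Finset.mem_powersetCard.1 ht).1 h2)
          have h3 : (insert a s).erase a = (insert a t).erase a := by
            rw [hst]
          rwa [Finset.erase_insert h1, Finset.erase_insert h2] at h3
        · rw [Finset.disjoint_left]
          intro s hs hs2
          rw [Finset.mem_image] at hs2
          obtain ⟨t, -, rfl⟩ := hs2
          exact ha ((Finset.mem_powersetCard.1 hs).1 (Finset.mem_insert_self _ _))
      rw [e1, Finset.sum_insert ha]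
      have i1 := ih hxS (r + 1)
      have i2 := ih hxS r
      obtain ⟨W, hW⟩ : ∃ W, W = ∑ p ∈ S, x p := ⟨_, rfl⟩
      rw [← hW] at i1 i2 ⊢
      push_cast at i1 ⊢
      obtain ⟨A, hA⟩ : ∃ A, A = max 0 (W - ((r : ℝ) + 1) * h) := ⟨_, rfl⟩
      obtain ⟨B, hB⟩ : ∃ B, B = max 0 (x a + W - ((r : ℝ) + 1) * h) := ⟨_, rfl⟩
      obtain ⟨C, hC⟩ : ∃ C, C = max 0 (W - (r : ℝ) * h) := ⟨_, rfl⟩
      rw [← hA] at i1
      rw [← hC] at i2
      rw [← hB]
      have hA0 : 0 ≤ A := by rw [hA]; exact le_max_left _ _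
      have hAB : A ≤ B := by rw [hA, hB]; exact max_le_max le_rfl (by linarith)
      have hBA : B - A ≤ x a := by
        rw [hA, hB]
        have h1 : max 0 (x a + W - ((r : ℝ) + 1) * h) ≤ max 0 (W - ((r : ℝ) + 1) * h) + x a := by
          apply max_le
          · have := le_max_left 0 (W - ((r : ℝ) + 1) * h)
            linarith
          · have := le_max_right 0 (W - ((r : ℝ) + 1) * h)
            linarith
        linarith
      have hBC : B ≤ C := by
        rw [hB, hC]
        apply max_le_max le_rfl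
        linarith
      have h1 := pow_diff hA0 hAB r
      have hB0 : 0 ≤ B := hA0.trans hAB
      have h2 : B ^ r ≤ C ^ r := pow_le_pow_left₀ hB0 hBC r
      have h3 : (B - A) * B ^ r ≤ x a * C ^ r := mul_le_mul hBA h2 (by positivity) ha0
      have h4 : B ^ (r + 1) ≤ A ^ (r + 1) + (r + 1) * (x a * C ^ r) := by
        have : ((r : ℝ) + 1) * (B - A) * B ^ r = (r + 1) * ((B - A) * B ^ r) := by ring
        rw [this] at h1
        have h5 : ((r : ℝ) + 1) * ((B - A) * B ^ r) ≤ (r + 1) * (x a * C ^ r) :=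
          mul_le_mul_of_nonneg_left h3 (by positivity)
        linarith
      have hf : (0 : ℝ) < ((r + 1).factorial : ℝ) := by positivity
      have hf' : ((r + 1).factorial : ℝ) = (r + 1) * (r.factorial : ℝ) := by
        rw [Nat.factorial_succ]; push_cast; ring
      have hr0 : (0 : ℝ) < (r.factorial : ℝ) := by positivity
      calc B ^ (r + 1) / ((r + 1).factorial : ℝ) ≤ (A ^ (r + 1) + (r + 1) * (x a * C ^ r)) / ((r + 1).factorial : ℝ) := by
            gcongr
        _ = A ^ (r + 1) / ((r + 1).factorial : ℝ) + x a * (C ^ r / (r.factorial : ℝ)) := by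
            rw [hf']
            field_simp
        _ ≤ _ := by gcongr

/-- lower bound for the mean square of a power -/
theorem cvp_lo {P X : ℕ} {q : ℕ → ℂ} (h : Qs P X q) {w : ℝ} (hw : ∀ p, ‖q p‖ ^ 2 / (p : ℝ) ≤ w) (j : ℕ) :
    j.factorial * (max 0 (N2 X q - j * w)) ^ j ≤ N2 (X ^ j) (cvp q j) := by
  have hw0 : 0 ≤ w := by
    have := hw 0
    simp at this
    exact this
  obtain ⟨S, hS⟩ : ∃ S, S = bigP P X := ⟨_, rfl⟩
  have hSp : ∀ p ∈ S, p.Prime := fun p hp => (mem_bigP (hS ▸ hp)).1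
  have hsq : ∀ d, Squarefree d → q d ≠ 0 → d ∈ S := by
    intro d _ hd
    rw [hS]
    unfold bigP
    rw [Finset.mem_filter, Finset.mem_Icc]
    obtain ⟨a1, a2, a3⟩ := h d hd
    exact ⟨⟨a1.one_lt.le, a3⟩, a1, a2⟩
  have h1 := es_ge (fun p => ‖q p‖ ^ 2 / (p : ℝ)) w hw0 S (fun p _ => ⟨by positivity, hw p⟩) j
  rw [hS, N2_supp h, ← hS] at h1
  have h2 : (j.factorial : ℝ) ^ 2 * ∑ s ∈ S.powersetCard j, ∏ p ∈ s, (‖q p‖ ^ 2 / (p : ℝ)) ≤
      N2 (∏ p ∈ S, p) (cvp q j) := by
    have h3 : (j.factorial : ℝ) ^ 2 * ∑ s ∈ S.powersetCard j, ∏ p ∈ s, (‖q p‖ ^ 2 / (p : ℝ)) =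
        ∑ s ∈ S.powersetCard j, ‖cvp q j (∏ p ∈ s, p)‖ ^ 2 / ((∏ p ∈ s, p : ℕ) : ℝ) := by
      rw [Finset.mul_sum]
      refine Finset.sum_congr rfl fun s hs => ?_
      rw [Finset.mem_powersetCard] at hs
      rw [cvp_sqfree q q S hSp (fun p _ => rfl) hsq j s hs.1, if_pos hs.2, norm_mul, norm_prod,
        Finset.prod_div_distrib, Finset.prod_pow, Complex.norm_natCast]
      push_cast
      ring
    rw [h3]
    have h4 : ∑ s ∈ S.powersetCard j, ‖cvp q j (∏ p ∈ s, p)‖ ^ 2 / ((∏ p ∈ s, p : ℕ) : ℝ) =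
        ∑ n ∈ (S.powersetCard j).image (fun s => ∏ p ∈ s, p), ‖cvp q j n‖ ^ 2 / (n : ℝ) := by
      rw [Finset.sum_image]
      intro s hs t ht hst
      rw [Finset.mem_coe, Finset.mem_powersetCard] at hs ht
      simp only at hst
      ext p
      constructor
      · intro hp
        have hpp := hSp p (hs.1 hp)
        rw [← prod_primes_dvd_iff t (fun x hx => hSp x (ht.1 hx)) p hpp, ← hst,
          prod_primes_dvd_iff s (fun x hx => hSp x (hs.1 hx)) p hpp]
        exact hp
      · intro hp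
        have hpp := hSp p (ht.1 hp)
        rw [← prod_primes_dvd_iff s (fun x hx => hSp x (hs.1 hx)) p hpp, hst,
          prod_primes_dvd_iff t (fun x hx => hSp x (ht.1 hx)) p hpp]
        exact hp
    rw [h4]
    unfold N2
    apply Finset.sum_le_sum_of_subset_of_nonneg
    · intro n hn
      rw [Finset.mem_image] at hn
      obtain ⟨s, hs, rfl⟩ := hn
      rw [Finset.mem_powersetCard] at hs
      rw [Finset.mem_Icc]
      refine ⟨Nat.one_le_iff_ne_zero.2 (squarefree_prod s (fun x hx => hSp x (hs.1 hx))).ne_zero, ?_⟩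
      apply Nat.le_of_dvd (Nat.pos_of_ne_zero (squarefree_prod S hSp).ne_zero)
      exact Finset.prod_dvd_prod_of_subset _ _ _ hs.1
    · intro n _ _
      positivity
  have h5 := N2_le_of_supp (cvp q j) (∏ p ∈ S, p) (X ^ j) (cvp_len q X h.len j)
  refine le_trans ?_ (h2.trans h5)
  have hf : (0 : ℝ) < (j.factorial : ℝ) := by positivity
  have h6 := mul_le_mul_of_nonneg_left h1 (by positivity : 0 ≤ (j.factorial : ℝ) ^ 2)
  refine le_trans (le_of_eq ?_) h6
  field_simp

end

end Run7.h311.LW
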