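import Pool.Agent.Run7.h311.LW.Cmb

set_option autoImplicit false

/-! Products of a power of a sum over primes `> P` and a polynomial supported on `P`-smooth numbers. -/

namespace Run7.h311.LW

open Filter Topology MeasureTheory Complex
open Pool.Agent.Q97.UM Pool.Agent.Q14.UM

noncomputable section

theorem N2_nn (N : ℕ) (b : ℕ → ℂ) : 0 ≤ N2 N b := by unfold N2; positivity

theorem N2_ext (b : ℕ → ℂ) (X N : ℕ) (hX : ∀ n, X < n → b n = 0) (hN : ∀ n, N < n → b n = 0) : N2 X b = N2 N b :=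
  le_antisymm (N2_le_of_supp b X N hN) (N2_le_of_supp b N X hX)

open Classical in
/-- upper bound for the mean square of a convolution with coprime supports -/
theorem N2_cv_le (u v : ℕ → ℂ) (P : ℕ → Prop) (hu : SP P u) (hv : SP (fun p => ¬ P p) v) (X Y M : ℕ)
    (hX : ∀ n, X < n → u n = 0) (hY : ∀ n, Y < n → v n = 0) : N2 M (cv u v) ≤ N2 X u * N2 Y v := by
  have cop : ∀ x y, u x ≠ 0 → v y ≠ 0 → Nat.Coprime x y := by
    intro x y hx hy
    apply Nat.Coprime.symm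
    by_contra hc
    obtain ⟨p, hp, h1, h2⟩ := Nat.Prime.not_coprime_iff_dvd.1 hc
    exact (hv y hy).2 p hp h1 ((hu x hx).2 p hp h2)
  obtain ⟨F, hF⟩ : ∃ F : Finset (ℕ × ℕ), F = (Finset.Icc 1 X ×ˢ Finset.Icc 1 Y).filter (fun z => u z.1 ≠ 0 ∧ v z.2 ≠ 0) := ⟨_, rfl⟩
  have h1 : N2 X u * N2 Y v = ∑ z ∈ F, ‖cv u v (z.1 * z.2)‖ ^ 2 / ((z.1 * z.2 : ℕ) : ℝ) := by
    unfold N2
    rw [Finset.sum_mul_sum, ← Finset.sum_product', hF, Finset.sum_filter]
    apply Finset.sum_congr rfl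
    rintro ⟨d, e⟩ hz
    simp only
    split_ifs with h
    · rw [cv_coprime u v P hu hv d e h.1 h.2, norm_mul]
      push_cast
      have hd0 : (d : ℝ) ≠ 0 := by exact_mod_cast (hu d h.1).1
      have he0 : (e : ℝ) ≠ 0 := by exact_mod_cast (hv e h.2).1
      field_simp
    · rw [not_and_or, not_not, not_not] at h
      rcases h with h | h
      · simp [h]
      · simp [h]
  rw [h1]
  have h2 : ∑ z ∈ F, ‖cv u v (z.1 * z.2)‖ ^ 2 / ((z.1 * z.2 : ℕ) : ℝ) =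
      ∑ n ∈ F.image (fun z => z.1 * z.2), ‖cv u v n‖ ^ 2 / (n : ℝ) := by
    rw [Finset.sum_image]
    rintro ⟨d, e⟩ hz ⟨d', e'⟩ hz' heq
    simp only [hF, Finset.coe_filter, Set.mem_ofPred_eq] at hz hz' heq
    have e1 : d ∣ d' := by
      have : d ∣ d' * e' := ⟨e, heq.symm⟩
      exact (cop _ _ hz.2.1 hz'.2.2).dvd_of_dvd_mul_right this
    have e2 : d' ∣ d := by
      have : d' ∣ d * e := ⟨e', heq⟩
      exact (cop _ _ hz'.2.1 hz.2.2).dvd_of_dvd_mul_right this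
    have e3 : d = d' := Nat.dvd_antisymm e1 e2
    subst e3
    have e4 : e = e' := Nat.eq_of_mul_eq_mul_left (Nat.pos_of_ne_zero (hu d hz.2.1).1) heq
    rw [e4]
  rw [h2]
  unfold N2
  have h3 : ∑ n ∈ Finset.Icc 1 M, ‖cv u v n‖ ^ 2 / (n : ℝ) =
      ∑ n ∈ (Finset.Icc 1 M).filter (fun n => cv u v n ≠ 0), ‖cv u v n‖ ^ 2 / (n : ℝ) := by
    rw [Finset.sum_filter]
    refine Finset.sum_congr rfl fun n _ => ?_
    split_ifs with h
    · rfl
    · rw [not_not] at h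
      simp [h]
  rw [h3]
  apply Finset.sum_le_sum_of_subset_of_nonneg
  · intro n hn
    rw [Finset.mem_filter] at hn
    have hn2 := hn.2
    unfold cv at hn2
    obtain ⟨z, hz, h4⟩ := Finset.exists_ne_zero_of_sum_ne_zero hn2
    rw [Nat.mem_divisorsAntidiagonal] at hz
    have h5 : u z.1 ≠ 0 := left_ne_zero_of_mul h4
    have h6 : v z.2 ≠ 0 := right_ne_zero_of_mul h4
    rw [Finset.mem_image]
    refine ⟨z, ?_, hz.1⟩
    rw [hF, Finset.mem_filter, Finset.mem_product, Finset.mem_Icc, Finset.mem_Icc]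
    refine ⟨⟨⟨Nat.one_le_iff_ne_zero.2 (hu _ h5).1, ?_⟩, ⟨Nat.one_le_iff_ne_zero.2 (hv _ h6).1, ?_⟩⟩, h5, h6⟩
    · by_contra h7
      exact h5 (hX _ (not_le.1 h7))
    · by_contra h7
      exact h6 (hY _ (not_le.1 h7))
  · intro n _ _
    positivity

/-- the support condition for the coefficients of the weight: `P`-smooth numbers `≤ N` -/
def Bs (P N : ℕ) (b : ℕ → ℂ) : Prop := ∀ n, b n ≠ 0 → 1 ≤ n ∧ n ≤ N ∧ ∀ p : ℕ, p.Prime → p ∣ n → p ≤ P

theorem Bs.len {P N : ℕ} {b : ℕ → ℂ} (h : Bs P N b) : ∀ n, N < n → b n = 0 := by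
  intro n hn
  by_contra h1
  have := (h n h1).2.1
  omega

theorem Bs.sp {P N : ℕ} {b : ℕ → ℂ} (h : Bs P N b) : SP (fun p => ¬ P < p) b := by
  intro n hn
  obtain ⟨h1, h2, h3⟩ := h n hn
  exact ⟨by omega, fun p hp hpn => not_lt.2 (h3 p hp hpn)⟩

/-- the coefficients of `q ^ j · b` -/
def cj (q b : ℕ → ℂ) (j : ℕ) : ℕ → ℂ := cv (cvp q j) b

section
variable {P X N : ℕ} {q b : ℕ → ℂ}

theorem cj_len (hq : Qs P X q) (hb : Bs P N b) (j : ℕ) : ∀ n, X ^ j * N < n → cj q b j n = 0 :=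
  cv_len _ _ _ _ (cvp_len q X hq.len j) hb.len

theorem cj_zero (q b : ℕ → ℂ) (j : ℕ) : cj q b j 0 = 0 := by
  unfold cj cv
  simp

theorem cj_om (hq : Qs P X q) (hb : Bs P N b) (j n : ℕ) (hn : cj q b j n ≠ 0) : om P n = j := by
  unfold cj cv at hn
  obtain ⟨z, hz, h1⟩ := Finset.exists_ne_zero_of_sum_ne_zero hn
  rw [Nat.mem_divisorsAntidiagonal] at hz
  obtain ⟨h2, h3⟩ := cvp_om hq j z.1 (left_ne_zero_of_mul h1)
  obtain ⟨h4, -, h5⟩ := hb z.2 (right_ne_zero_of_mul h1)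
  rw [← hz.1, om_mul P h2 (by omega), h3, om_smooth h5, add_zero]

theorem cj_dp (hd : S_DPM) (hq : Qs P X q) (hb : Bs P N b) (j M : ℕ) (hM : X ^ j * N ≤ M) (t : ℝ) :
    dp M (cj q b j) t = dp X q t ^ j * dp N b t := by
  have h1 := hd.1 (X ^ j) N (cvp q j) b t (cvp_len q X hq.len j) hb.len
  rw [dp_cvp hd q X hq.len t j] at h1
  rw [h1]
  exact dp_ext _ _ _ _ (fun n hn => cj_len hq hb j n (by omega)) (fun n hn => cj_len hq hb j n hn)

theorem cj_N2 (hq : Qs P X q) (hb : Bs P N b) (j M : ℕ) (hM : X ^ j * N ≤ M) :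
    N2 M (cj q b j) = N2 (X ^ j) (cvp q j) * N2 N b := by
  have h1 := N2_mul_le (cvp q j) b (fun p => P < p) (SP_cvp _ q hq.sp j) hb.sp (X ^ j) N
  have h2 := N2_cv_le (cvp q j) b (fun p => P < p) (SP_cvp _ q hq.sp j) hb.sp (X ^ j) N M (cvp_len q X hq.len j) hb.len
  have h3 : N2 M (cj q b j) = N2 (X ^ j * N) (cj q b j) :=
    N2_ext _ _ _ (fun n hn => cj_len hq hb j n (by omega)) (fun n hn => cj_len hq hb j n hn)
  refine le_antisymm h2 ?_
  rw [h3]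
  exact h1

/-- two polynomials with disjoint supports -/
theorem N2_add_disj (M : ℕ) (c e : ℕ → ℂ) (z : ℂ) (hz : ‖z‖ = 1) (h : ∀ n, c n ≠ 0 → e n = 0) :
    N2 M (fun n => c n + z * e n) = N2 M c + N2 M e := by
  unfold N2
  rw [← Finset.sum_add_distrib]
  refine Finset.sum_congr rfl fun n _ => ?_
  show ‖c n + z * e n‖ ^ 2 / (n : ℝ) = ‖c n‖ ^ 2 / n + ‖e n‖ ^ 2 / n
  by_cases h1 : c n = 0
  · rw [h1, zero_add, norm_mul, hz, one_mul, norm_zero]
    ring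
  · rw [h n h1, mul_zero, add_zero, norm_zero]
    ring

theorem dp_add (M : ℕ) (c e : ℕ → ℂ) (z : ℂ) (t : ℝ) : dp M (fun n => c n + z * e n) t = dp M c t + z * dp M e t := by
  unfold dp
  rw [Finset.mul_sum, ← Finset.sum_add_distrib]
  refine Finset.sum_congr rfl fun n _ => ?_
  ring

end

/-- polarization -/
theorem polar (z w : ℂ) : z * (starRingEnd ℂ) w = (1 / 4 : ℂ) * ((((‖z + 1 * w‖ ^ 2 : ℝ) : ℂ) - ((‖z + (-1) * w‖ ^ 2 : ℝ) : ℂ)) +
    I * (((‖z + I * w‖ ^ 2 : ℝ) : ℂ) - ((‖z + (-I) * w‖ ^ 2 : ℝ) : ℂ))) := by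
  rw [Complex.sq_norm, Complex.sq_norm, Complex.sq_norm, Complex.sq_norm, Complex.normSq_apply, Complex.normSq_apply,
    Complex.normSq_apply, Complex.normSq_apply]
  apply Complex.ext <;> simp <;> ring

end

end Run7.h311.LW
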