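import Pool.Agent.Run7.h311.LW.Umm
import Pool.Agent.Run7.h311.LW.Cmc

set_option autoImplicit false

/-! The law of a sum over primes relative to a kernel and a Dirichlet polynomial on small primes. -/

namespace Run7.h311.LW

open Filter Topology MeasureTheory Complex ProbabilityTheory
open Pool.Agent.Q97.UM Pool.Agent.Q14.UM

noncomputable section

/-- the bilinear form by polarization -/
theorem pol_int {x y : ℝ} {k : ℝ → ℝ} (hk : IntervalIntegrable k volume x y) {F G : ℝ → ℂ} (hF : Continuous F)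
    (hG : Continuous G) : ∫ t in x..y, (k t : ℂ) * (F t * (starRingEnd ℂ) (G t)) =
      (1 / 4 : ℂ) * ((((∫ t in x..y, k t * ‖F t + 1 * G t‖ ^ 2 : ℝ) : ℂ) -
        ((∫ t in x..y, k t * ‖F t + (-1) * G t‖ ^ 2 : ℝ) : ℂ)) +
        I * (((∫ t in x..y, k t * ‖F t + I * G t‖ ^ 2 : ℝ) : ℂ) -
          ((∫ t in x..y, k t * ‖F t + (-I) * G t‖ ^ 2 : ℝ) : ℂ))) := by
  have hi : ∀ z : ℂ, IntervalIntegrable (fun t => ((k t * ‖F t + z * G t‖ ^ 2 : ℝ) : ℂ)) volume x y := by
    intro z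
    have h1 : Continuous fun t => ‖F t + z * G t‖ ^ 2 := ((hF.add (continuous_const.mul hG)).norm).pow 2
    have h2 := hk.mul_continuousOn h1.continuousOn
    rw [intervalIntegrable_iff] at h2 ⊢
    exact h2.ofReal
  have e : ∀ t, (k t : ℂ) * (F t * (starRingEnd ℂ) (G t)) =
      (1 / 4 : ℂ) * ((((k t * ‖F t + 1 * G t‖ ^ 2 : ℝ) : ℂ) - ((k t * ‖F t + (-1) * G t‖ ^ 2 : ℝ) : ℂ)) +
        I * (((k t * ‖F t + I * G t‖ ^ 2 : ℝ) : ℂ) - ((k t * ‖F t + (-I) * G t‖ ^ 2 : ℝ) : ℂ))) := by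
    intro t
    rw [polar (F t) (G t)]
    push_cast
    ring
  simp_rw [e]
  rw [intervalIntegral.integral_const_mul, intervalIntegral.integral_add ((hi 1).sub (hi (-1)))
    (((hi I).sub (hi (-I))).const_mul _), intervalIntegral.integral_const_mul,
    intervalIntegral.integral_sub (hi 1) (hi (-1)), intervalIntegral.integral_sub (hi I) (hi (-I)),
    intervalIntegral.integral_ofReal, intervalIntegral.integral_ofReal, intervalIntegral.integral_ofReal,
    intervalIntegral.integral_ofReal]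

theorem dp_cont (hd : S_DPM) (N : ℕ) (b : ℕ → ℂ) : Continuous (dp N b) := (hd.2.2 N b 0).2

theorem X_one {P X : ℕ} {q : ℕ → ℂ} (hq : Qs P X q) (h1 : N2 X q = 1) : 1 ≤ X := by
  by_contra h
  have : X = 0 := by omega
  subst this
  unfold N2 at h1
  simp at h1

/-- the moments -/
theorem mom_bd (hd : S_DPM) {x y κ η w : ℝ} {k : ℝ → ℝ} (hk : IntervalIntegrable k volume x y) (hκ : 0 ≤ κ)
    (hη : 0 ≤ η) {P X N M K : ℕ} {q b : ℕ → ℂ} (hq : Qs P X q) (hb : Bs P N b) (h1 : N2 X q = 1)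
    (hw : ∀ p, ‖q p‖ ^ 2 / (p : ℝ) ≤ w) (hM : X ^ K * N ≤ M)
    (hS : ∀ e : ℕ → ℂ, (∀ n, e n ≠ 0 → 1 ≤ n ∧ n ≤ M) →
      |(∫ t in x..y, k t * ‖dp M e t‖ ^ 2) - κ * N2 M e| ≤ η * (κ * N2 M e))
    {j l : ℕ} (hj : j ≤ K) (hl : l ≤ K) :
    ‖(∫ t in x..y, (k t : ℂ) * (dp M (cj q b j) t * (starRingEnd ℂ) (dp M (cj q b l) t))) -
      (if j = l then (j.factorial : ℂ) else 0) * ((κ * N2 N b : ℝ) : ℂ)‖ ≤
      (2 * η * K.factorial + K.factorial * (K ^ 2 * w)) * (κ * N2 N b) := by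
  have hX := X_one hq h1
  have hw0 : 0 ≤ w := by
    have := hw 0
    simp at this
    exact this
  have hb0 := N2_nn N b
  have hκb : 0 ≤ κ * N2 N b := mul_nonneg hκ hb0
  have hMj : ∀ i ≤ K, X ^ i * N ≤ M := fun i hi =>
    (Nat.mul_le_mul_right _ (Nat.pow_le_pow_right hX hi)).trans hM
  have hfac : ∀ i ≤ K, (i.factorial : ℝ) ≤ K.factorial := fun i hi => by exact_mod_cast Nat.factorial_le hi
  have hup : ∀ i ≤ K, N2 M (cj q b i) ≤ K.factorial * N2 N b := by
    intro i hi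
    rw [cj_N2 hq hb i M (hMj i hi)]
    have h2 := cvp_up hq i (X ^ i)
    rw [h1, one_pow, mul_one] at h2
    exact mul_le_mul_of_nonneg_right (h2.trans (hfac i hi)) hb0
  have hsup : ∀ i ≤ K, ∀ n, cj q b i n ≠ 0 → 1 ≤ n ∧ n ≤ M := by
    intro i hi n hn
    constructor
    · by_contra h2
      have : n = 0 := by omega
      subst this
      exact hn (cj_zero q b i)
    · by_contra h2
      have := hMj i hi
      exact hn (cj_len hq hb i n (by omega))
  by_cases hjl : j = l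
  · subst hjl
    rw [if_pos rfl]
    have e1 : ∀ t, (k t : ℂ) * (dp M (cj q b j) t * (starRingEnd ℂ) (dp M (cj q b j) t)) =
        ((k t * ‖dp M (cj q b j) t‖ ^ 2 : ℝ) : ℂ) := by
      intro t
      rw [Complex.mul_conj, Complex.normSq_eq_norm_sq]
      push_cast
      ring
    simp_rw [e1]
    rw [intervalIntegral.integral_ofReal]
    have e2 : ((∫ t in x..y, k t * ‖dp M (cj q b j) t‖ ^ 2 : ℝ) : ℂ) - (j.factorial : ℂ) * ((κ * N2 N b : ℝ) : ℂ) =
        (((∫ t in x..y, k t * ‖dp M (cj q b j) t‖ ^ 2) - j.factorial * (κ * N2 N b) : ℝ) : ℂ) := by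
      push_cast
      ring
    rw [e2, Complex.norm_real, Real.norm_eq_abs]
    have h2 := hS (cj q b j) (hsup j hj)
    have h3 := hup j hj
    have h4 : |κ * N2 M (cj q b j) - j.factorial * (κ * N2 N b)| ≤ K.factorial * (K ^ 2 * w) * (κ * N2 N b) := by
      rw [cj_N2 hq hb j M (hMj j hj)]
      have h5 := cvp_up hq j (X ^ j)
      have h6 := cvp_lo hq hw j
      rw [h1, one_pow, mul_one] at h5
      rw [h1] at h6
      have e3 : κ * (N2 (X ^ j) (cvp q j) * N2 N b) - j.factorial * (κ * N2 N b) =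
          -((j.factorial - N2 (X ^ j) (cvp q j)) * (κ * N2 N b)) := by ring
      rw [e3, abs_neg, abs_of_nonneg (mul_nonneg (by linarith) hκb)]
      refine mul_le_mul_of_nonneg_right ?_ hκb
      have h7 : 1 - (j : ℝ) * (j * w) ≤ (max 0 (1 - j * w)) ^ j := by
        rcases le_total (1 - (j : ℝ) * w) 0 with h8 | h8
        · rcases Nat.eq_zero_or_pos j with h9 | h9
          · subst h9
            simp
          · have : (1 : ℝ) ≤ j := by exact_mod_cast h9
            have h10 : (1 : ℝ) ≤ j * (j * w) := by nlinarith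
            have h11 : 0 ≤ (max 0 (1 - (j : ℝ) * w)) ^ j := by positivity
            linarith
        · rw [max_eq_right h8]
          have h9 := one_add_mul_le_pow (a := -((j : ℝ) * w)) (by linarith) j
          have e4 : 1 + (j : ℝ) * -((j : ℝ) * w) = 1 - (j : ℝ) * (j * w) := by ring
          have e5 : 1 + -((j : ℝ) * w) = 1 - j * w := by ring
          rw [e4, e5] at h9
          exact h9
      have hjf : (0 : ℝ) ≤ (j.factorial : ℝ) := by positivity
      have h8 : (j.factorial : ℝ) * (1 - (j : ℝ) * (j * w)) ≤ N2 (X ^ j) (cvp q j) :=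
        (mul_le_mul_of_nonneg_left h7 hjf).trans h6
      have h9 : (j.factorial : ℝ) * ((j : ℝ) * (j * w)) ≤ K.factorial * (K ^ 2 * w) := by
        have hjK : (j : ℝ) ≤ K := by exact_mod_cast hj
        have : (j : ℝ) * (j * w) ≤ K ^ 2 * w := by
          have e4 : (j : ℝ) * (j * w) = (j : ℝ) ^ 2 * w := by ring
          rw [e4]
          gcongr
        exact mul_le_mul (hfac j hj) this (by positivity) (by positivity)
      linarith
    have h5 : η * (κ * N2 M (cj q b j)) ≤ 2 * η * K.factorial * (κ * N2 N b) := by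
      have h6 : κ * N2 M (cj q b j) ≤ K.factorial * (κ * N2 N b) := by
        calc κ * N2 M (cj q b j) ≤ κ * (K.factorial * N2 N b) := by gcongr
          _ = _ := by ring
      have h7 := mul_le_mul_of_nonneg_left h6 hη
      have h8 : 0 ≤ η * (K.factorial * (κ * N2 N b)) := by positivity
      linarith
    have h6 := abs_add_le ((∫ t in x..y, k t * ‖dp M (cj q b j) t‖ ^ 2) - κ * N2 M (cj q b j))
      (κ * N2 M (cj q b j) - j.factorial * (κ * N2 N b))
    rw [sub_add_sub_cancel] at h6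
    linarith
  · rw [if_neg hjl, zero_mul, sub_zero]
    have hdis : ∀ n, cj q b j n ≠ 0 → cj q b l n = 0 := by
      intro n hn
      by_contra h2
      exact hjl ((cj_om hq hb j n hn).symm.trans (cj_om hq hb l n h2))
    have key : ∀ z : ℂ, ‖z‖ = 1 → |(∫ t in x..y, k t * ‖dp M (cj q b j) t + z * dp M (cj q b l) t‖ ^ 2) -
        κ * (N2 M (cj q b j) + N2 M (cj q b l))| ≤ η * (κ * (2 * K.factorial * N2 N b)) := by
      intro z hz
      have h2 := hS (fun n => cj q b j n + z * cj q b l n) (fun n hn => by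
        by_cases h3 : cj q b j n = 0
        · have h4 : cj q b l n ≠ 0 := by
            intro h4
            simp only [h3, h4, mul_zero, add_zero] at hn
            exact hn rfl
          exact hsup l hl n h4
        · exact hsup j hj n h3)
      rw [N2_add_disj M _ _ z hz hdis] at h2
      simp only [dp_add] at h2
      refine h2.trans ?_
      have h3 : N2 M (cj q b j) + N2 M (cj q b l) ≤ 2 * K.factorial * N2 N b := by
        have := hup j hj
        have := hup l hl
        linarith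
      gcongr
    rw [pol_int hk (dp_cont hd M _) (dp_cont hd M _)]
    obtain ⟨c, hc⟩ : ∃ c, c = κ * (N2 M (cj q b j) + N2 M (cj q b l)) := ⟨_, rfl⟩
    obtain ⟨E, hE⟩ : ∃ E, E = η * (κ * (2 * K.factorial * N2 N b)) := ⟨_, rfl⟩
    rw [← hc, ← hE] at key
    have k1 := key 1 (by simp)
    have k2 := key (-1) (by simp)
    have k3 := key I (by simp)
    have k4 := key (-I) (by simp)
    obtain ⟨A1, hA1⟩ : ∃ A, A = ∫ t in x..y, k t * ‖dp M (cj q b j) t + 1 * dp M (cj q b l) t‖ ^ 2 := ⟨_, rfl⟩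
    obtain ⟨A2, hA2⟩ : ∃ A, A = ∫ t in x..y, k t * ‖dp M (cj q b j) t + (-1) * dp M (cj q b l) t‖ ^ 2 := ⟨_, rfl⟩
    obtain ⟨A3, hA3⟩ : ∃ A, A = ∫ t in x..y, k t * ‖dp M (cj q b j) t + I * dp M (cj q b l) t‖ ^ 2 := ⟨_, rfl⟩
    obtain ⟨A4, hA4⟩ : ∃ A, A = ∫ t in x..y, k t * ‖dp M (cj q b j) t + (-I) * dp M (cj q b l) t‖ ^ 2 := ⟨_, rfl⟩
    rw [← hA1] at k1
    rw [← hA2] at k2
    rw [← hA3] at k3
    rw [← hA4] at k4
    rw [← hA1, ← hA2, ← hA3, ← hA4]
    have e3 : (1 / 4 : ℂ) * (((A1 : ℂ) - (A2 : ℂ)) + I * ((A3 : ℂ) - (A4 : ℂ))) =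
        (1 / 4 : ℂ) * ((((A1 - c) - (A2 - c) : ℝ) : ℂ) + I * (((A3 - c) - (A4 - c) : ℝ) : ℂ)) := by
      push_cast
      ring
    rw [e3, norm_mul]
    have h14 : ‖(1 / 4 : ℂ)‖ = 1 / 4 := by norm_num
    rw [h14]
    have h5 : ‖(((A1 - c) - (A2 - c) : ℝ) : ℂ) + I * (((A3 - c) - (A4 - c) : ℝ) : ℂ)‖ ≤ 4 * E := by
      refine (norm_add_le _ _).trans ?_
      rw [norm_mul, Complex.norm_I, one_mul, Complex.norm_real, Complex.norm_real, Real.norm_eq_abs, Real.norm_eq_abs]
      have h6 := abs_sub (A1 - c) (A2 - c)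
      have h7 := abs_sub (A3 - c) (A4 - c)
      linarith
    have h6 : E ≤ (2 * η * K.factorial + K.factorial * (K ^ 2 * w)) * (κ * N2 N b) := by
      have e4 : (2 * η * K.factorial + K.factorial * (K ^ 2 * w)) * (κ * N2 N b) = E + K.factorial * (K ^ 2 * w) * (κ * N2 N b) := by
        rw [hE]; ring
      rw [e4]
      have : 0 ≤ K.factorial * (K ^ 2 * w) * (κ * N2 N b) := by positivity
      linarith
    linarith

end

end Run7.h311.LW
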