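import Pool.Agent.Run7.h311.LW.Gau

set_option autoImplicit false

/-! The law of a sum over primes relative to a kernel and a Dirichlet polynomial on small primes: conclusion. -/

namespace Run7.h311.LW

open Filter Topology MeasureTheory Complex ProbabilityTheory
open Pool.Agent.Q97.UM Pool.Agent.Q14.UM

noncomputable section

/-- the set where the real part of the sum over primes lies in an interval -/
def SQ (X : ℕ) (q : ℕ → ℂ) (a b : ℝ) : Set ℝ := {t | a < Real.sqrt 2 * (dp X q t).re ∧ Real.sqrt 2 * (dp X q t).re < b}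

theorem SQ_open (hd : S_DPM) (X : ℕ) (q : ℕ → ℂ) (a b : ℝ) : IsOpen (SQ X q a b) := by
  have h1 : Continuous fun t => Real.sqrt 2 * (dp X q t).re :=
    continuous_const.mul (Complex.continuous_re.comp (dp_cont hd X q))
  exact (isOpen_lt continuous_const h1).inter (isOpen_lt h1 continuous_const)

theorem SQ_meas (hd : S_DPM) (X : ℕ) (q : ℕ → ℂ) (a b : ℝ) : MeasurableSet (SQ X q a b) :=
  (SQ_open hd X q a b).measurableSet

theorem dp_bd (N : ℕ) (b : ℕ → ℂ) (t : ℝ) : ‖dp N b t‖ ≤ ∑ n ∈ Finset.Icc 1 N, ‖b n‖ := by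
  unfold dp
  refine (norm_sum_le _ _).trans (Finset.sum_le_sum fun n hn => ?_)
  rw [norm_mul]
  have hn1 : 0 < n := by
    have := (Finset.mem_Icc.1 hn).1
    omega
  have h1 : ‖(n : ℂ) ^ (-(1 / 2 + (t : ℂ) * I))‖ ≤ 1 := by
    rw [Complex.norm_natCast_cpow_of_pos hn1]
    have h2 : (-(1 / 2 + (t : ℂ) * I)).re = -(1 / 2) := by simp
    rw [h2]
    exact Real.rpow_le_one_of_one_le_of_nonpos (by exact_mod_cast hn1) (by norm_num)
  exact mul_le_of_le_one_right (norm_nonneg _) h1

/-- **the law of a sum over primes in `(P, X]`** relative to a kernel and a Dirichlet polynomial on the primes `≤ P` -/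
theorem gl1 (hd : S_DPM) {a b' ε : ℝ} (hab : a < b') (hε : 0 < ε) : ∃ (K : ℕ) (η w₀ : ℝ), 0 < η ∧ 0 < w₀ ∧
    ∀ (x y κ : ℝ) (k : ℝ → ℝ) (P X N M : ℕ) (q b : ℕ → ℂ), x ≤ y → 0 < κ → Measurable k →
      IntervalIntegrable k volume x y → (∀ t, 0 ≤ k t) → Qs P X q → Bs P N b → N2 X q = 1 →
      (∀ p, ‖q p‖ ^ 2 / (p : ℝ) ≤ w₀) → X ^ K * N ≤ M →
      (∀ e : ℕ → ℂ, (∀ n, e n ≠ 0 → 1 ≤ n ∧ n ≤ M) →
        |(∫ t in x..y, k t * ‖dp M e t‖ ^ 2) - κ * N2 M e| ≤ η * (κ * N2 M e)) →
      |(∫ t in x..y, k t * Set.indicator (SQ X q a b') (fun t => ‖dp N b t‖ ^ 2) t) -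
        (gaussianReal 0 1).real (Set.Ioo a b') * (κ * N2 N b)| ≤ ε * (κ * N2 N b) := by
  obtain ⟨K, η₀, hη₀, hU⟩ := umm hab hε
  have hKf : (0 : ℝ) < K.factorial := by positivity
  refine ⟨K, η₀ / (4 * K.factorial), η₀ / (2 * (K.factorial * (K ^ 2 + 1))), by positivity, by positivity, ?_⟩
  intro x y κ k P X N M q b hxy hκ hkm hki hk0 hq hb h1 hw hM hS
  have hb0 := N2_nn N b
  rcases hb0.eq_or_lt with hz | hz
  · have h2 : ∀ t, ‖dp N b t‖ ^ 2 = 0 := by
      intro t
      have h3 := (hd.2.2 N b t).1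
      rw [← hz, mul_zero] at h3
      exact le_antisymm h3 (by positivity)
    have h3 : ∀ t, k t * Set.indicator (SQ X q a b') (fun t => ‖dp N b t‖ ^ 2) t = 0 := by
      intro t
      have : Set.indicator (SQ X q a b') (fun t => ‖dp N b t‖ ^ 2) t = 0 := by
        by_cases h4 : t ∈ SQ X q a b'
        · rw [Set.indicator_of_mem h4, h2]
        · rw [Set.indicator_of_notMem h4]
      rw [this, mul_zero]
    simp_rw [h3]
    rw [← hz]
    simp
  · obtain ⟨Z, hZ⟩ : ∃ Z, Z = κ * N2 N b := ⟨_, rfl⟩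
    have hZ0 : 0 < Z := by rw [hZ]; positivity
    rw [← hZ]
    have hcB : Continuous fun t => ‖dp N b t‖ ^ 2 := ((dp_cont hd N b).norm).pow 2
    obtain ⟨g, hg⟩ : ∃ g : ℝ → ℝ, g = fun t => k t * ‖dp N b t‖ ^ 2 / Z := ⟨_, rfl⟩
    have hg0 : ∀ t, 0 ≤ g t := by
      intro t
      rw [hg]
      have := hk0 t
      positivity
    have hgm : Measurable g := by
      rw [hg]
      exact (hkm.mul hcB.measurable).div_const _
    have hgi : IntegrableOn g (Set.Ioc x y) := by
      have h2 := (hki.mul_continuousOn hcB.continuousOn).div_const Z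
      rw [intervalIntegrable_iff, Set.uIoc_of_le hxy] at h2
      rw [hg]
      exact h2
    obtain ⟨μ, hμ⟩ : ∃ μ : Measure ℝ, μ = (volume.restrict (Set.Ioc x y)).withDensity (fun t => ENNReal.ofReal (g t)) := ⟨_, rfl⟩
    have hfin : IsFiniteMeasure μ := by
      rw [hμ]
      exact isFiniteMeasure_withDensity_ofReal hgi.2
    have hmi : ∀ F : ℝ → ℂ, ∫ t, F t ∂μ = ∫ t in x..y, (g t : ℂ) * F t := by
      intro F
      rw [hμ, integral_withDensity_eq_integral_toReal_smul hgm.ennreal_ofReal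
        (Eventually.of_forall fun t => ENNReal.ofReal_lt_top), intervalIntegral.integral_of_le hxy]
      refine integral_congr_ae (Eventually.of_forall fun t => ?_)
      simp only
      rw [ENNReal.toReal_ofReal (hg0 t), Complex.real_smul]
    have hmr : ∀ F : ℝ → ℝ, ∫ t, F t ∂μ = ∫ t in x..y, g t * F t := by
      intro F
      rw [hμ, integral_withDensity_eq_integral_toReal_smul hgm.ennreal_ofReal
        (Eventually.of_forall fun t => ENNReal.ofReal_lt_top), intervalIntegral.integral_of_le hxy]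
      refine integral_congr_ae (Eventually.of_forall fun t => ?_)
      simp only
      rw [ENNReal.toReal_ofReal (hg0 t), smul_eq_mul]
    have hfm : Measurable (dp X q) := (dp_cont hd X q).measurable
    have h2 := hU μ (dp X q) hfin hfm (fun j => by
        refine Integrable.of_bound (hfm.norm.pow_const j).aestronglyMeasurable ((∑ n ∈ Finset.Icc 1 X, ‖q n‖) ^ j)
          (Eventually.of_forall fun t => ?_)
        rw [Real.norm_eq_abs, abs_of_nonneg (by positivity)]
        exact pow_le_pow_left₀ (norm_nonneg _) (dp_bd X q t) j) (fun j l hj hl => by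
        rw [hmi]
        have h3 := mom_bd hd (K := K) hki hκ.le (by positivity : 0 ≤ η₀ / (4 * K.factorial)) hq hb h1 hw hM hS hj hl
        have hX := X_one hq h1
        have hMj : ∀ i ≤ K, X ^ i * N ≤ M := fun i hi =>
          (Nat.mul_le_mul_right _ (Nat.pow_le_pow_right hX hi)).trans hM
        have e1 : ∀ t, (g t : ℂ) * (dp X q t ^ j * (starRingEnd ℂ) (dp X q t) ^ l) = ((1 / Z : ℝ) : ℂ) *
            ((k t : ℂ) * (dp M (cj q b j) t * (starRingEnd ℂ) (dp M (cj q b l) t))) := by
          intro t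
          rw [cj_dp hd hq hb j M (hMj j hj), cj_dp hd hq hb l M (hMj l hl), hg]
          have e2 : ((‖dp N b t‖ ^ 2 : ℝ) : ℂ) = dp N b t * (starRingEnd ℂ) (dp N b t) := by
            rw [Complex.mul_conj, Complex.normSq_eq_norm_sq]
          have e3 : ((k t * ‖dp N b t‖ ^ 2 / Z : ℝ) : ℂ) = ((1 / Z : ℝ) : ℂ) * ((k t : ℂ) * ((‖dp N b t‖ ^ 2 : ℝ) : ℂ)) := by
            push_cast
            ring
          simp only
          rw [e3, e2, map_mul, map_pow]
          ring
        simp_rw [e1]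
        rw [intervalIntegral.integral_const_mul]
        rw [← hZ] at h3
        have e2 : ((1 / Z : ℝ) : ℂ) * (∫ t in x..y, (k t : ℂ) * (dp M (cj q b j) t * (starRingEnd ℂ) (dp M (cj q b l) t))) -
            (if j = l then (j.factorial : ℂ) else 0) = ((1 / Z : ℝ) : ℂ) *
            ((∫ t in x..y, (k t : ℂ) * (dp M (cj q b j) t * (starRingEnd ℂ) (dp M (cj q b l) t))) -
              (if j = l then (j.factorial : ℂ) else 0) * (Z : ℂ)) := by
          have hZc : (Z : ℂ) ≠ 0 := by exact_mod_cast hZ0.ne'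
          push_cast
          field_simp
        rw [e2, norm_mul, Complex.norm_real, Real.norm_eq_abs, abs_of_pos (by positivity : 0 < 1 / Z)]
        have h4 : 1 / Z * ‖(∫ t in x..y, (k t : ℂ) * (dp M (cj q b j) t * (starRingEnd ℂ) (dp M (cj q b l) t))) -
              (if j = l then (j.factorial : ℂ) else 0) * (Z : ℂ)‖ ≤ 1 / Z *
            ((2 * (η₀ / (4 * K.factorial)) * K.factorial + K.factorial * (K ^ 2 * (η₀ / (2 * (K.factorial * (K ^ 2 + 1)))))) * Z) :=
          mul_le_mul_of_nonneg_left h3 (by positivity)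
        refine h4.trans ?_
        have e3 : 1 / Z * ((2 * (η₀ / (4 * K.factorial)) * K.factorial +
            K.factorial * (K ^ 2 * (η₀ / (2 * (K.factorial * (K ^ 2 + 1)))))) * Z) =
            η₀ / 2 + η₀ / 2 * ((K : ℝ) ^ 2 / (K ^ 2 + 1)) := by
          field_simp
          ring
        rw [e3]
        have h5 : (K : ℝ) ^ 2 / (K ^ 2 + 1) ≤ 1 := by
          rw [div_le_one (by positivity)]
          linarith
        nlinarith)
    have hSm := SQ_meas hd X q a b'
    have e1 : μ.real {t | a < Real.sqrt 2 * (dp X q t).re ∧ Real.sqrt 2 * (dp X q t).re < b'} =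
        ∫ t in x..y, g t * Set.indicator (SQ X q a b') (fun _ => (1 : ℝ)) t := by
      rw [← hmr, integral_indicator_const _ hSm, smul_eq_mul, mul_one]
      rfl
    rw [e1] at h2
    have e2 : (∫ t in x..y, k t * Set.indicator (SQ X q a b') (fun t => ‖dp N b t‖ ^ 2) t) =
        Z * ∫ t in x..y, g t * Set.indicator (SQ X q a b') (fun _ => (1 : ℝ)) t := by
      rw [← intervalIntegral.integral_const_mul]
      refine intervalIntegral.integral_congr fun t _ => ?_
      by_cases h4 : t ∈ SQ X q a b'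
      · rw [Set.indicator_of_mem h4, Set.indicator_of_mem h4, hg]
        field_simp
      · rw [Set.indicator_of_notMem h4, Set.indicator_of_notMem h4]
        ring
    rw [e2]
    have e3 : Z * (∫ t in x..y, g t * Set.indicator (SQ X q a b') (fun _ => (1 : ℝ)) t) -
        (gaussianReal 0 1).real (Set.Ioo a b') * Z = ((∫ t in x..y, g t * Set.indicator (SQ X q a b') (fun _ => (1 : ℝ)) t) -
          (gaussianReal 0 1).real (Set.Ioo a b')) * Z := by ring
    rw [e3, abs_mul, abs_of_pos hZ0]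
    exact mul_le_mul_of_nonneg_right h2 hZ0.le

end

end Run7.h311.LW
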