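import Pool.Agent.Run7.h311.LW.Lin

set_option autoImplicit false

/-! Normalised coefficients; shrinking an interval. -/

namespace Run7.h311.LW

open Filter Topology MeasureTheory Complex ProbabilityTheory
open Pool.Agent.Q97.UM Pool.Agent.Q14.UM

noncomputable section

/-- coefficients times a real number -/
def sc (c : ℝ) (q : ℕ → ℂ) (n : ℕ) : ℂ := (c : ℂ) * q n

theorem sc_dp (c : ℝ) (N : ℕ) (q : ℕ → ℂ) (t : ℝ) : dp N (sc c q) t = c * dp N q t := by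
  unfold dp sc
  rw [Finset.mul_sum]
  refine Finset.sum_congr rfl fun n _ => ?_
  ring

theorem sc_N2 (c : ℝ) (N : ℕ) (q : ℕ → ℂ) : N2 N (sc c q) = c ^ 2 * N2 N q := by
  unfold N2 sc
  rw [Finset.mul_sum]
  refine Finset.sum_congr rfl fun n _ => ?_
  rw [norm_mul, Complex.norm_real, mul_pow, Real.norm_eq_abs, sq_abs]
  ring

theorem sc_qs {P X : ℕ} {q : ℕ → ℂ} (c : ℝ) (h : Qs P X q) : Qs P X (sc c q) := by
  intro n hn
  apply h n
  intro h1
  apply hn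
  unfold sc
  rw [h1, mul_zero]

/-- the normalised coefficients -/
def qn (P X : ℕ) (a : ℕ → ℂ) : ℕ → ℂ := sc (Real.sqrt (N2 X (uu P X a)))⁻¹ (uu P X a)

theorem qn_qs (P X : ℕ) (a : ℕ → ℂ) : Qs P X (qn P X a) := sc_qs _ (uu_qs P X a)

theorem qn_N2 {P X : ℕ} {a : ℕ → ℂ} (h : 0 < N2 X (uu P X a)) : N2 X (qn P X a) = 1 := by
  unfold qn
  rw [sc_N2, inv_pow, Real.sq_sqrt h.le]
  field_simp

theorem qn_dp {P X : ℕ} {a : ℕ → ℂ} (t : ℝ) :
    dp X (qn P X a) t = ((Real.sqrt (N2 X (uu P X a)))⁻¹ : ℝ) * dp X (uu P X a) t := sc_dp _ _ _ _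

theorem qn_w {P X : ℕ} {a : ℕ → ℂ} {A w : ℝ} (ha : ∀ n, ‖a n‖ ≤ A) (h : 0 < N2 X (uu P X a))
    (hw : A ^ 2 ≤ w * N2 X (uu P X a)) (p : ℕ) : ‖qn P X a p‖ ^ 2 / (p : ℝ) ≤ w := by
  have hA : 0 ≤ A := (norm_nonneg _).trans (ha 0)
  have hw0 : 0 ≤ w := by
    by_contra hc
    push Not at hc
    have : w * N2 X (uu P X a) < 0 := mul_neg_of_neg_of_pos hc h
    nlinarith [sq_nonneg A]
  rcases Nat.eq_zero_or_pos p with h0 | h0
  · subst h0
    simpa using hw0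
  · have hp : (1 : ℝ) ≤ p := by exact_mod_cast h0
    unfold qn sc
    rw [norm_mul, Complex.norm_real, mul_pow, Real.norm_eq_abs, sq_abs, inv_pow, Real.sq_sqrt h.le]
    have h1 : ‖uu P X a p‖ ^ 2 ≤ A ^ 2 := pow_le_pow_left₀ (norm_nonneg _) ((uu_le P X a p).trans (ha p)) 2
    have h2 : (N2 X (uu P X a))⁻¹ * ‖uu P X a p‖ ^ 2 ≤ w := by
      rw [inv_mul_le_iff₀ h]
      linarith
    have h3 : 0 ≤ (N2 X (uu P X a))⁻¹ * ‖uu P X a p‖ ^ 2 := by positivity
    exact (div_le_self h3 hp).trans h2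

theorem sqrt_diff {W V : ℝ} (hW : 1 ≤ W) (hV : W ≤ V) : |Real.sqrt W - Real.sqrt V| ≤ V - W := by
  have h1 : 1 ≤ Real.sqrt W := by
    rw [Real.one_le_sqrt]; exact hW
  have h2 : Real.sqrt W ≤ Real.sqrt V := Real.sqrt_le_sqrt hV
  rw [abs_sub_comm, abs_of_nonneg (by linarith)]
  have h3 : (Real.sqrt V - Real.sqrt W) * (Real.sqrt V + Real.sqrt W) = V - W := by
    have h4 := Real.mul_self_sqrt (by linarith : 0 ≤ V)
    have h5 := Real.mul_self_sqrt (by linarith : 0 ≤ W)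
    nlinarith
  nlinarith

/-- the Gaussian measure of an interval -/
def gm (a b : ℝ) : ℝ := (gaussianReal 0 1).real (Set.Ioo a b)

theorem gm_nn (a b : ℝ) : 0 ≤ gm a b := measureReal_nonneg

theorem gm_le (a b : ℝ) : gm a b ≤ 1 := measureReal_le_one

theorem gm_shrink {a b : ℝ} (hab : a < b) {ε : ℝ} (hε : 0 < ε) :
    ∃ θ : ℝ, 0 < θ ∧ a + θ < b - θ ∧ gm a b - ε ≤ gm (a + θ) (b - θ) := by
  set s : ℕ → Set ℝ := fun n => Set.Ioo (a + 1 / ((n : ℝ) + 1)) (b - 1 / ((n : ℝ) + 1)) with hs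
  have hmono : Monotone s := by
    intro m n hmn
    have h1 : 1 / ((n : ℝ) + 1) ≤ 1 / ((m : ℝ) + 1) := by
      have : (m : ℝ) ≤ n := by exact_mod_cast hmn
      gcongr
    exact Set.Ioo_subset_Ioo (by linarith) (by linarith)
  have hU : ⋃ n, s n = Set.Ioo a b := by
    ext x
    simp only [hs, Set.mem_iUnion, Set.mem_Ioo]
    constructor
    · rintro ⟨n, h1, h2⟩
      have : 0 < 1 / ((n : ℝ) + 1) := by positivity
      constructor <;> linarith
    · rintro ⟨h1, h2⟩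
      obtain ⟨n, hn⟩ := exists_nat_one_div_lt (show 0 < min (x - a) (b - x) by
        rw [lt_min_iff]; constructor <;> linarith)
      refine ⟨n, ?_, ?_⟩
      · have := hn.trans_le (min_le_left _ _); linarith
      · have := hn.trans_le (min_le_right _ _); linarith
  have ht := tendsto_measure_iUnion_atTop (μ := gaussianReal 0 1) hmono
  rw [hU] at ht
  have ht2 : Tendsto (fun n => (gaussianReal 0 1).real (s n)) atTop (𝓝 (gm a b)) :=
    (ENNReal.tendsto_toReal (measure_ne_top _ _)).comp ht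
  have h1 : ∀ᶠ n : ℕ in atTop, gm a b - ε ≤ (gaussianReal 0 1).real (s n) :=
    ht2.eventually_const_le (by linarith)
  have h2 : ∀ᶠ n : ℕ in atTop, 1 / ((n : ℝ) + 1) < (b - a) / 2 :=
    tendsto_one_div_add_atTop_nhds_zero_nat.eventually_lt_const (by linarith)
  obtain ⟨n, h3, h4⟩ := (h1.and h2).exists
  refine ⟨1 / ((n : ℝ) + 1), by positivity, by linarith, h3⟩

/-- the deviation of the full quantity from the normalised sum -/
theorem dev_bd {P X : ℕ} {a : ℕ → ℂ} {Y v E C₀ η : ℝ} {t : ℝ} (hη : 0 < η) (hW : 1 ≤ N2 X (uu P X a))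
    (hv : N2 X (uu P X a) ≤ 2 * v) (hY : |Y - (dp X (uu P X a) t).re| ≤ E)
    (hC : 2 * v - N2 X (uu P X a) ≤ C₀) {a' b' : ℝ} (h1 : a' + η ≤ Real.sqrt 2 * (dp X (qn P X a) t).re)
    (h2 : Real.sqrt 2 * (dp X (qn P X a) t).re ≤ b' - η) (h3 : ¬ (a' < Y / Real.sqrt v ∧ Y / Real.sqrt v < b')) :
    η * Real.sqrt v ≤ E + C₀ * ‖dp X (qn P X a) t‖ := by
  obtain ⟨W, hWd⟩ : ∃ W, W = N2 X (uu P X a) := ⟨_, rfl⟩
  rw [← hWd] at hW hv hC
  have hv0 : 0 < v := by linarith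
  have hsv : 0 < Real.sqrt v := Real.sqrt_pos.2 hv0
  have hsW : 0 < Real.sqrt W := Real.sqrt_pos.2 (by linarith)
  obtain ⟨r, hr⟩ : ∃ r, r = (dp X (qn P X a) t).re := ⟨_, rfl⟩
  have e1 : (dp X (uu P X a) t).re = Real.sqrt W * r := by
    rw [hr, qn_dp, ← hWd, Complex.re_ofReal_mul]
    field_simp
  rw [← hr] at h1 h2
  rw [e1] at hY
  have hd := sqrt_diff hW hv
  have e2 : Real.sqrt (2 * v) = Real.sqrt 2 * Real.sqrt v := Real.sqrt_mul (by norm_num) v
  have hr2 : |r| ≤ ‖dp X (qn P X a) t‖ := by rw [hr]; exact Complex.abs_re_le_norm _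
  have h4 : |Y - Real.sqrt v * (Real.sqrt 2 * r)| ≤ E + C₀ * ‖dp X (qn P X a) t‖ := by
    have e3 : Y - Real.sqrt v * (Real.sqrt 2 * r) = (Y - Real.sqrt W * r) + (Real.sqrt W - Real.sqrt (2 * v)) * r := by
      rw [e2]; ring
    rw [e3]
    refine (abs_add_le _ _).trans (add_le_add hY ?_)
    rw [abs_mul]
    exact mul_le_mul (hd.trans hC) hr2 (abs_nonneg _) ((abs_nonneg _).trans (hd.trans hC))
  have h5 : η ≤ |Y / Real.sqrt v - Real.sqrt 2 * r| := by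
    rw [not_and_or, not_lt, not_lt] at h3
    rcases h3 with h | h
    · rw [abs_sub_comm]
      refine le_trans ?_ (le_abs_self _)
      linarith
    · refine le_trans ?_ (le_abs_self _)
      linarith
  have e4 : Y - Real.sqrt v * (Real.sqrt 2 * r) = Real.sqrt v * (Y / Real.sqrt v - Real.sqrt 2 * r) := by
    field_simp
  rw [e4, abs_mul, abs_of_pos hsv] at h4
  have h6 := mul_le_mul_of_nonneg_left h5 hsv.le
  linarith

end

end Run7.h311.LW
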