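import Pool.Agent.Q97.UM.Base7
import Pool.Agent.Run7.h311.LW.GauB

set_option autoImplicit false

/-! Isolated zeros in windows, relative to a Dirichlet polynomial and the law of a sum over primes
(after `Q148/UM/WINI.lean`). -/

namespace Run7.h311.LW

open Filter Topology MeasureTheory Complex ProbabilityTheory
open Pool.Agent.Q97.UM Pool.Agent.Q14.UM Pool.Agent.Q148.UM

noncomputable section

theorem ii_ind {f W : ℝ → ℝ} {S : Set ℝ} (hS : MeasurableSet S) {x y : ℝ}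
    (h : IntervalIntegrable (fun t => f t * W t) volume x y) :
    IntervalIntegrable (fun t => f t * Set.indicator S W t) volume x y := by
  have e : (fun t => f t * Set.indicator S W t) = Set.indicator S (fun t => f t * W t) := by
    funext t
    by_cases h1 : t ∈ S
    · rw [Set.indicator_of_mem h1, Set.indicator_of_mem h1]
    · rw [Set.indicator_of_notMem h1, Set.indicator_of_notMem h1, mul_zero]
  rw [e]
  rw [intervalIntegrable_iff] at h ⊢
  exact h.indicator hS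

/-- the kernel of the pair sum -/
def Kp (R w : ℝ → ℝ) (lam T t : ℝ) : ℝ := 2 * ∫ α in (0 : ℝ)..1, R α * ‖Zt w T (lam * Real.log T * α) t‖ ^ 2

theorem Kp_cont {δ H C : ℝ} {K : ℕ} {w : ℝ → ℝ} (h : OmW δ H C K w) (hδ : 0 < δ) {R : ℝ → ℝ} (hR : Continuous R)
    (lam T : ℝ) : Continuous (Kp R w lam T) := by
  unfold Kp
  refine continuous_const.mul ?_
  refine intervalIntegral.continuous_parametric_intervalIntegral_of_continuous' ?_ _ _
  have hc := Zt_cont h hδ T (lam * Real.log T)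
  exact (hR.comp continuous_snd).mul (((hc.comp (continuous_snd.prodMk continuous_fst)).norm).pow 2)

theorem Kp_nn {R w : ℝ → ℝ} (hR : ∀ α, 0 ≤ R α) (lam T t : ℝ) : 0 ≤ Kp R w lam T t := by
  unfold Kp
  have : 0 ≤ ∫ α in (0 : ℝ)..1, R α * ‖Zt w T (lam * Real.log T * α) t‖ ^ 2 :=
    intervalIntegral.integral_nonneg zero_le_one fun α _ => mul_nonneg (hR α) (by positivity)
  linarith

theorem Nw_nn (T r t : ℝ) : 0 ≤ Nw T r t := by
  unfold Nw
  exact Finset.sum_nonneg fun s _ => Nat.cast_nonneg _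

/-- the integrated inequality -/
theorem core_ind {δ H C d η : ℝ} {K : ℕ} {w : ℝ → ℝ} (h : OmW δ H C K w) (hδ : 0 < δ) (hH : 1 ≤ H) (hη : 0 ≤ η)
    {R W : ℝ → ℝ} (hR : Continuous R) (hW : Continuous W) (hW0 : ∀ t, 0 ≤ W t) {S : Set ℝ} (hS : MeasurableSet S)
    {T lam x y : ℝ} (hxy : x ≤ y)
    (hdet : ∀ t : ℝ, x ≤ t → t ≤ y →
      2 * Nw T (H / Real.log T) t - Niw d T (H / Real.log T) t ≤
        2 * (∫ α in (0 : ℝ)..1, R α * ‖Zt w T (lam * Real.log T * α) t‖ ^ 2) + 10000 * C ^ 4 * ErrS δ H K T t +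
        η * C ^ 2 * Nw T (H / Real.log T) t) :
    2 * (∫ t in x..y, Nw T (H / Real.log T) t * Set.indicator S W t) -
        ∫ t in x..y, Niw d T (H / Real.log T) t * Set.indicator S W t ≤
        (∫ t in x..y, Kp R w lam T t * Set.indicator S W t) +
          10000 * C ^ 4 * (∫ t in x..y, ErrS δ H K T t * W t) +
          η * C ^ 2 * ∫ t in x..y, Nw T (H / Real.log T) t * W t := by
  set r := H / Real.log T with hr
  obtain ⟨mN, B1, bN⟩ := Nw_meas T r
  obtain ⟨mS, B2, bS⟩ := Niw_meas d T r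
  obtain ⟨mE, ⟨B4, bE⟩, eE⟩ := ErrS_meas (δ := δ) hH K T
  have iN := ii_mul mN bN hW x y
  have iE := ii_mul mE bE hW x y
  have iN' := ii_ind hS iN
  have iS' := ii_ind hS (ii_mul mS bS hW x y)
  have iP' : IntervalIntegrable (fun t => Kp R w lam T t * Set.indicator S W t) volume x y :=
    ii_ind hS (((Kp_cont h hδ hR lam T).mul hW).intervalIntegrable _ _)
  have h1 : ∫ t in x..y, (2 * (Nw T r t * Set.indicator S W t) - Niw d T r t * Set.indicator S W t) ≤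
      ∫ t in x..y, ((Kp R w lam T t * Set.indicator S W t +
        10000 * C ^ 4 * (ErrS δ H K T t * W t)) + η * C ^ 2 * (Nw T r t * W t)) := by
    refine intervalIntegral.integral_mono_on hxy ((iN'.const_mul 2).sub iS')
      ((iP'.add (iE.const_mul _)).add (iN.const_mul _)) fun t ht => ?_
    have hi0 : 0 ≤ Set.indicator S W t := Set.indicator_nonneg (fun t _ => hW0 t) t
    have hi1 : Set.indicator S W t ≤ W t := Set.indicator_le_self' (fun _ _ => hW0 _) t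
    have h3 := mul_le_mul_of_nonneg_right (hdet t ht.1 ht.2) hi0
    have hN0 := Nw_nn T r t
    have h4 : ErrS δ H K T t * Set.indicator S W t ≤ ErrS δ H K T t * W t := mul_le_mul_of_nonneg_left hi1 (eE t)
    have h5 : Nw T r t * Set.indicator S W t ≤ Nw T r t * W t := mul_le_mul_of_nonneg_left hi1 hN0
    have h6 : 10000 * C ^ 4 * (ErrS δ H K T t * Set.indicator S W t) ≤ 10000 * C ^ 4 * (ErrS δ H K T t * W t) :=
      mul_le_mul_of_nonneg_left h4 (by positivity)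
    have h7 : η * C ^ 2 * (Nw T r t * Set.indicator S W t) ≤ η * C ^ 2 * (Nw T r t * W t) :=
      mul_le_mul_of_nonneg_left h5 (by positivity)
    have e8 : Kp R w lam T t * Set.indicator S W t =
        2 * (∫ α in (0 : ℝ)..1, R α * ‖Zt w T (lam * Real.log T * α) t‖ ^ 2) * Set.indicator S W t := rfl
    rw [e8]
    linarith
  rw [intervalIntegral.integral_sub (iN'.const_mul 2) iS', intervalIntegral.integral_add (iP'.add (iE.const_mul _)) (iN.const_mul _),
    intervalIntegral.integral_add iP' (iE.const_mul _), intervalIntegral.integral_const_mul, intervalIntegral.integral_const_mul,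
    intervalIntegral.integral_const_mul] at h1
  exact h1

/-- the final arithmetic -/
theorem fin_w {e cM G h W A B S cI : ℝ} (he0 : 0 < e) (he1 : e ≤ 1) (hG0 : 0 ≤ G) (hG1 : G ≤ 1) (hcM : cM < 3 / 2)
    (hW : 0 ≤ W) (hh : 0 < h) (hA : |A - G * (h * W)| ≤ e / 64 * (h * W))
    (hB : |A + B - G * ((h + cI) * W)| ≤ e / 64 * ((h + cI) * W)) (hcI : cI ≤ (cM + 3 * (e / 32)) * h)
    (hg : 2 * A - S ≤ B + e / 32 * h * W + e / 32 * h * W) : ((2 - cM) * G - e) * (h * W) ≤ S := by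
  have hZ : 0 ≤ h * W := by positivity
  have hA1 := (abs_le.1 hA).1
  have hB1 := (abs_le.1 hB).2
  have h5 : (h + cI) * W ≤ (1 + cM + 3 * (e / 32)) * (h * W) := by
    have : (h + cI) * W ≤ (h + (cM + 3 * (e / 32)) * h) * W := mul_le_mul_of_nonneg_right (by linarith) hW
    refine this.trans (le_of_eq ?_)
    ring
  have h6 : A + B ≤ (G + e / 64) * ((h + cI) * W) := by linarith
  have h7 : A + B ≤ (G + e / 64) * ((1 + cM + 3 * (e / 32)) * (h * W)) :=
    h6.trans (mul_le_mul_of_nonneg_left h5 (by positivity))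
  have h8 : e * G ≤ e := mul_le_of_le_one_right he0.le hG1
  have h9 : e * cM ≤ e * (3 / 2) := mul_le_mul_of_nonneg_left hcM.le he0.le
  have h10 : e * e ≤ e := mul_le_of_le_one_right he0.le he1
  have h11 : ((2 - cM) * G - e) + (G + e / 64) * (1 + cM + 3 * (e / 32)) + e / 16 ≤ 3 * (G - e / 64) := by
    have e11 : ((2 - cM) * G - e) + (G + e / 64) * (1 + cM + 3 * (e / 32)) + e / 16 =
        3 * G - e + 3 / 32 * (e * G) + e / 64 + (e * cM) / 64 + 3 / 2048 * (e * e) + e / 16 := by ring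
    rw [e11]
    linarith
  have h12 := mul_le_mul_of_nonneg_right h11 hZ
  have e12 : (((2 - cM) * G - e) + (G + e / 64) * (1 + cM + 3 * (e / 32)) + e / 16) * (h * W) =
      ((2 - cM) * G - e) * (h * W) + (G + e / 64) * ((1 + cM + 3 * (e / 32)) * (h * W)) + e / 16 * (h * W) := by ring
  have e13 : e / 32 * h * W = e / 32 * (h * W) := by ring
  rw [e12] at h12
  rw [e13] at hg
  linarith

theorem winl {a b' ε₀ : ℝ} (hab : a < b') (hε₀ : 0 < ε₀) :
    ∃ (K₀ : ℕ) (w₀ H₀ : ℝ), 0 < w₀ ∧ 1 ≤ H₀ ∧ ∀ H : ℝ, H₀ ≤ H → ∃ d θ : ℝ, 0 < d ∧ d ≤ 1 ∧ 0 < θ ∧ θ ≤ 1 / 40 ∧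
      ∀ᶠ T : ℝ in atTop, ∀ (P X N M : ℕ) (q b : ℕ → ℂ), (M : ℝ) ≤ T ^ θ → Qs P X q → Bs P N b → N2 X q = 1 →
        (∀ p, ‖q p‖ ^ 2 / (p : ℝ) ≤ w₀) → X ^ K₀ * N ≤ M →
        ((2 - H370.cMTinv) * (gaussianReal 0 1).real (Set.Ioo a b') - ε₀) * (H / Real.pi) * (T * N2 N b) ≤
          ∫ t in (T + 2 * Real.log T)..(2 * T - 2 * Real.log T),
            Niw d T (H / Real.log T) t * Set.indicator (SQ X q a b') (fun t => ‖dp N b t‖ ^ 2) t := by
  have hd := Pool.Agent.Q84.UM.t_DPM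
  obtain ⟨e, he⟩ : ∃ e, e = min ε₀ 1 := ⟨_, rfl⟩
  have he0 : 0 < e := by rw [he]; positivity
  have he1 : e ≤ 1 := by rw [he]; exact min_le_right _ _
  have hee : e ≤ ε₀ := by rw [he]; exact min_le_left _ _
  obtain ⟨K₀, η₁, w₀, hη₁, hw₀, hG⟩ := gl1 hd hab (by positivity : 0 < e / 64)
  obtain ⟨e₂, he₂⟩ : ∃ e₂, e₂ = min e η₁ := ⟨_, rfl⟩
  have he₂0 : 0 < e₂ := by rw [he₂]; positivity
  have he₂e : e₂ ≤ e := by rw [he₂]; exact min_le_left _ _
  have he₂η : e₂ ≤ η₁ := by rw [he₂]; exact min_le_right _ _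
  obtain ⟨lam, g, R, hl0, hl1, hg, hR, hK, hcR⟩ := Pool.Agent.Q222.UM.t_MTW (e / 16) (by positivity)
  obtain ⟨D, hD0, hD⟩ := hR.lip
  obtain ⟨C₁, hC₁, hPA⟩ := b_PAIR R D lam hD hl0 hl1
  obtain ⟨ϑ, c₀, C', hϑ0, hϑ1, hc₀, hC', hTB⟩ := b_TAIL
  obtain ⟨C₂, hC₂, hEDB⟩ := b_ED ϑ c₀ C' hϑ0 hϑ1 hc₀ hC' hTB
  obtain ⟨c, hc⟩ : ∃ c, c = min (c₀ / 4) 1 := ⟨_, rfl⟩
  have hc0 : 0 < c := by rw [hc]; positivity
  have hEDB' : EDB (ϑ / 2) c C₂ := EDB_mono hC₂ (by rw [hc]; exact min_le_left _ _) hEDB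
  obtain ⟨KE, hER⟩ := b_ERR (ϑ / 2) c C₂ (by positivity) (by linarith) hc0 (by rw [hc]; exact min_le_right _ _) hC₂ hEDB'
  obtain ⟨K, hKd⟩ : ∃ K, K = max KE 2 := ⟨_, rfl⟩
  have hK2 : 2 ≤ K := by rw [hKd]; exact le_max_right _ _
  have hKK : KE ≤ K := by rw [hKd]; exact le_max_left _ _
  obtain ⟨η, hη⟩ : ∃ η, η = e₂ / (64 * C₁) := ⟨_, rfl⟩
  have hη0 : 0 < η := by rw [hη]; positivity
  have hηC : C₁ * η ≤ e₂ / 64 := by
    rw [hη]
    have : C₁ * (e₂ / (64 * C₁)) = e₂ / 64 := by field_simp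
    rw [this]
  obtain ⟨δ, hδ⟩ : ∃ δ, δ = min (min (c / 100) (1 / 16)) (min (min (lam / 3) ((1 - lam) / 8)) (η ^ 2)) := ⟨_, rfl⟩
  have hδ0 : 0 < δ := by
    rw [hδ]
    have : 0 < 1 - lam := by linarith
    positivity
  have hδ1 : δ ≤ c / 100 := by rw [hδ]; exact (min_le_left _ _).trans (min_le_left _ _)
  have hδ2 : δ ≤ 1 / 16 := by rw [hδ]; exact (min_le_left _ _).trans (min_le_right _ _)
  have hδ3 : δ ≤ lam / 3 := by
    rw [hδ]; exact (min_le_right _ _).trans ((min_le_left _ _).trans (min_le_left _ _))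
  have hδ4 : δ ≤ (1 - lam) / 8 := by
    rw [hδ]; exact (min_le_right _ _).trans ((min_le_left _ _).trans (min_le_right _ _))
  have hδ5 : δ ≤ η ^ 2 := by rw [hδ]; exact (min_le_right _ _).trans (min_le_right _ _)
  obtain ⟨C₄, hC₄, hER⟩ := hER K hKK δ hδ0 hδ1
  obtain ⟨Cw, hCw, hOM⟩ := Pool.Agent.Q247.UM.t_OMEX K δ hδ0 (by linarith)
  have hpi := Real.pi_pos
  obtain ⟨ηd, hηd⟩ : ∃ ηd, ηd = e / (64 * Cw ^ 2) := ⟨_, rfl⟩
  have hηd0 : 0 < ηd := by rw [hηd]; positivity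
  have hηdC : ηd * Cw ^ 2 = e / 64 := by rw [hηd]; field_simp
  obtain ⟨d, hd0, hd8, hDE⟩ := b_DETI g R lam hg hR hK hl0 hl1.le ηd hηd0
  obtain ⟨H₁, hH₁, hWN⟩ := b_WIN (e₂ / 32) (by positivity)
  obtain ⟨h₀, hh₀⟩ : ∃ h₀ : ℝ, h₀ = 32 / e * (4 * Cw ^ 2 + 10000 * Cw ^ 4 * C₄ + 8 * Cw ^ 4) + H₁ := ⟨_, rfl⟩
  have hh00 : 0 ≤ h₀ := by rw [hh₀]; positivity
  have hh01 : H₁ ≤ h₀ := by
    rw [hh₀]
    have : 0 ≤ 32 / e * (4 * Cw ^ 2 + 10000 * Cw ^ 4 * C₄ + 8 * Cw ^ 4) := by positivity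
    linarith
  refine ⟨K₀, w₀, 1 + Real.pi * h₀ + 4 * Cw ^ 4, hw₀, by nlinarith [pow_pos (by linarith : 0 < Cw) 4], fun H hH => ?_⟩
  have hCw4 : 0 < Cw ^ 4 := by positivity
  have hH1 : 1 ≤ H := by nlinarith [mul_nonneg hpi.le hh00]
  have hHH : H₁ ≤ H := by
    have := Real.pi_gt_three
    have h5 : h₀ ≤ Real.pi * h₀ := by nlinarith
    linarith
  obtain ⟨θ₁, hθ₁0, hθ₁1, hWN⟩ := hWN H hHH
  obtain ⟨w, hw⟩ := hOM H hH1
  obtain ⟨-, -, -, -, hq0, hI2⟩ := Pool.Agent.Q176.UM.t_QH δ H Cw K w hδ0 (by linarith) hH1 hCw hK2 hw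
  obtain ⟨h, hh⟩ : ∃ h, h = H / Real.pi := ⟨_, rfl⟩
  have hhH : H = h * Real.pi := by rw [hh]; field_simp
  have hhh : h₀ ≤ h := by
    rw [hh, le_div_iff₀ hpi]
    nlinarith
  have hh0 : 0 < h := by rw [hh]; positivity
  have hI2' : |I2 w - h| ≤ 4 * Cw ^ 4 / 3 := by
    have e1 : Real.pi * I2 w - H = Real.pi * (I2 w - h) := by rw [hhH]; ring
    rw [e1, abs_mul, abs_of_pos hpi] at hI2
    have := Real.pi_gt_three
    have h2 := abs_nonneg (I2 w - h)
    nlinarith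
  have f2 : 10000 * Cw ^ 4 * C₄ ≤ e / 32 * h := by
    have : 32 / e * (10000 * Cw ^ 4 * C₄) ≤ h := by
      refine le_trans ?_ hhh
      rw [hh₀]
      have h1 : 0 ≤ 32 / e * (4 * Cw ^ 2 + 8 * Cw ^ 4) + H₁ := by positivity
      linarith
    have h2 := mul_le_mul_of_nonneg_left this (by positivity : 0 ≤ e / 32)
    have h3 : e / 32 * (32 / e * (10000 * Cw ^ 4 * C₄)) = 10000 * Cw ^ 4 * C₄ := by field_simp
    linarith
  have f3 : 8 * Cw ^ 4 ≤ e / 32 * h := by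
    have : 32 / e * (8 * Cw ^ 4) ≤ h := by
      refine le_trans ?_ hhh
      rw [hh₀]
      have h1 : 0 ≤ 32 / e * (4 * Cw ^ 2 + 10000 * Cw ^ 4 * C₄) + H₁ := by positivity
      linarith
    have h2 := mul_le_mul_of_nonneg_left this (by positivity : 0 ≤ e / 32)
    have h3 : e / 32 * (32 / e * (8 * Cw ^ 4)) = 8 * Cw ^ 4 := by field_simp
    linarith
  have hI2up : I2 w ≤ 2 * h := by
    have := (abs_le.1 hI2').2
    nlinarith
  have hI20 : 0 ≤ I2 w := by
    have := (abs_le.1 hI2').1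
    nlinarith
  obtain ⟨θ, hθ⟩ : ∃ θ, θ = min (min (ϑ / 2) θ₁) (min ((1 - lam) / 4) (η ^ 2)) := ⟨_, rfl⟩
  have hθ0 : 0 < θ := by
    rw [hθ]
    have : 0 < 1 - lam := by linarith
    positivity
  have hθ1 : θ ≤ ϑ / 2 := by rw [hθ]; exact (min_le_left _ _).trans (min_le_left _ _)
  have hθ21 : θ ≤ θ₁ := by rw [hθ]; exact (min_le_left _ _).trans (min_le_right _ _)
  have hθ2 : θ ≤ 1 / 40 := hθ21.trans hθ₁1
  have hθ3 : θ ≤ (1 - lam) / 4 := by rw [hθ]; exact (min_le_right _ _).trans (min_le_left _ _)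
  have hθ4 : θ ≤ η ^ 2 := by rw [hθ]; exact (min_le_right _ _).trans (min_le_right _ _)
  refine ⟨d, θ, hd0, by linarith, hθ0, hθ2, ?_⟩
  have hsδ : Real.sqrt δ ≤ η := by
    rw [Real.sqrt_le_left hη0.le]; exact hδ5
  have hsθ : Real.sqrt θ ≤ η := by
    rw [Real.sqrt_le_left hη0.le]; exact hθ4
  have ePA := hPA δ H Cw K w θ (e₂ / 32 * h) hδ0 hδ2 (by linarith) (by linarith) hH1 hCw hK2 hw hθ0 hθ2 (by positivity)
  have eDE := hDE δ H Cw K w hδ0 (by linarith) hH1 hCw hK2 hw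
  have eER := hER H hH1
  filter_upwards [ePA, hWN, eDE, eER, eventually_ge_atTop (16 : ℝ)] with T ePA hWN eDE eER hT16 P X N M q b hM hq hb h1 hwq hXM
  have hT0 : 0 < T := by linarith
  have hT1 : 1 ≤ T := by linarith
  have hX1 := X_one hq h1
  have hNM : N ≤ M := (Nat.le_mul_of_pos_left N (by positivity)).trans hXM
  have hNMr : (N : ℝ) ≤ M := by exact_mod_cast hNM
  have hNϑ : (N : ℝ) ≤ T ^ (ϑ / 2) := (hNMr.trans hM).trans (Real.rpow_le_rpow_of_exponent_le hT1 hθ1)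
  have hM1 : (M : ℝ) ≤ T ^ θ₁ := hM.trans (Real.rpow_le_rpow_of_exponent_le hT1 hθ21)
  replace eER := eER N hNϑ b
  have hL0 : 0 ≤ Real.log T := Real.log_nonneg hT1
  have hL4 : 4 * Real.log T ≤ T := by
    have h5 := Real.log_le_sub_one_of_pos (show (0 : ℝ) < T / 16 by positivity)
    rw [Real.log_div (by positivity) (by norm_num)] at h5
    have h6 : Real.log 16 ≤ 3 := by
      have : Real.log 16 = 4 * Real.log 2 := by
        rw [show (16 : ℝ) = 2 ^ 4 by norm_num, Real.log_pow]; norm_num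
      rw [this]; have := Real.log_two_lt_d9; linarith
    linarith
  have hxy : T + 2 * Real.log T ≤ 2 * T - 2 * Real.log T := by linarith
  have hVc : ∀ (n : ℕ) (e : ℕ → ℂ), Continuous (fun t : ℝ => ‖dp n e t‖ ^ 2) := fun n e => ((dp_cont hd n e).norm).pow 2
  have hRc : Continuous R := by
    have h1 : LipschitzWith (Real.toNNReal D) R := by
      refine LipschitzWith.of_dist_le_mul fun x y => ?_
      rw [Real.dist_eq, Real.dist_eq]
      refine (hD x y).trans ?_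
      exact mul_le_mul_of_nonneg_right (Real.le_coe_toNNReal D) (abs_nonneg _)
    exact h1.continuous
  have hSm := SQ_meas hd X q a b'
  have g1 := core_ind hw hδ0 hH1 hηd0.le hRc (hVc N b) (fun t => by positivity) hSm hxy eDE
  have hcR0 : 0 ≤ H295SI.cR R lam := by
    unfold H295SI.cR
    have h9 : 0 ≤ ∫ α in (0 : ℝ)..1, α * R α :=
      intervalIntegral.integral_nonneg (by norm_num) fun α hα => mul_nonneg hα.1 (hR.nonneg α)
    have h10 := hR.nonneg 0
    positivity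
  obtain ⟨mN, B1, bN⟩ := Nw_meas T (H / Real.log T)
  have hKc := Kp_cont hw hδ0 hRc lam T
  have hcont1 : Continuous (fun _ : ℝ => (1 : ℝ)) := continuous_const
  have iNone : IntervalIntegrable (Nw T (H / Real.log T)) volume (T + 2 * Real.log T) (2 * T - 2 * Real.log T) := by
    have h5 := ii_mul mN bN hcont1 (T + 2 * Real.log T) (2 * T - 2 * Real.log T)
    simpa using h5
  -- the two kernels
  have sqA : ∀ c : ℕ → ℂ, (∀ n, c n ≠ 0 → 1 ≤ n ∧ n ≤ M) →
      |(∫ t in (T + 2 * Real.log T)..(2 * T - 2 * Real.log T), Nw T (H / Real.log T) t * ‖dp M c t‖ ^ 2) - T * h * N2 M c| ≤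
        e₂ / 32 * (T * h * N2 M c) := by
    intro c _
    have h5 := (hWN M hM1 c).2.2
    rw [← hh] at h5
    have e1 : h * (T * N2 M c) = T * h * N2 M c := by ring
    have e3 : e₂ / 32 * h * (T * N2 M c) = e₂ / 32 * (T * h * N2 M c) := by ring
    rw [e1, e3] at h5
    exact h5
  have sqK : ∀ c : ℕ → ℂ,
      |(∫ t in (T + 2 * Real.log T)..(2 * T - 2 * Real.log T), Kp R w lam T t * ‖dp M c t‖ ^ 2) -
        T * (H295SI.cR R lam * I2 w) * N2 M c| ≤ 3 * (e₂ / 32) * (T * h * N2 M c) := by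
    intro c
    have h5 := ePA M hM c
    rw [← swap_pair hw hδ0 hRc (hVc M c) T (lam * Real.log T)] at h5
    have e1 : (R 0 / lam + 2 * lam * ∫ α in (0 : ℝ)..1, α * R α) * I2 w * T * N2 M c =
        T * (H295SI.cR R lam * I2 w) * N2 M c := by
      unfold H295SI.cR; ring
    rw [e1] at h5
    refine h5.trans ?_
    have h6 : C₁ * (Real.sqrt δ + Real.sqrt θ) * I2 w ≤ 2 * (e₂ / 32) * h := by
      have h3 : C₁ * (Real.sqrt δ + Real.sqrt θ) ≤ e₂ / 32 := by
        have : C₁ * (Real.sqrt δ + Real.sqrt θ) ≤ C₁ * (2 * η) :=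
          mul_le_mul_of_nonneg_left (by linarith) (by linarith)
        linarith
      calc C₁ * (Real.sqrt δ + Real.sqrt θ) * I2 w ≤ e₂ / 32 * (2 * h) :=
            mul_le_mul h3 hI2up hI20 (by positivity)
        _ = _ := by ring
    have hN0 : 0 ≤ T * N2 M c := mul_nonneg hT0.le (N2_nn M c)
    calc (C₁ * (Real.sqrt δ + Real.sqrt θ) * I2 w + e₂ / 32 * h) * T * N2 M c =
          (C₁ * (Real.sqrt δ + Real.sqrt θ) * I2 w + e₂ / 32 * h) * (T * N2 M c) := by ring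
      _ ≤ (2 * (e₂ / 32) * h + e₂ / 32 * h) * (T * N2 M c) := by gcongr
      _ = _ := by ring
  have sqB : ∀ c : ℕ → ℂ, (∀ n, c n ≠ 0 → 1 ≤ n ∧ n ≤ M) →
      |(∫ t in (T + 2 * Real.log T)..(2 * T - 2 * Real.log T),
        (Nw T (H / Real.log T) t + Kp R w lam T t) * ‖dp M c t‖ ^ 2) - T * (h + H295SI.cR R lam * I2 w) * N2 M c| ≤
        η₁ * (T * (h + H295SI.cR R lam * I2 w) * N2 M c) := by
    intro c hcs
    have e1 : (∫ t in (T + 2 * Real.log T)..(2 * T - 2 * Real.log T),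
        (Nw T (H / Real.log T) t + Kp R w lam T t) * ‖dp M c t‖ ^ 2) =
        (∫ t in (T + 2 * Real.log T)..(2 * T - 2 * Real.log T), Nw T (H / Real.log T) t * ‖dp M c t‖ ^ 2) +
        ∫ t in (T + 2 * Real.log T)..(2 * T - 2 * Real.log T), Kp R w lam T t * ‖dp M c t‖ ^ 2 := by
      have iK : IntervalIntegrable (fun t => Kp R w lam T t * ‖dp M c t‖ ^ 2) volume
        (T + 2 * Real.log T) (2 * T - 2 * Real.log T) := (hKc.mul (hVc M c)).intervalIntegrable _ _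
      rw [← intervalIntegral.integral_add (ii_mul mN bN (hVc M c) _ _) iK]
      refine intervalIntegral.integral_congr fun t _ => ?_
      ring
    rw [e1]
    have h5 := sqA c hcs
    have h6 := sqK c
    have h7 : 0 ≤ T * h * N2 M c := mul_nonneg (by positivity) (N2_nn M c)
    have h8 : 0 ≤ T * (H295SI.cR R lam * I2 w) * N2 M c := mul_nonneg (by positivity) (N2_nn M c)
    obtain ⟨A, hA⟩ : ∃ A, A = ∫ t in (T + 2 * Real.log T)..(2 * T - 2 * Real.log T), Nw T (H / Real.log T) t * ‖dp M c t‖ ^ 2 := ⟨_, rfl⟩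
    obtain ⟨B, hB⟩ : ∃ B, B = ∫ t in (T + 2 * Real.log T)..(2 * T - 2 * Real.log T), Kp R w lam T t * ‖dp M c t‖ ^ 2 := ⟨_, rfl⟩
    rw [← hA] at h5 ⊢
    rw [← hB] at h6 ⊢
    have e2 : A + B - T * (h + H295SI.cR R lam * I2 w) * N2 M c =
        (A - T * h * N2 M c) + (B - T * (H295SI.cR R lam * I2 w) * N2 M c) := by ring
    have e3 : T * (h + H295SI.cR R lam * I2 w) * N2 M c = T * h * N2 M c + T * (H295SI.cR R lam * I2 w) * N2 M c := by ring
    rw [e2, e3]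
    have h9 := abs_add_le (A - T * h * N2 M c) (B - T * (H295SI.cR R lam * I2 w) * N2 M c)
    have h10 : e₂ / 32 * (T * h * N2 M c) + 3 * (e₂ / 32) * (T * h * N2 M c) ≤ η₁ * (T * h * N2 M c) := by
      have : e₂ / 32 * (T * h * N2 M c) + 3 * (e₂ / 32) * (T * h * N2 M c) = e₂ / 8 * (T * h * N2 M c) := by ring
      rw [this]
      exact mul_le_mul_of_nonneg_right (by linarith) h7
    have h11 : 0 ≤ η₁ * (T * (H295SI.cR R lam * I2 w) * N2 M c) := by positivity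
    linarith
  have sqA' : ∀ c : ℕ → ℂ, (∀ n, c n ≠ 0 → 1 ≤ n ∧ n ≤ M) →
      |(∫ t in (T + 2 * Real.log T)..(2 * T - 2 * Real.log T), Nw T (H / Real.log T) t * ‖dp M c t‖ ^ 2) - T * h * N2 M c| ≤
        η₁ * (T * h * N2 M c) := by
    intro c hcs
    refine (sqA c hcs).trans (mul_le_mul_of_nonneg_right (by linarith) (mul_nonneg (by positivity) (N2_nn M c)))
  have hA := hG (T + 2 * Real.log T) (2 * T - 2 * Real.log T) (T * h) (Nw T (H / Real.log T)) P X N M q b hxy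
    (by positivity) mN iNone (fun t => Nw_nn _ _ t) hq hb h1 hwq hXM sqA'
  have hB := hG (T + 2 * Real.log T) (2 * T - 2 * Real.log T) (T * (h + H295SI.cR R lam * I2 w))
    (fun t => Nw T (H / Real.log T) t + Kp R w lam T t) P X N M q b hxy (by positivity) (mN.add hKc.measurable)
    (iNone.add (hKc.intervalIntegrable _ _)) (fun t => add_nonneg (Nw_nn _ _ t) (Kp_nn hR.nonneg _ _ _)) hq hb h1 hwq hXM sqB
  obtain ⟨G, hGd⟩ : ∃ G, G = (gaussianReal 0 1).real (Set.Ioo a b') := ⟨_, rfl⟩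
  have hG0 : 0 ≤ G := by rw [hGd]; exact measureReal_nonneg
  have hG1 : G ≤ 1 := by
    rw [hGd]
    exact measureReal_le_one
  rw [← hGd] at hA hB ⊢
  have eB : (∫ t in (T + 2 * Real.log T)..(2 * T - 2 * Real.log T), (Nw T (H / Real.log T) t + Kp R w lam T t) *
      Set.indicator (SQ X q a b') (fun t => ‖dp N b t‖ ^ 2) t) =
      (∫ t in (T + 2 * Real.log T)..(2 * T - 2 * Real.log T), Nw T (H / Real.log T) t *
        Set.indicator (SQ X q a b') (fun t => ‖dp N b t‖ ^ 2) t) +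
      ∫ t in (T + 2 * Real.log T)..(2 * T - 2 * Real.log T), Kp R w lam T t *
        Set.indicator (SQ X q a b') (fun t => ‖dp N b t‖ ^ 2) t := by
    have iK : IntervalIntegrable (fun t => Kp R w lam T t * ‖dp N b t‖ ^ 2) volume
      (T + 2 * Real.log T) (2 * T - 2 * Real.log T) := (hKc.mul (hVc N b)).intervalIntegrable _ _
    rw [← intervalIntegral.integral_add (ii_ind hSm (ii_mul mN bN (hVc N b) _ _)) (ii_ind hSm iK)]
    refine intervalIntegral.integral_congr fun t _ => ?_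
    ring
  rw [eB] at hB
  have hAW := (hWN N (hNMr.trans hM1) b).2.2
  set A := ∫ t in (T + 2 * Real.log T)..(2 * T - 2 * Real.log T), Nw T (H / Real.log T) t *
        Set.indicator (SQ X q a b') (fun t => ‖dp N b t‖ ^ 2) t with hAd
  set S := ∫ t in (T + 2 * Real.log T)..(2 * T - 2 * Real.log T), Niw d T (H / Real.log T) t *
        Set.indicator (SQ X q a b') (fun t => ‖dp N b t‖ ^ 2) t with hSd
  set B := ∫ t in (T + 2 * Real.log T)..(2 * T - 2 * Real.log T), Kp R w lam T t *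
        Set.indicator (SQ X q a b') (fun t => ‖dp N b t‖ ^ 2) t with hBd
  set E := ∫ t in (T + 2 * Real.log T)..(2 * T - 2 * Real.log T), ErrS δ H K T t * ‖dp N b t‖ ^ 2 with hE
  set A' := ∫ t in (T + 2 * Real.log T)..(2 * T - 2 * Real.log T), Nw T (H / Real.log T) t * ‖dp N b t‖ ^ 2 with hA'
  obtain ⟨W, hW⟩ : ∃ W, W = T * N2 N b := ⟨_, rfl⟩
  have hW0 : 0 ≤ W := by rw [hW]; exact mul_nonneg hT0.le (N2_nn N b)
  have eER' : 10000 * Cw ^ 4 * E ≤ e / 32 * h * W := by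
    have h1 : 10000 * Cw ^ 4 * E ≤ 10000 * Cw ^ 4 * (C₄ * T * N2 N b) := mul_le_mul_of_nonneg_left eER (by positivity)
    have h2 : 10000 * Cw ^ 4 * (C₄ * T * N2 N b) = 10000 * Cw ^ 4 * C₄ * W := by rw [hW]; ring
    rw [h2] at h1
    exact h1.trans (mul_le_mul_of_nonneg_right f2 hW0)
  rw [← hh, ← hW] at hAW
  have hhW : 0 ≤ h * W := by positivity
  have hA2 : ηd * Cw ^ 2 * A' ≤ e / 32 * h * W := by
    rw [hηdC]
    have h1 := (abs_le.1 hAW).2
    have h2 : A' ≤ 2 * (h * W) := by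
      have h3 : e₂ / 32 * h * W ≤ h * W := by
        have : e₂ / 32 * h * W = e₂ / 32 * (h * W) := by ring
        rw [this]
        nlinarith
      linarith
    calc e / 64 * A' ≤ e / 64 * (2 * (h * W)) := by gcongr
      _ = e / 32 * h * W := by ring
  have hcI : H295SI.cR R lam * I2 w ≤ (H370.cMTinv + 3 * (e / 32)) * h := by
    have hcMT : H370.cMTinv < 3 / 2 := H370.cMTinv_lt
    have h5 : H295SI.cR R lam * I2 w ≤ (H370.cMTinv + e / 16) * I2 w := mul_le_mul_of_nonneg_right hcR hI20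
    have h6 : I2 w ≤ h + 4 * Cw ^ 4 / 3 := by linarith [(abs_le.1 hI2').2]
    have h7 : 0 ≤ H370.cMTinv + e / 16 := hcR0.trans hcR
    have h8 : (H370.cMTinv + e / 16) * I2 w ≤ (H370.cMTinv + e / 16) * (h + 4 * Cw ^ 4 / 3) :=
      mul_le_mul_of_nonneg_left h6 h7
    have h9 : (H370.cMTinv + e / 16) * (4 * Cw ^ 4 / 3) ≤ e / 32 * h := by
      have h10 : (H370.cMTinv + e / 16) * (4 * Cw ^ 4 / 3) ≤ 2 * (4 * Cw ^ 4 / 3) :=
        mul_le_mul_of_nonneg_right (by linarith) (by positivity)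
      linarith
    linarith
  have e5 : T * h * N2 N b = h * W := by rw [hW]; ring
  have e6 : T * (h + H295SI.cR R lam * I2 w) * N2 N b = (h + H295SI.cR R lam * I2 w) * W := by rw [hW]; ring
  rw [e5] at hA
  rw [e6] at hB
  rw [← hh, ← hW]
  have hfin := fin_w he0 he1 hG0 hG1 H370.cMTinv_lt hW0 hh0 hA hB hcI (g1.trans (add_le_add (add_le_add le_rfl eER') hA2))
  have hkey2 : ((2 - H370.cMTinv) * G - ε₀) * h * W ≤ ((2 - H370.cMTinv) * G - e) * (h * W) := by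
    rw [mul_assoc]
    exact mul_le_mul_of_nonneg_right (by linarith) hhW
  exact hkey2.trans hfin

end

end Run7.h311.LW
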