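import Pool.Agent.Run7.h311.LW.Smo
import Pool.Agent.Run7.h311.LW.Win

set_option autoImplicit false

/-! From windows to the isolated zeros, with the law of a sum over primes (after `Q61/UM/SAMP.lean`, `Q148/UM/SAMPI.lean`). -/

namespace Run7.h311.LW

open Filter Topology MeasureTheory Complex ProbabilityTheory
open Pool.Agent.Q97.UM Pool.Agent.Q14.UM Pool.Agent.Q61.UM Pool.Agent.Q148.UM

noncomputable section

theorem Qs.bd {P X : ℕ} {q : ℕ → ℂ} (h : Qs P X q) : Qs P X (bd q) := by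
  intro n hn
  apply h n
  intro h1
  apply hn
  unfold Pool.Agent.Q61.UM.bd
  rw [h1, zero_mul]

open Classical in
theorem samp_ph (hD : S_DPM) {ε C θ H T Cp a b' η : ℝ} (hC : 0 < C)
    (hcnt : ∀ t : ℝ, 3 ≤ t → (H370.NN riemannZeta (t - 1) (t + 1) : ℝ) ≤ C * Real.log t)
    (hθ : 0 < θ) (hθ1 : θ ≤ 1 / 40) (hH : 0 < H) (hCp0 : 0 ≤ Cp) (hθH : (1 + Cp) * (64 * H) * θ ≤ ε)
    (hT : 4 ≤ T) (hL1 : 1 ≤ Real.log T) (hLH : H ≤ Real.log T) (hLT : 4 * Real.log T ≤ T)
    (hout : 12 * C * Real.log T * T ^ (1 / 40 : ℝ) ≤ ε / 32 * T) {P X N : ℕ} {q b : ℕ → ℂ} (hN : (N : ℝ) ≤ T ^ θ)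
    (hX : (X : ℝ) ≤ T ^ θ) (hq : Qs P X q) (hb : Bs P N b) (h1 : N2 X q = 1)
    (hCp : ∀ u, |ph' a b' η u| * Real.sqrt 2 ≤ Cp)
    (hW : ∀ (n : ℕ) (c : ℕ → ℂ), n ≤ X * N → (∫ t in (T + 2 * Real.log T)..(2 * T - 2 * Real.log T),
      Nw T (H / Real.log T) t * ‖dp n c t‖ ^ 2) ≤ 2 * (H / Real.pi) * (T * N2 n c))
    {ω : ℂ → ℝ} (hω0 : ∀ s ∈ H370.Zf riemannZeta T (2 * T), 0 ≤ ω s)
    (hωm : ∀ s ∈ H370.Zf riemannZeta T (2 * T), ω s ≤ mz s) :
    (∫ t in (T + 2 * Real.log T)..(2 * T - 2 * Real.log T),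
        (∑ s ∈ (ZT T).filter (fun s => |s.im - t| ≤ H / Real.log T), ω s) * fT a b' η X N q b t) -
      2 * (H / Real.log T) * ∑ s ∈ H370.Zf riemannZeta T (2 * T), ω s * fT a b' η X N q b s.im ≤
      2 * (H / Real.log T) * (ε / 16 * Real.log T * (T * N2 N b)) := by
  have hF := H370.good_zeta
  set L : ℝ := Real.log T with hL
  have hL0 : 0 < L := by linarith
  have hT0 : 0 < T := by linarith
  set r : ℝ := H / L with hr
  have hr0 : 0 < r := by positivity
  have hr1 : r ≤ 1 := by rw [hr, div_le_one hL0]; exact hLH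
  have hc : ∀ (n : ℕ) (c : ℕ → ℂ), Continuous (dp n c) := fun n c => dp_cont hD n c
  set lam : ℝ := θ * L with hlam
  have hlam0 : 0 < lam := by positivity
  have hS0 := N2_nn N b
  have hAB : T + 2 * L ≤ 2 * T - 2 * L := by linarith
  have hkc : Continuous (kT Cp lam X N q b) := by
    unfold kT
    exact continuous_const.mul ((((hc N b).norm.pow 2).const_mul _).add
      ((((hc N (bd b)).norm.pow 2).add ((hc (X * N) (cv (bd q) b)).norm.pow 2)).const_mul _))
  have hfc : Continuous (fT a b' η X N q b) := by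
    unfold fT
    exact ((hc N b).norm.pow 2).mul ((ph_cont a b' η).comp (continuous_const.mul (Complex.continuous_re.comp (hc X q))))
  have hsub : ZT T ⊆ H370.Zf riemannZeta T (2 * T) := by
    intro s hs
    unfold ZT at hs
    rw [H370.mem_Zf hF (by linarith)] at hs ⊢
    obtain ⟨a1, a2, a3, a4, a5⟩ := hs
    exact ⟨a1, a2, by linarith, by linarith, a5⟩
  have hin : ∀ s ∈ H370.Zf riemannZeta T (2 * T), T + 2 * L ≤ s.im - r → s.im + r ≤ 2 * T - 2 * L → s ∈ ZT T := by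
    intro s hs h1 h2
    unfold ZT
    rw [H370.mem_Zf hF (by linarith)] at hs ⊢
    obtain ⟨a1, a2, a3, a4, a5⟩ := hs
    exact ⟨a1, a2, by linarith, by linarith, a5⟩
  have core := samp_core hsub (m := fun s => (mz s : ℝ)) hω0 hωm hAB hr0 (M := N * N2 N b)
    (f := fT a b' η X N q b) (k := kT Cp lam X N q b) hfc hkc
    (fun t => mul_nonneg (by positivity) (ph_nn _ _ _ _))
    (fun t => by
      unfold fT
      have h2 := (hD.2.2 N b t).1
      have h3 := ph_le a b' η (Real.sqrt 2 * (dp X q t).re)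
      have h4 : ‖dp N b t‖ ^ 2 * ph a b' η (Real.sqrt 2 * (dp X q t).re) ≤ ‖dp N b t‖ ^ 2 * 1 := by gcongr
      linarith)
    (fun t => by unfold kT; positivity)
    (fT_var hD hq.len hb.len hCp hlam0) hin
  refine ((le_abs_self _).trans core).trans (mul_le_mul_of_nonneg_left ?_ (by positivity))
  have ho := outer_sum hC hcnt (T := T) (L := L) (r := r) hL hL1 hr1 hT hLT
  obtain ⟨mN, B1, bN⟩ := Nw_meas T r
  have hI : (∫ t in (T + 2 * L)..(2 * T - 2 * L), (∑ s ∈ (ZT T).filter (fun s => |s.im - t| ≤ r), (mz s : ℝ)) *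
      kT Cp lam X N q b t) = (1 + Cp) * (
      lam * (∫ t in (T + 2 * L)..(2 * T - 2 * L), Nw T r t * ‖dp N b t‖ ^ 2) +
      lam⁻¹ * ((∫ t in (T + 2 * L)..(2 * T - 2 * L), Nw T r t * ‖dp N (bd b) t‖ ^ 2) +
        (∫ t in (T + 2 * L)..(2 * T - 2 * L), Nw T r t * ‖dp (X * N) (cv (bd q) b) t‖ ^ 2))) := by
    have i1 : IntervalIntegrable (fun t => lam * (Nw T r t * ‖dp N b t‖ ^ 2)) volume (T + 2 * L) (2 * T - 2 * L) :=
      (ii_mul mN bN ((hc N b).norm.pow 2) _ _).const_mul _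
    have i2 : IntervalIntegrable (fun t => Nw T r t * ‖dp N (bd b) t‖ ^ 2) volume (T + 2 * L) (2 * T - 2 * L) :=
      ii_mul mN bN ((hc N (bd b)).norm.pow 2) _ _
    have i3 : IntervalIntegrable (fun t => Nw T r t * ‖dp (X * N) (cv (bd q) b) t‖ ^ 2) volume (T + 2 * L) (2 * T - 2 * L) :=
      ii_mul mN bN ((hc (X * N) (cv (bd q) b)).norm.pow 2) _ _
    rw [← intervalIntegral.integral_add i2 i3, ← intervalIntegral.integral_const_mul,
      ← intervalIntegral.integral_const_mul, ← intervalIntegral.integral_add i1 ((i2.add i3).const_mul _),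
      ← intervalIntegral.integral_const_mul]
    congr 1
    funext t
    unfold Nw kT
    ring
  rw [hI]
  have hπ : 3 < Real.pi := Real.pi_gt_three
  have hlog : ∀ n : ℕ, (n : ℝ) ≤ T ^ θ → Real.log n ^ 2 ≤ lam ^ 2 := by
    intro n hn
    rcases Nat.eq_zero_or_pos n with h0 | h0
    · rw [h0]; simp; positivity
    · have h1 : (1 : ℝ) ≤ n := by exact_mod_cast h0
      have h2 : Real.log n ≤ lam := by
        rw [hlam, hL, ← Real.log_rpow hT0]
        exact Real.log_le_log (by linarith) hn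
      have h3 := Real.log_nonneg h1
      gcongr
  have hNL : N2 N (bd b) ≤ lam ^ 2 * N2 N b :=
    (N2_bd N b).trans (mul_le_mul_of_nonneg_right (hlog N hN) hS0)
  have hXL : N2 (X * N) (cv (bd q) b) ≤ lam ^ 2 * N2 N b := by
    have h2 := N2_cv_le (bd q) b (fun p => P < p) hq.bd.sp hb.sp X N (X * N) hq.bd.len hb.len
    have h3 := (N2_bd X q).trans (mul_le_mul_of_nonneg_right (hlog X hX) (N2_nn X q))
    rw [h1, mul_one] at h3
    exact h2.trans (mul_le_mul_of_nonneg_right h3 hS0)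
  have hX1 := X_one hq h1
  have hNX : N ≤ X * N := Nat.le_mul_of_pos_left N hX1
  have hW1 := hW N b hNX
  have hW2 : (∫ t in (T + 2 * L)..(2 * T - 2 * L), Nw T r t * ‖dp N (bd b) t‖ ^ 2) ≤
      2 * (H / Real.pi) * (T * (lam ^ 2 * N2 N b)) := (hW N (bd b) hNX).trans (by gcongr)
  have hW3 : (∫ t in (T + 2 * L)..(2 * T - 2 * L), Nw T r t * ‖dp (X * N) (cv (bd q) b) t‖ ^ 2) ≤
      2 * (H / Real.pi) * (T * (lam ^ 2 * N2 N b)) := (hW (X * N) _ le_rfl).trans (by gcongr)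
  have e1 : (1 + Cp) * (lam * (∫ t in (T + 2 * L)..(2 * T - 2 * L), Nw T r t * ‖dp N b t‖ ^ 2) +
      lam⁻¹ * ((∫ t in (T + 2 * L)..(2 * T - 2 * L), Nw T r t * ‖dp N (bd b) t‖ ^ 2) +
        (∫ t in (T + 2 * L)..(2 * T - 2 * L), Nw T r t * ‖dp (X * N) (cv (bd q) b) t‖ ^ 2))) ≤
      ε / 32 * L * (T * N2 N b) := by
    calc (1 + Cp) * (lam * (∫ t in (T + 2 * L)..(2 * T - 2 * L), Nw T r t * ‖dp N b t‖ ^ 2) +
      lam⁻¹ * ((∫ t in (T + 2 * L)..(2 * T - 2 * L), Nw T r t * ‖dp N (bd b) t‖ ^ 2) +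
        (∫ t in (T + 2 * L)..(2 * T - 2 * L), Nw T r t * ‖dp (X * N) (cv (bd q) b) t‖ ^ 2))) ≤
        (1 + Cp) * (lam * (2 * (H / Real.pi) * (T * N2 N b)) + lam⁻¹ * (2 * (H / Real.pi) * (T * (lam ^ 2 * N2 N b)) +
          2 * (H / Real.pi) * (T * (lam ^ 2 * N2 N b)))) := by
          gcongr
      _ = ((1 + Cp) * (6 * H) * θ / Real.pi) * (L * (T * N2 N b)) := by
          rw [hlam]
          field_simp
          ring
      _ ≤ ε / 32 * (L * (T * N2 N b)) := by
          have h3 : (1 + Cp) * (6 * H) * θ / Real.pi ≤ ε / 32 := by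
            rw [div_le_div_iff₀ (by positivity) (by norm_num)]
            have h4 : 0 ≤ (1 + Cp) * (6 * H) * θ := by positivity
            nlinarith
          exact mul_le_mul_of_nonneg_right h3 (by positivity)
      _ = ε / 32 * L * (T * N2 N b) := by ring
  have e2 : (N : ℝ) * N2 N b * ∑ s ∈ (H370.Zf riemannZeta T (2 * T)).filter
      (fun s => ¬ (T + 2 * L ≤ s.im - r ∧ s.im + r ≤ 2 * T - 2 * L)), (mz s : ℝ) ≤ ε / 32 * L * (T * N2 N b) := by
    have h1 : (N : ℝ) ≤ T ^ (1 / 40 : ℝ) := hN.trans (Real.rpow_le_rpow_of_exponent_le (by linarith) hθ1)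
    calc (N : ℝ) * N2 N b * (∑ s ∈ (H370.Zf riemannZeta T (2 * T)).filter
        (fun s => ¬ (T + 2 * L ≤ s.im - r ∧ s.im + r ≤ 2 * T - 2 * L)), (mz s : ℝ)) ≤
        T ^ (1 / 40 : ℝ) * N2 N b * (12 * C * L ^ 2) := by
          gcongr
      _ = (12 * C * L * T ^ (1 / 40 : ℝ)) * (L * N2 N b) := by ring
      _ ≤ (ε / 32 * T) * (L * N2 N b) := mul_le_mul_of_nonneg_right hout (by positivity)
      _ = ε / 32 * L * (T * N2 N b) := by ring
  linarith

open Classical in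
/-- **the law of a sum over primes at the isolated zeros, relative to every Dirichlet polynomial on small primes** -/
theorem zlaw {a b' ε : ℝ} (hab : a < b') (hε : 0 < ε) : ∃ d θ w₀ : ℝ, 0 < d ∧ d ≤ 1 ∧ 0 < θ ∧ θ ≤ 1 / 40 ∧ 0 < w₀ ∧
    ∀ᶠ T : ℝ in atTop, ∀ (P X N : ℕ) (q b : ℕ → ℂ), (N : ℝ) ≤ T ^ θ → (X : ℝ) ≤ T ^ θ → Qs P X q → Bs P N b →
      N2 X q = 1 → (∀ p, ‖q p‖ ^ 2 / (p : ℝ) ≤ w₀) →
      ((2 - H370.cMTinv) * (gaussianReal 0 1).real (Set.Ioo a b') - ε) * (Real.log T / (2 * Real.pi)) * (T * N2 N b) ≤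
        ∑ s ∈ (ZI d T).filter (fun s => s.im ∈ SQ X q (a - ε) (b' + ε)), ‖dp N b s.im‖ ^ 2 := by
  have hD := Pool.Agent.Q84.UM.t_DPM
  have hF := H370.good_zeta
  have hZ := Pool.Agent.Q178.UM.ZF2.t_ZF2
  obtain ⟨C, hC, hcnt⟩ := H370.zcount hF
  obtain ⟨θE, c, C₂, hθE0, hθE1, hc, hC₂, hE⟩ := b_EDB
  obtain ⟨H₁, hH1, hWIN⟩ := b_WIN 1 one_pos
  obtain ⟨K₀, w₀, H₂, hw₀, hH2, hWI⟩ := winl hab (by positivity : 0 < ε / 4)
  obtain ⟨Cs, hCs, hst⟩ := st_bd
  obtain ⟨Cp, hCpd⟩ : ∃ Cp : ℝ, Cp = 2 * Cs / ε * Real.sqrt 2 := ⟨_, rfl⟩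
  have hCp0 : 0 ≤ Cp := by rw [hCpd]; positivity
  have hCp : ∀ u, |ph' a b' ε u| * Real.sqrt 2 ≤ Cp := by
    intro u
    rw [hCpd]
    exact mul_le_mul_of_nonneg_right (ph'_bd hε hst u) (Real.sqrt_nonneg 2)
  obtain ⟨H, hHdef⟩ : ∃ H : ℝ, H = max (max H₁ H₂) (32 * C₂ / ε) := ⟨_, rfl⟩
  have hHa : H₁ ≤ H := by rw [hHdef]; exact (le_max_left _ _).trans (le_max_left _ _)
  have hHb : H₂ ≤ H := by rw [hHdef]; exact (le_max_right _ _).trans (le_max_left _ _)
  have hHc : 32 * C₂ / ε ≤ H := by rw [hHdef]; exact le_max_right _ _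
  have hH : 0 < H := by linarith
  obtain ⟨θ₁, hθ₁0, hθ₁1, hev1⟩ := hWIN H hHa
  obtain ⟨d, θ₂, hd0, hd1, hθ₂0, hθ₂1, hev2⟩ := hWI H hHb
  obtain ⟨θ, hθ⟩ : ∃ θ : ℝ, θ = min (min (θ₁ / 2) (θ₂ / (K₀ + 1))) (min θE (ε / ((1 + Cp) * (64 * H)))) := ⟨_, rfl⟩
  have hθ0 : 0 < θ := by rw [hθ]; positivity
  have hθa : θ ≤ θ₁ / 2 := by rw [hθ]; exact (min_le_left _ _).trans (min_le_left _ _)
  have hθb : (K₀ + 1) * θ ≤ θ₂ := by
    have : θ ≤ θ₂ / (K₀ + 1) := by rw [hθ]; exact (min_le_left _ _).trans (min_le_right _ _)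
    rw [le_div_iff₀ (by positivity)] at this
    linarith
  have hθc : θ ≤ θE := by rw [hθ]; exact (min_le_right _ _).trans (min_le_left _ _)
  have hθ40 : θ ≤ 1 / 40 := by linarith
  have hθH : (1 + Cp) * (64 * H) * θ ≤ ε := by
    have : θ ≤ ε / ((1 + Cp) * (64 * H)) := by rw [hθ]; exact (min_le_right _ _).trans (min_le_right _ _)
    rw [le_div_iff₀ (by positivity)] at this
    linarith
  refine ⟨d, θ, w₀, hd0, hd1, hθ0, hθ40, hw₀, ?_⟩
  have hlog : ∀ᶠ T : ℝ in atTop, 12 * C * Real.log T ≤ ε / 32 * T ^ (39 / 40 : ℝ) := by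
    have h1 := isLittleO_log_rpow_atTop (show (0 : ℝ) < 39 / 40 by norm_num)
    have h2 := h1.bound (show 0 < ε / 32 / (12 * C) by positivity)
    filter_upwards [h2, eventually_ge_atTop (1 : ℝ)] with T h hT
    rw [Real.norm_eq_abs, Real.norm_eq_abs, abs_of_nonneg (Real.log_nonneg hT), abs_of_nonneg (by positivity)] at h
    have h3 : 12 * C * Real.log T ≤ 12 * C * (ε / 32 / (12 * C) * T ^ (39 / 40 : ℝ)) := by gcongr
    refine h3.trans (le_of_eq ?_)
    field_simp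
  have hlog2 : ∀ᶠ T : ℝ in atTop, 8 * Real.log T ≤ T := by
    have h2 := (Real.isLittleO_log_id_atTop).bound (show (0 : ℝ) < 1 / 8 by norm_num)
    filter_upwards [h2, eventually_ge_atTop (1 : ℝ)] with T h hT
    simp only [id] at h
    rw [Real.norm_eq_abs, Real.norm_eq_abs, abs_of_nonneg (Real.log_nonneg hT), abs_of_nonneg (by positivity)] at h
    linarith
  filter_upwards [hev1, hev2, hE, hlog, hlog2, eventually_ge_atTop (16 : ℝ), Real.tendsto_log_atTop.eventually_ge_atTop 2,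
    Real.tendsto_log_atTop.eventually_ge_atTop H] with T hev1 hev2 hE hlog hLT hT hL2 hLH
  intro P X N q b hN hX hq hb h1 hw
  have hT0 : 0 < T := by linarith
  have hT1 : 1 ≤ T := by linarith
  have hN3 : (N : ℝ) ≤ T ^ θE := hN.trans (Real.rpow_le_rpow_of_exponent_le hT1 hθc)
  have hM2 : ((X ^ K₀ * N : ℕ) : ℝ) ≤ T ^ θ₂ := by
    push_cast
    calc (X : ℝ) ^ K₀ * N ≤ (T ^ θ) ^ K₀ * T ^ θ := by gcongr
      _ = T ^ ((K₀ + 1) * θ) := by
          rw [← Real.rpow_natCast, ← Real.rpow_mul hT0.le, ← Real.rpow_add hT0]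
          congr 1
          ring
      _ ≤ _ := Real.rpow_le_rpow_of_exponent_le hT1 hθb
  have hNX1 : ∀ n : ℕ, n ≤ X * N → (n : ℝ) ≤ T ^ θ₁ := by
    intro n hn
    have h2 : (n : ℝ) ≤ X * N := by exact_mod_cast hn
    calc (n : ℝ) ≤ X * N := h2
      _ ≤ T ^ θ * T ^ θ := by gcongr
      _ = T ^ (θ + θ) := by rw [← Real.rpow_add hT0]
      _ ≤ _ := Real.rpow_le_rpow_of_exponent_le hT1 (by linarith)
  have hout : 12 * C * Real.log T * T ^ (1 / 40 : ℝ) ≤ ε / 32 * T := by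
    calc 12 * C * Real.log T * T ^ (1 / 40 : ℝ) ≤ ε / 32 * T ^ (39 / 40 : ℝ) * T ^ (1 / 40 : ℝ) := by gcongr
      _ = ε / 32 * (T ^ (39 / 40 : ℝ) * T ^ (1 / 40 : ℝ)) := by ring
      _ = ε / 32 * T := by
          rw [← Real.rpow_add hT0]
          norm_num
  have hW : ∀ (n : ℕ) (c : ℕ → ℂ), n ≤ X * N → (∫ t in (T + 2 * Real.log T)..(2 * T - 2 * Real.log T),
      Nw T (H / Real.log T) t * ‖dp n c t‖ ^ 2) ≤ 2 * (H / Real.pi) * (T * N2 n c) := by
    intro n c hn
    have := (abs_le.1 (hev1 n (hNX1 n hn) c).2.2).2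
    linarith
  have hN2b := N2_nn N b
  have w1 := hev2 P X N (X ^ K₀ * N) q b hM2 hq hb h1 hw le_rfl
  have hmz : ∀ s ∈ H370.Zf riemannZeta T (2 * T), (1 : ℝ) ≤ mz s := by
    intro s hs
    rw [H370.mem_Zf hF (by linarith)] at hs
    have := H370.Loc.mult_pos' hF (show 0 < s.im by linarith [hs.2.2.1]) hs.2.2.2.2
    exact_mod_cast this
  have h0 := samp_ph hD hC hcnt hθ0 hθ40 hH hCp0 hθH (by linarith) (by linarith) hLH (by linarith) hout hN hX hq hb h1 hCp hW
      (ω := wi d T)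
      (fun s _ => by unfold wi; split_ifs <;> norm_num)
      (fun s hs => by
        have := hmz s hs
        unfold wi
        split_ifs
        · exact this
        · linarith)
  -- the boundary terms
  have hrT : H / Real.log T ≤ 1 := by rw [div_le_one (by linarith)]; exact hLH
  have hr0 : 0 < H / Real.log T := by
    have : 0 < Real.log T := by linarith
    positivity
  have hdpc : Continuous (dp N b) := dp_cont hD N b
  have hVc : Continuous (fun t : ℝ => ‖dp N b t‖ ^ 2) := (hdpc.norm).pow 2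
  have hfc : Continuous (fT a b' ε X N q b) := by
    unfold fT
    exact hVc.mul ((ph_cont a b' ε).comp (continuous_const.mul (Complex.continuous_re.comp (dp_cont hD X q))))
  have bdry : ∀ Y : ℝ, |Y| ≤ 1 →
      ∫ t in (T + 2 * Real.log T)..(2 * T - 2 * Real.log T), cz (t + Y) (1 / Real.log T) (0 / Real.log T) * ‖dp N b t‖ ^ 2 ≤
        C₂ * (T * N2 N b) := by
    intro Y hY
    have h1 := hE N hN3 b Y 0 (by linarith) le_rfl
    rw [mul_zero, neg_zero, Real.exp_zero, mul_one] at h1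
    have h2 : ∫ t in (T + 2 * Real.log T)..(2 * T - 2 * Real.log T), cz (t + Y) (1 / Real.log T) (0 / Real.log T) * ‖dp N b t‖ ^ 2 ≤
        ∫ t in T..(2 * T), cz (t + Y) (1 / Real.log T) (0 / Real.log T) * ‖dp N b t‖ ^ 2 := by
      refine intervalIntegral.integral_mono_interval (by linarith) (by linarith) (by linarith)
        (Eventually.of_forall fun t => ?_) ?_
      · exact mul_nonneg (Pool.Agent.Q222.UM.cz_nonneg hZ _ _ _) (by positivity)
      · exact Pool.Agent.Q222.UM.cz_int hZ Y _ _ (by linarith) hVc (fun s => by positivity)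
    linarith
  have hb1 := bdry (H / Real.log T) (by rw [abs_of_pos hr0]; exact hrT)
  have hb2 := bdry (-(H / Real.log T)) (by rw [abs_neg, abs_of_pos hr0]; exact hrT)
  have iS : IntervalIntegrable (fun t => (∑ s ∈ (ZT T).filter (fun s => |s.im - t| ≤ H / Real.log T), wi d T s) *
      fT a b' ε X N q b t) volume (T + 2 * Real.log T) (2 * T - 2 * Real.log T) := ii_ws T _ (wi d T) hfc _ _
  have iN : IntervalIntegrable (fun t => Niw d T (H / Real.log T) t * Set.indicator (SQ X q a b') (fun t => ‖dp N b t‖ ^ 2) t)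
      volume (T + 2 * Real.log T) (2 * T - 2 * Real.log T) := by
    obtain ⟨mS, B2, bS⟩ := Niw_meas d T (H / Real.log T)
    exact ii_ind (SQ_meas hD X q a b') (ii_mul mS bS hVc _ _)
  have ic1 := Pool.Agent.Q222.UM.cz_int hZ (H / Real.log T) (1 / Real.log T) (0 / Real.log T)
    (show T + 2 * Real.log T ≤ 2 * T - 2 * Real.log T by linarith) hVc (fun s => by positivity)
  have ic2 := Pool.Agent.Q222.UM.cz_int hZ (-(H / Real.log T)) (1 / Real.log T) (0 / Real.log T)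
    (show T + 2 * Real.log T ≤ 2 * T - 2 * Real.log T by linarith) hVc (fun s => by positivity)
  have hint : ∫ t in (T + 2 * Real.log T)..(2 * T - 2 * Real.log T), Niw d T (H / Real.log T) t *
      Set.indicator (SQ X q a b') (fun t => ‖dp N b t‖ ^ 2) t ≤
      (∫ t in (T + 2 * Real.log T)..(2 * T - 2 * Real.log T),
        (∑ s ∈ (ZT T).filter (fun s => |s.im - t| ≤ H / Real.log T), wi d T s) * fT a b' ε X N q b t) +
      ((∫ t in (T + 2 * Real.log T)..(2 * T - 2 * Real.log T),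
          cz (t + H / Real.log T) (1 / Real.log T) (0 / Real.log T) * ‖dp N b t‖ ^ 2) +
        ∫ t in (T + 2 * Real.log T)..(2 * T - 2 * Real.log T),
          cz (t + -(H / Real.log T)) (1 / Real.log T) (0 / Real.log T) * ‖dp N b t‖ ^ 2) := by
    rw [← intervalIntegral.integral_add ic1 ic2, ← intervalIntegral.integral_add iS (ic1.add ic2)]
    refine intervalIntegral.integral_mono_on (by linarith) iN (iS.add (ic1.add ic2)) fun t ht => ?_
    have h1 := Niw_le (d := d) (T := T) (H := H) (t := t) (by linarith) hL2 hH hLH hd1 ht.1 ht.2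
    have hf0 : 0 ≤ fT a b' ε X N q b t := mul_nonneg (by positivity) (ph_nn _ _ _ _)
    have hf1 : fT a b' ε X N q b t ≤ ‖dp N b t‖ ^ 2 := by
      unfold fT
      exact mul_le_of_le_one_right (by positivity) (ph_le _ _ _ _)
    have hind : Set.indicator (SQ X q a b') (fun t => ‖dp N b t‖ ^ 2) t ≤ fT a b' ε X N q b t := by
      by_cases h2 : t ∈ SQ X q a b'
      · rw [Set.indicator_of_mem h2]
        unfold fT
        rw [ph_one hε h2.1.le h2.2.le, mul_one]
      · rw [Set.indicator_of_notMem h2]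
        exact hf0
    have hNi0 : 0 ≤ Niw d T (H / Real.log T) t := by
      unfold Niw
      exact Nat.cast_nonneg _
    have hcz1 := Pool.Agent.Q222.UM.cz_nonneg hZ (t + H / Real.log T) (1 / Real.log T) (0 / Real.log T)
    have hcz2 := Pool.Agent.Q222.UM.cz_nonneg hZ (t + -(H / Real.log T)) (1 / Real.log T) (0 / Real.log T)
    calc Niw d T (H / Real.log T) t * Set.indicator (SQ X q a b') (fun t => ‖dp N b t‖ ^ 2) t ≤
          Niw d T (H / Real.log T) t * fT a b' ε X N q b t := mul_le_mul_of_nonneg_left hind hNi0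
      _ ≤ (∑ s ∈ (ZT T).filter (fun s => |s.im - t| ≤ H / Real.log T), wi d T s +
          (cz (t + H / Real.log T) (1 / Real.log T) (0 / Real.log T) +
            cz (t + -(H / Real.log T)) (1 / Real.log T) (0 / Real.log T))) * fT a b' ε X N q b t :=
          mul_le_mul_of_nonneg_right h1 hf0
      _ = (∑ s ∈ (ZT T).filter (fun s => |s.im - t| ≤ H / Real.log T), wi d T s) * fT a b' ε X N q b t +
          (cz (t + H / Real.log T) (1 / Real.log T) (0 / Real.log T) * fT a b' ε X N q b t +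
            cz (t + -(H / Real.log T)) (1 / Real.log T) (0 / Real.log T) * fT a b' ε X N q b t) := by ring
      _ ≤ _ := by gcongr
  rw [sum_ZI d T (fun x => fT a b' ε X N q b x)] at h0
  have e0 : ((2 - H370.cMTinv) * (gaussianReal 0 1).real (Set.Ioo a b') - ε / 4) * (H / Real.pi) * (T * N2 N b) =
      (2 - (2 - (2 - H370.cMTinv) * (gaussianReal 0 1).real (Set.Ioo a b')) - ε / 4) * (H / Real.pi) * (T * N2 N b) := by ring
  rw [e0] at w1
  have hfin := fin_ar hε hH (by linarith) (by positivity) hC₂ hHc h0 w1 hint hb1 hb2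
  have e1 : (2 - (2 - (2 - H370.cMTinv) * (gaussianReal 0 1).real (Set.Ioo a b')) - ε) * (Real.log T / (2 * Real.pi)) *
      (T * N2 N b) = ((2 - H370.cMTinv) * (gaussianReal 0 1).real (Set.Ioo a b') - ε) * (Real.log T / (2 * Real.pi)) *
      (T * N2 N b) := by ring
  rw [e1] at hfin
  refine hfin.trans ?_
  rw [Finset.sum_filter]
  refine Finset.sum_le_sum fun s _ => ?_
  split_ifs with h2
  · unfold fT
    exact mul_le_of_le_one_right (by positivity) (ph_le _ _ _ _)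
  · unfold fT
    rw [ph_zero hε, mul_zero]
    by_contra h3
    rw [not_or, not_le, not_le] at h3
    exact h2 ⟨h3.1, h3.2⟩

end

end Run7.h311.LW
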