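import Pool.Agent.Q97.UM.Base8
import Pool.Agent.H370R2.RightZeros
import Pool.Agent.Run7.h311.LW.Nrm
import Pool.Agent.Run7.h311.LW.Zer

set_option autoImplicit false

/-! The law of the derivative at the isolated zeros, relative to every Dirichlet polynomial on small primes. -/

namespace Run7.h311.LW

open Filter Topology MeasureTheory Complex ProbabilityTheory
open Pool.Agent.Q97.UM Pool.Agent.Q14.UM Pool.Agent.Q98.UM

noncomputable section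

/-- half the sum of `1 / p` over the primes `p` in `(P, T]` -/
def vz (P : ℕ) (T : ℝ) : ℝ := (1 / 2) * ∑ p ∈ bigP P ⌊T⌋₊, (1 : ℝ) / p

/-- the logarithm of the derivative without the primes `≤ P` -/
def AA (P : ℕ) (T : ℝ) (s : ℂ) : ℝ := Real.log ‖deriv riemannZeta s‖ - Real.log (Real.log T) - EP P s.im

theorem bigP_split {f : ℕ → ℝ} (hf : ∀ n, 0 ≤ f n) (P X M : ℕ) :
    ∑ p ∈ bigP P M, f p ≤ ∑ p ∈ bigP P X, f p + ∑ p ∈ bigP X M, f p := by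
  rw [← Finset.sum_union_inter]
  have h1 : bigP P M ⊆ bigP P X ∪ bigP X M := by
    intro p hp
    obtain ⟨a1, a2, a3⟩ := mem_bP.1 hp
    rw [Finset.mem_union, mem_bP, mem_bP]
    rcases Nat.lt_or_ge X p with h | h
    · exact Or.inr ⟨a1, h, a3⟩
    · exact Or.inl ⟨a1, a2, h⟩
  have h2 := Finset.sum_le_sum_of_subset_of_nonneg h1 (fun n _ _ => hf n)
  have h3 : 0 ≤ ∑ p ∈ bigP P X ∩ bigP X M, f p := Finset.sum_nonneg fun n _ => hf n
  linarith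

theorem bigP_mono {f : ℕ → ℝ} (hf : ∀ n, 0 ≤ f n) (P : ℕ) {X M : ℕ} (h : X ≤ M) :
    ∑ p ∈ bigP P X, f p ≤ ∑ p ∈ bigP P M, f p := by
  apply Finset.sum_le_sum_of_subset_of_nonneg
  · intro p hp
    obtain ⟨a1, a2, a3⟩ := mem_bP.1 hp
    exact mem_bP.2 ⟨a1, a2, a3.trans h⟩
  · exact fun n _ _ => hf n

/-- sums over the isolated zeros -/
theorem zi_bd {θ T d : ℝ} (hT : 16 ≤ T) (hS : ∀ N : ℕ, (N : ℝ) ≤ T ^ θ → ∀ b : ℕ → ℂ,
      |(∑ s ∈ H370.Zf riemannZeta T (2 * T), (mz s : ℝ) * ‖dp N b s.im‖ ^ 2) - Real.log T / (2 * Real.pi) * (T * N2 N b)| ≤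
      1 * Real.log T * (T * N2 N b)) {N : ℕ} (hN : (N : ℝ) ≤ T ^ θ) (b : ℕ → ℂ) :
    ∑ s ∈ ZI d T, ‖dp N b s.im‖ ^ 2 ≤ 2 * Real.log T * (T * N2 N b) := by
  classical
  have hF := H370.good_zeta
  have hsub : ZI d T ⊆ H370.Zf riemannZeta T (2 * T) := by
    unfold ZI
    exact Finset.filter_subset _ _
  have h1 : ∑ s ∈ ZI d T, ‖dp N b s.im‖ ^ 2 ≤ ∑ s ∈ H370.Zf riemannZeta T (2 * T), (mz s : ℝ) * ‖dp N b s.im‖ ^ 2 := by
    refine le_trans (Finset.sum_le_sum_of_subset_of_nonneg hsub fun s _ _ => by positivity) ?_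
    refine Finset.sum_le_sum fun s hs => ?_
    rw [H370.mem_Zf hF (by linarith)] at hs
    have h2 : 1 ≤ mz s := H370.Loc.mult_pos' hF (show 0 < s.im by linarith [hs.2.2.1]) hs.2.2.2.2
    have h3 : (1 : ℝ) ≤ mz s := by exact_mod_cast h2
    have h4 : 0 ≤ ‖dp N b s.im‖ ^ 2 := by positivity
    nlinarith
  have h2 := (abs_le.1 (hS N hN b)).2
  have h3 : Real.log T / (2 * Real.pi) * (T * N2 N b) ≤ Real.log T * (T * N2 N b) := by
    have hL : 0 ≤ Real.log T := Real.log_nonneg (by linarith)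
    have h4 : 0 ≤ T * N2 N b := mul_nonneg (by linarith) (N2_nn N b)
    refine mul_le_mul_of_nonneg_right (div_le_self hL ?_) h4
    have := Real.pi_gt_three
    linarith
  linarith

theorem ap_one (n : ℕ) : ap (fun _ : Fin 1 => (1 : ℝ)) (fun _ => (0 : ℝ)) n = 1 := by
  unfold ap
  simp

open Classical in
/-- **the law of the derivative at the isolated zeros, relative to every Dirichlet polynomial on small primes** -/
theorem zfin {a b' ε : ℝ} (hab : a < b') (hε : 0 < ε) : ∃ d δ V₀ : ℝ, 0 < d ∧ d ≤ 1 ∧ 0 < δ ∧ 0 < V₀ ∧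
    ∀ᶠ T : ℝ in atTop, ∀ (P N : ℕ) (b : ℕ → ℂ), (N : ℝ) ≤ T ^ δ → Bs P N b → V₀ ≤ vz P T →
      ((2 - H370.cMTinv) * gm a b' - ε) * (Real.log T / (2 * Real.pi)) * (T * N2 N b) ≤
        ∑ s ∈ (ZI d T).filter (fun s => a < AA P T s / Real.sqrt (vz P T) ∧ AA P T s / Real.sqrt (vz P T) < b'),
          ‖dp N b s.im‖ ^ 2 := by
  have hD := Pool.Agent.Q84.UM.t_DPM
  obtain ⟨σ, hσ, hσab, hσg⟩ := gm_shrink hab (by positivity : 0 < ε / 4)
  obtain ⟨ε₃, hε₃⟩ : ∃ ε₃, ε₃ = min (ε / 4) (σ / 2) := ⟨_, rfl⟩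
  have hε₃0 : 0 < ε₃ := by rw [hε₃]; positivity
  have hε₃a : ε₃ ≤ ε / 4 := by rw [hε₃]; exact min_le_left _ _
  have hε₃b : ε₃ ≤ σ / 2 := by rw [hε₃]; exact min_le_right _ _
  obtain ⟨d, θz, w₀, hd0, hd1, hθz0, hθz1, hw₀, hz⟩ := zlaw hσab hε₃0
  obtain ⟨θD, δ₀, hθD, hδ₀, hTHD⟩ := b_THD 1
  obtain ⟨θS, hθS0, hθS1, hSAMP⟩ := b_SAMP 1 one_pos
  obtain ⟨δ, hδ⟩ : ∃ δ, δ = min (min θz θD) (min δ₀ (θS / 3)) := ⟨_, rfl⟩
  have hδ0 : 0 < δ := by rw [hδ]; positivity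
  have hδz : δ ≤ θz := by rw [hδ]; exact (min_le_left _ _).trans (min_le_left _ _)
  have hδD : δ ≤ θD := by rw [hδ]; exact (min_le_left _ _).trans (min_le_right _ _)
  have hδ1 : δ ≤ δ₀ := by rw [hδ]; exact (min_le_right _ _).trans (min_le_left _ _)
  have hδS : δ ≤ θS / 3 := by rw [hδ]; exact (min_le_right _ _).trans (min_le_right _ _)
  obtain ⟨C, hC, hT⟩ := hTHD δ d hδ0 hδ1 hd0
  obtain ⟨C₀, hC₀⟩ : ∃ C₀, C₀ = 4 / δ := ⟨_, rfl⟩
  have hC₀0 : 0 < C₀ := by rw [hC₀]; positivity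
  have hS3 := S3_nonneg
  obtain ⟨C₇, hC₇⟩ : ∃ C₇, C₇ = C + 3 + 8 * S3 + 4 * C₀ := ⟨_, rfl⟩
  have hC₇0 : 0 < C₇ := by rw [hC₇]; positivity
  obtain ⟨η, hη⟩ : ∃ η, η = σ / 2 := ⟨_, rfl⟩
  have hη0 : 0 < η := by rw [hη]; positivity
  obtain ⟨R, hR⟩ : ∃ R, R = 8 * Real.pi * C₇ / (η * ε) := ⟨_, rfl⟩
  have hR0 : 0 < R := by rw [hR]; positivity
  refine ⟨d, δ, R ^ 2 + C₀ + 1 + 1 / w₀, hd0, hd1, hδ0, by positivity, ?_⟩
  filter_upwards [hz, hT, hSAMP, tail_bd hδ0, eventually_ge_atTop (16 : ℝ)] with T hz hT hSAMP htail hT16 P N b hN hb hV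
  have hT0 : 0 < T := by linarith
  have hT1 : 1 ≤ T := by linarith
  have hL0 : 0 < Real.log T := Real.log_pos (by linarith)
  have hmono : ∀ {x y : ℝ}, x ≤ y → T ^ x ≤ T ^ y := fun h => Real.rpow_le_rpow_of_exponent_le hT1 h
  obtain ⟨X, hX⟩ : ∃ X, X = ⌊T ^ δ⌋₊ := ⟨_, rfl⟩
  have hXle : (X : ℝ) ≤ T ^ δ := by rw [hX]; exact Nat.floor_le (by positivity)
  rw [← hX] at hT htail
  obtain ⟨ac, hac⟩ : ∃ ac : ℕ → ℂ, ac = ap (fun _ : Fin 1 => (1 : ℝ)) (fun _ => (0 : ℝ)) := ⟨_, rfl⟩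
  have hac1 : ∀ n, ‖ac n‖ ≤ 1 := by
    intro n
    rw [hac, ap_one, norm_one]
  obtain ⟨W, hW⟩ : ∃ W, W = N2 X (uu P X ac) := ⟨_, rfl⟩
  have hWs : W = ∑ p ∈ bigP P X, (1 : ℝ) / p := by
    rw [hW, uu_N2]
    refine Finset.sum_congr rfl fun p _ => ?_
    rw [hac, ap_one, norm_one, one_pow]
  have hinv : ∀ n : ℕ, (0 : ℝ) ≤ 1 / n := fun n => by positivity
  have hXT : X ≤ ⌊T⌋₊ := by
    rw [hX]
    apply Nat.floor_mono
    calc T ^ δ ≤ T ^ (1 : ℝ) := hmono (by linarith)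
      _ = T := Real.rpow_one T
  have h2v : 2 * vz P T ≤ W + C₀ := by
    have h1 := bigP_split hinv P X ⌊T⌋₊
    unfold vz
    rw [hWs, hC₀]
    linarith
  have hWv : W ≤ 2 * vz P T := by
    have h1 := bigP_mono hinv P hXT
    unfold vz
    rw [hWs]
    linarith
  have hw0' : 0 < 1 / w₀ := by positivity
  have hW1 : 1 + 1 / w₀ ≤ W := by nlinarith [sq_nonneg R]
  have hWone : 1 ≤ W := by linarith
  have hWpos : 0 < W := by linarith
  have hPX : P ≤ X := by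
    by_contra h
    have : bigP P X = ∅ := by
      rw [Finset.eq_empty_iff_forall_notMem]
      intro p hp
      obtain ⟨a1, a2, a3⟩ := mem_bP.1 hp
      omega
    rw [this, Finset.sum_empty] at hWs
    linarith
  have hWpos' : 0 < N2 X (uu P X ac) := by rw [← hW]; exact hWpos
  have hqs := qn_qs P X ac
  have hq1 := qn_N2 hWpos'
  have hqw : ∀ p, ‖qn P X ac p‖ ^ 2 / (p : ℝ) ≤ w₀ := by
    apply qn_w hac1 hWpos'
    rw [← hW, one_pow]
    have : w₀ * (1 / w₀) = 1 := by field_simp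
    nlinarith
  have hmain := hz P X N (qn P X ac) b (hN.trans (hmono hδz)) (hXle.trans (hmono hδz)) hqs hb hq1 hqw
  have hNb := N2_nn N b
  obtain ⟨S, hS⟩ : ∃ S, S = Real.log T * (T * N2 N b) := ⟨_, rfl⟩
  have hS0 : 0 ≤ S := by rw [hS]; positivity
  -- the four sums
  have z := fun (n : ℕ) (hn : (n : ℝ) ≤ T ^ θS) (c : ℕ → ℂ) => zi_bd (d := d) hT16 (fun N hN b => (hSAMP N hN b).2.2) hn c
  have zB : ∑ s ∈ ZI d T, ‖dp N b s.im‖ ^ 2 ≤ 2 * S := by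
    refine (z N (hN.trans (hmono (by linarith))) b).trans (le_of_eq ?_)
    rw [hS]; ring
  have zE : ∑ s ∈ ZI d T, |Real.log ‖deriv riemannZeta s‖ - Real.log (Real.log T) - EP X s.im| * ‖dp N b s.im‖ ^ 2 ≤
      C * S := by
    have h1 := (hT N (hN.trans (hmono hδD)) b).1
    simp only [pow_one] at h1
    refine h1.trans (le_of_eq ?_)
    rw [hS]; ring
  have zG : ∑ s ∈ ZI d T, ‖dp (X ^ 2) (u2 P X (ap (fun _ : Fin 1 => (1 : ℝ)) fun _ => 2 * (0 : ℝ))) s.im‖ ^ 2 *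
      ‖dp N b s.im‖ ^ 2 ≤ S := by
    obtain ⟨a2, ha2⟩ : ∃ a2 : ℕ → ℂ, a2 = ap (fun _ : Fin 1 => (1 : ℝ)) fun _ => 2 * (0 : ℝ) := ⟨_, rfl⟩
    rw [← ha2]
    have ha21 : ∀ n, ‖a2 n‖ ≤ 1 := by
      intro n
      rw [ha2, mul_zero, ap_one, norm_one]
    have e1 : ∀ t : ℝ, ‖dp (X ^ 2) (u2 P X a2) t‖ ^ 2 * ‖dp N b t‖ ^ 2 = ‖dp (X ^ 2 * N) (cv (u2 P X a2) b) t‖ ^ 2 := by
      intro t
      rw [← hD.1 (X ^ 2) N _ b t (u2_len P X a2) hb.len, norm_mul, mul_pow]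
    simp_rw [e1]
    have hlen : ((X ^ 2 * N : ℕ) : ℝ) ≤ T ^ θS := by
      push_cast
      calc (X : ℝ) ^ 2 * N ≤ (T ^ δ) ^ 2 * T ^ δ := by gcongr
        _ = T ^ (3 * δ) := by
            rw [← Real.rpow_natCast, ← Real.rpow_mul hT0.le, ← Real.rpow_add hT0]
            congr 1
            push_cast
            ring
        _ ≤ _ := hmono (by linarith)
    have h1 := z _ hlen (cv (u2 P X a2) b)
    have h2 := N2_cv_le (u2 P X a2) b (fun p => P < p) (u2_sp P X a2) hb.sp (X ^ 2) N (X ^ 2 * N) (u2_len P X a2) hb.len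
    have h3 := u2_N2 P X ha21
    have h4 : N2 (X ^ 2 * N) (cv (u2 P X a2) b) ≤ 1 / 2 * N2 N b := by
      refine h2.trans (mul_le_mul_of_nonneg_right (h3.trans (le_of_eq (by norm_num))) hNb)
    refine h1.trans ?_
    rw [hS]
    calc 2 * Real.log T * (T * N2 (X ^ 2 * N) (cv (u2 P X a2) b)) ≤ 2 * Real.log T * (T * (1 / 2 * N2 N b)) := by gcongr
      _ = _ := by ring
  have zQ : ∑ s ∈ ZI d T, ‖dp X (qn P X ac) s.im‖ ^ 2 * ‖dp N b s.im‖ ^ 2 ≤ 2 * S := by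
    have e1 : ∀ t : ℝ, ‖dp X (qn P X ac) t‖ ^ 2 * ‖dp N b t‖ ^ 2 = ‖dp (X * N) (cv (qn P X ac) b) t‖ ^ 2 := by
      intro t
      rw [← hD.1 X N _ b t hqs.len hb.len, norm_mul, mul_pow]
    simp_rw [e1]
    have hlen : ((X * N : ℕ) : ℝ) ≤ T ^ θS := by
      push_cast
      calc (X : ℝ) * N ≤ T ^ δ * T ^ δ := by gcongr
        _ = T ^ (δ + δ) := by rw [← Real.rpow_add hT0]
        _ ≤ _ := hmono (by linarith)
    have h1 := z _ hlen (cv (qn P X ac) b)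
    have h2 := N2_cv_le (qn P X ac) b (fun p => P < p) hqs.sp hb.sp X N (X * N) hqs.len hb.len
    rw [hq1, one_mul] at h2
    refine h1.trans ?_
    rw [hS]
    calc 2 * Real.log T * (T * N2 (X * N) (cv (qn P X ac) b)) ≤ 2 * Real.log T * (T * N2 N b) := by gcongr
      _ = _ := by ring
  -- pointwise
  obtain ⟨v, hv⟩ : ∃ v, v = vz P T := ⟨_, rfl⟩
  rw [← hv] at hV h2v hWv ⊢
  have hRv : R ^ 2 ≤ v := by linarith
  have hv0 : 0 < v := by nlinarith [sq_nonneg R]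
  have hsv : 0 < Real.sqrt v := Real.sqrt_pos.2 hv0
  have hRs : R ≤ Real.sqrt v := Real.le_sqrt_of_sq_le hRv
  obtain ⟨E, hE⟩ : ∃ E : ℂ → ℝ, E = fun s => |Real.log ‖deriv riemannZeta s‖ - Real.log (Real.log T) - EP X s.im| +
    ‖dp (X ^ 2) (u2 P X (ap (fun _ : Fin 1 => (1 : ℝ)) fun _ => 2 * (0 : ℝ))) s.im‖ + 4 * S3 := ⟨_, rfl⟩
  have hAE : ∀ s : ℂ, |AA P T s - (dp X (uu P X ac) s.im).re| ≤ E s := by
    intro s
    have h1 := EP_lin (fun _ : Fin 1 => (1 : ℝ)) (fun _ => (0 : ℝ)) (A := 1) (by simp) hPX s.im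
    simp only [Finset.univ_unique, Fin.default_eq_zero, Fin.isValue, add_zero, one_mul, Finset.sum_const,
      Finset.card_singleton, one_smul] at h1
    rw [← hac] at h1
    have h2 := Complex.abs_re_le_norm (dp (X ^ 2) (u2 P X (ap (fun _ : Fin 1 => (1 : ℝ)) fun _ => 2 * (0 : ℝ))) s.im)
    have e1 : AA P T s - (dp X (uu P X ac) s.im).re =
        (Real.log ‖deriv riemannZeta s‖ - Real.log (Real.log T) - EP X s.im) +
        ((EP X s.im - EP P s.im) - (dp X (uu P X ac) s.im).re -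
          (dp (X ^ 2) (u2 P X (ap (fun _ : Fin 1 => (1 : ℝ)) fun _ => 2 * (0 : ℝ))) s.im).re) +
        (dp (X ^ 2) (u2 P X (ap (fun _ : Fin 1 => (1 : ℝ)) fun _ => 2 * (0 : ℝ))) s.im).re := by
      unfold AA
      ring
    rw [e1, hE]
    refine (abs_add_le _ _).trans ?_
    have h3 := abs_add_le (Real.log ‖deriv riemannZeta s‖ - Real.log (Real.log T) - EP X s.im)
        ((EP X s.im - EP P s.im) - (dp X (uu P X ac) s.im).re -
          (dp (X ^ 2) (u2 P X (ap (fun _ : Fin 1 => (1 : ℝ)) fun _ => 2 * (0 : ℝ))) s.im).re)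
    linarith
  have hpt : ∀ s ∈ ZI d T, (if s.im ∈ SQ X (qn P X ac) (a + σ - ε₃) (b' - σ + ε₃) then ‖dp N b s.im‖ ^ 2 else 0) ≤
      (if a < AA P T s / Real.sqrt v ∧ AA P T s / Real.sqrt v < b' then ‖dp N b s.im‖ ^ 2 else 0) +
      (E s + C₀ * ‖dp X (qn P X ac) s.im‖) / (η * Real.sqrt v) * ‖dp N b s.im‖ ^ 2 := by
    intro s _
    have hE0 : 0 ≤ E s := (abs_nonneg _).trans (hAE s)
    have hB0 : 0 ≤ ‖dp N b s.im‖ ^ 2 := by positivity
    have hx0 : 0 ≤ (E s + C₀ * ‖dp X (qn P X ac) s.im‖) / (η * Real.sqrt v) := by positivity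
    have hx1 : 0 ≤ (E s + C₀ * ‖dp X (qn P X ac) s.im‖) / (η * Real.sqrt v) * ‖dp N b s.im‖ ^ 2 := mul_nonneg hx0 hB0
    by_cases h1 : s.im ∈ SQ X (qn P X ac) (a + σ - ε₃) (b' - σ + ε₃)
    · rw [if_pos h1]
      by_cases h2 : a < AA P T s / Real.sqrt v ∧ AA P T s / Real.sqrt v < b'
      · rw [if_pos h2]
        linarith
      · rw [if_neg h2, zero_add]
        have h3 := dev_bd (a' := a) (b' := b') hη0 (by rw [← hW]; exact hWone) (by rw [← hW]; exact hWv) (hAE s)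
          (by rw [← hW]; linarith : 2 * v - N2 X (uu P X ac) ≤ C₀) (by
            have := h1.1
            rw [hη]
            linarith) (by
            have := h1.2
            rw [hη]
            linarith) h2
        have h4 : 1 ≤ (E s + C₀ * ‖dp X (qn P X ac) s.im‖) / (η * Real.sqrt v) := by
          rw [le_div_iff₀ (by positivity)]
          linarith
        nlinarith
    · rw [if_neg h1]
      refine add_nonneg ?_ hx1
      split_ifs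
      · exact hB0
      · exact le_rfl
  rw [Finset.sum_filter] at hmain ⊢
  have h1 := hmain.trans (Finset.sum_le_sum hpt)
  rw [Finset.sum_add_distrib] at h1
  obtain ⟨Q, hQ⟩ : ∃ Q, Q = ∑ s ∈ ZI d T, (if a < AA P T s / Real.sqrt v ∧ AA P T s / Real.sqrt v < b' then
    ‖dp N b s.im‖ ^ 2 else 0) := ⟨_, rfl⟩
  rw [← hQ] at h1 ⊢
  have h2 : ∑ s ∈ ZI d T, (E s + C₀ * ‖dp X (qn P X ac) s.im‖) / (η * Real.sqrt v) * ‖dp N b s.im‖ ^ 2 ≤
      C₇ * S / (η * Real.sqrt v) := by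
    have e1 : ∑ s ∈ ZI d T, (E s + C₀ * ‖dp X (qn P X ac) s.im‖) / (η * Real.sqrt v) * ‖dp N b s.im‖ ^ 2 =
        (∑ s ∈ ZI d T, (E s + C₀ * ‖dp X (qn P X ac) s.im‖) * ‖dp N b s.im‖ ^ 2) / (η * Real.sqrt v) := by
      rw [Finset.sum_div]
      refine Finset.sum_congr rfl fun s _ => ?_
      ring
    rw [e1]
    refine div_le_div_of_nonneg_right ?_ (by positivity)
    have h3 : ∀ s ∈ ZI d T, (E s + C₀ * ‖dp X (qn P X ac) s.im‖) * ‖dp N b s.im‖ ^ 2 ≤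
        |Real.log ‖deriv riemannZeta s‖ - Real.log (Real.log T) - EP X s.im| * ‖dp N b s.im‖ ^ 2 +
        ‖dp (X ^ 2) (u2 P X (ap (fun _ : Fin 1 => (1 : ℝ)) fun _ => 2 * (0 : ℝ))) s.im‖ ^ 2 * ‖dp N b s.im‖ ^ 2 +
        (1 + 4 * S3 + C₀) * ‖dp N b s.im‖ ^ 2 + C₀ * (‖dp X (qn P X ac) s.im‖ ^ 2 * ‖dp N b s.im‖ ^ 2) := by
      intro s _
      have hB0 : 0 ≤ ‖dp N b s.im‖ ^ 2 := by positivity
      obtain ⟨g, hg⟩ : ∃ g, g = ‖dp (X ^ 2) (u2 P X (ap (fun _ : Fin 1 => (1 : ℝ)) fun _ => 2 * (0 : ℝ))) s.im‖ := ⟨_, rfl⟩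
      obtain ⟨x, hx⟩ : ∃ x, x = ‖dp X (qn P X ac) s.im‖ := ⟨_, rfl⟩
      rw [hE]
      simp only
      rw [← hg, ← hx]
      have h4 : g ≤ 1 + g ^ 2 := by nlinarith [sq_nonneg (g - 1 / 2)]
      have h5 : x ≤ 1 + x ^ 2 := by nlinarith [sq_nonneg (x - 1 / 2)]
      have h6 : C₀ * x ≤ C₀ * (1 + x ^ 2) := mul_le_mul_of_nonneg_left h5 hC₀0.le
      have h7 : |Real.log ‖deriv riemannZeta s‖ - Real.log (Real.log T) - EP X s.im| + g + 4 * S3 + C₀ * x ≤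
          |Real.log ‖deriv riemannZeta s‖ - Real.log (Real.log T) - EP X s.im| + g ^ 2 + (1 + 4 * S3 + C₀) + C₀ * x ^ 2 := by
        linarith
      have h8 := mul_le_mul_of_nonneg_right h7 hB0
      refine h8.trans (le_of_eq ?_)
      ring
    refine (Finset.sum_le_sum h3).trans ?_
    rw [Finset.sum_add_distrib, Finset.sum_add_distrib, Finset.sum_add_distrib, ← Finset.mul_sum, ← Finset.mul_sum]
    have h4 : (1 + 4 * S3 + C₀) * ∑ s ∈ ZI d T, ‖dp N b s.im‖ ^ 2 ≤ (1 + 4 * S3 + C₀) * (2 * S) :=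
      mul_le_mul_of_nonneg_left zB (by positivity)
    have h5 : C₀ * ∑ s ∈ ZI d T, ‖dp X (qn P X ac) s.im‖ ^ 2 * ‖dp N b s.im‖ ^ 2 ≤ C₀ * (2 * S) :=
      mul_le_mul_of_nonneg_left zQ hC₀0.le
    have e2 : C₇ * S = C * S + S + (1 + 4 * S3 + C₀) * (2 * S) + C₀ * (2 * S) := by rw [hC₇]; ring
    rw [e2]
    linarith
  have h3 : C₇ * S / (η * Real.sqrt v) ≤ ε / 4 * (Real.log T / (2 * Real.pi)) * (T * N2 N b) := by
    have e1 : ε / 4 * (Real.log T / (2 * Real.pi)) * (T * N2 N b) = ε / (8 * Real.pi) * S := by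
      rw [hS]
      ring
    rw [e1, mul_div_right_comm]
    refine mul_le_mul_of_nonneg_right ?_ hS0
    rw [div_le_div_iff₀ (by positivity) (by positivity)]
    have h4 : R * (η * ε) = 8 * Real.pi * C₇ := by rw [hR]; field_simp
    have h5 : R * (η * ε) ≤ Real.sqrt v * (η * ε) := mul_le_mul_of_nonneg_right hRs (by positivity)
    linarith
  have hcM1 : 1 < H370.cMTinv := H370.cMTinv_gt_one
  have hcM2 : H370.cMTinv < 3 / 2 := H370.cMTinv_lt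
  have h4 : ((2 - H370.cMTinv) * gm a b' - ε) * (Real.log T / (2 * Real.pi)) * (T * N2 N b) ≤
      ((2 - H370.cMTinv) * (gaussianReal 0 1).real (Set.Ioo (a + σ) (b' - σ)) - ε₃) * (Real.log T / (2 * Real.pi)) *
        (T * N2 N b) - ε / 4 * (Real.log T / (2 * Real.pi)) * (T * N2 N b) := by
    have e1 : ((2 - H370.cMTinv) * (gaussianReal 0 1).real (Set.Ioo (a + σ) (b' - σ)) - ε₃) * (Real.log T / (2 * Real.pi)) *
        (T * N2 N b) - ε / 4 * (Real.log T / (2 * Real.pi)) * (T * N2 N b) =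
        ((2 - H370.cMTinv) * gm (a + σ) (b' - σ) - ε₃ - ε / 4) * (Real.log T / (2 * Real.pi)) * (T * N2 N b) := by
      unfold gm
      ring
    rw [e1]
    have h5 : (2 - H370.cMTinv) * (gm a b' - ε / 4) ≤ (2 - H370.cMTinv) * gm (a + σ) (b' - σ) :=
      mul_le_mul_of_nonneg_left hσg (by linarith)
    have h6 : (2 - H370.cMTinv) * gm a b' - ε ≤ (2 - H370.cMTinv) * gm (a + σ) (b' - σ) - ε₃ - ε / 4 := by nlinarith
    have h7 : 0 ≤ Real.log T / (2 * Real.pi) := by positivity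
    have h8 : 0 ≤ T * N2 N b := by positivity
    exact mul_le_mul_of_nonneg_right (mul_le_mul_of_nonneg_right h6 h7) h8
  linarith

end

end Run7.h311.LW
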