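import Pool.Agent.Q47.UM10.PPL
import Pool.Agent.Q47.UM10.KR2
import Pool.Agent.Erdos456.Mertens
import Pool.Agent.Run7.h311.LW.ZFin

set_option autoImplicit false

/-! Kronecker's theorem at isolated zeros with a typical derivative (after `Q47/UM10/KR2.lean`). -/

namespace Run7.h311.LW

open Filter Topology MeasureTheory Complex
open Pool.Agent.Q97.UM Pool.Agent.Q14.UM Pool.Agent.Q98.UM

noncomputable section

/-- the variance is large if `P` is a small power of `T` -/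
theorem vz_ge (V₀ : ℝ) : ∃ δ : ℝ, 0 < δ ∧ δ ≤ 1 ∧ ∀ᶠ T : ℝ in atTop, ∀ P : ℕ, (P : ℝ) ≤ T ^ δ → V₀ ≤ vz P T := by
  obtain ⟨C, hC⟩ := Pool.Agent.Erdos456.Mert.mertens_inv
  have hC0 : 0 ≤ C := (abs_nonneg _).trans (hC 3 le_rfl)
  obtain ⟨δ, hδ⟩ : ∃ δ, δ = Real.exp (-(2 * |V₀| + 2 * C + 1)) := ⟨_, rfl⟩
  have hδ0 : 0 < δ := by rw [hδ]; exact Real.exp_pos _
  have hδ1 : δ ≤ 1 := by
    rw [hδ]
    apply Real.exp_le_one_iff.2
    have := abs_nonneg V₀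
    linarith
  refine ⟨δ, hδ0, hδ1, ?_⟩
  have h3 : ∀ᶠ T : ℝ in atTop, (3 : ℝ) ≤ T ^ δ := (tendsto_rpow_atTop hδ0).eventually_ge_atTop 3
  filter_upwards [h3, eventually_ge_atTop (16 : ℝ)] with T h3 hT P hP
  have hT0 : 0 < T := by linarith
  have hL : 2 ≤ Real.log T := by
    have h5 : Real.log 16 ≤ Real.log T := Real.log_le_log (by norm_num) hT
    have h6 : Real.log 16 = 4 * Real.log 2 := by
      rw [show (16 : ℝ) = 2 ^ 4 by norm_num, Real.log_pow]; norm_num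
    have := Real.log_two_gt_d9
    linarith
  obtain ⟨M, hM⟩ : ∃ M, M = ⌊T⌋₊ := ⟨_, rfl⟩
  obtain ⟨X, hX⟩ : ∃ X, X = ⌊T ^ δ⌋₊ := ⟨_, rfl⟩
  have hX3 : 3 ≤ X := by rw [hX]; exact Nat.le_floor (by exact_mod_cast h3)
  have hM3 : 3 ≤ M := by rw [hM]; exact Nat.le_floor (by push_cast; linarith)
  have hXle : (X : ℝ) ≤ T ^ δ := by rw [hX]; exact Nat.floor_le (by positivity)
  have hPX : P ≤ X := by rw [hX]; exact Nat.le_floor hP
  have h1 := (abs_le.1 (hC M hM3)).1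
  have h2 := (abs_le.1 (hC X hX3)).2
  have h4 : Real.log (Real.log X) ≤ Real.log δ + Real.log (Real.log T) := by
    rw [← Real.log_mul hδ0.ne' (by linarith), ← Real.log_rpow hT0]
    have hX3' : (3 : ℝ) ≤ X := by exact_mod_cast hX3
    have h5 : 0 < Real.log X := Real.log_pos (by linarith)
    exact Real.log_le_log h5 (Real.log_le_log (by linarith) hXle)
  have h5 : Real.log (Real.log T) - Real.log 2 ≤ Real.log (Real.log M) := by
    rw [← Real.log_div (by linarith) (by norm_num)]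
    apply Real.log_le_log (by linarith)
    have h6 : T / 2 ≤ M := by
      rw [hM]
      have := Nat.lt_floor_add_one T
      linarith
    have h7 : Real.log (T / 2) ≤ Real.log M := Real.log_le_log (by linarith) h6
    rw [Real.log_div hT0.ne' (by norm_num)] at h7
    have := Real.log_two_lt_d9
    linarith
  have h6 : Real.log δ = -(2 * |V₀| + 2 * C + 1) := by rw [hδ, Real.log_exp]
  have h7 : ∑ p ∈ (Finset.Icc 1 M).filter Nat.Prime, (1 : ℝ) / p ≤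
      ∑ p ∈ (Finset.Icc 1 X).filter Nat.Prime, (1 : ℝ) / p + ∑ p ∈ bigP P M, (1 : ℝ) / p := by
    rw [← Finset.sum_union_inter]
    have h8 : (Finset.Icc 1 M).filter Nat.Prime ⊆ (Finset.Icc 1 X).filter Nat.Prime ∪ bigP P M := by
      intro p hp
      rw [Finset.mem_filter, Finset.mem_Icc] at hp
      rw [Finset.mem_union, mem_bP, Finset.mem_filter, Finset.mem_Icc]
      rcases Nat.lt_or_ge P p with h | h
      · exact Or.inr ⟨hp.2, h, hp.1.2⟩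
      · exact Or.inl ⟨⟨hp.1.1, h.trans hPX⟩, hp.2⟩
    have h9 := Finset.sum_le_sum_of_subset_of_nonneg h8 (f := fun p : ℕ => (1 : ℝ) / p) (fun n _ _ => by positivity)
    have h10 : 0 ≤ ∑ p ∈ (Finset.Icc 1 X).filter Nat.Prime ∩ bigP P M, (1 : ℝ) / p :=
      Finset.sum_nonneg fun n _ => by positivity
    linarith
  unfold vz
  rw [← hM]
  have := Real.log_two_lt_d9
  have := le_abs_self V₀
  linarith

open Classical in
/-- the isolated zeros with a derivative of size in an interval -/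
def ZT2 (a b' d : ℝ) (P : ℕ) (T : ℝ) : Finset ℂ :=
  (ZI d T).filter (fun s => a < AA P T s / Real.sqrt (vz P T) ∧ AA P T s / Real.sqrt (vz P T) < b')

open Classical in
theorem zfin2 {a b' ε : ℝ} (hab : a < b') (hε : 0 < ε) : ∃ d δ : ℝ, 0 < d ∧ d ≤ 1 ∧ 0 < δ ∧
    ∀ᶠ T : ℝ in atTop, ∀ (P N : ℕ) (b : ℕ → ℂ), (P : ℝ) ≤ T ^ δ → (N : ℝ) ≤ T ^ δ → Bs P N b →
      ((2 - H370.cMTinv) * gm a b' - ε) * (Real.log T / (2 * Real.pi)) * (T * N2 N b) ≤
        ∑ s ∈ ZT2 a b' d P T, ‖dp N b s.im‖ ^ 2 := by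
  obtain ⟨d, δ, V₀, hd, hd1, hδ, hV₀, h⟩ := zfin hab hε
  obtain ⟨δ', hδ', hδ'1, h'⟩ := vz_ge V₀
  refine ⟨d, min δ δ', hd, hd1, by positivity, ?_⟩
  filter_upwards [h, h', eventually_ge_atTop (1 : ℝ)] with T h h' hT P N b hP hN hb
  exact h P N b (hN.trans (Real.rpow_le_rpow_of_exponent_le hT (min_le_left _ _))) hb
    (h' P (hP.trans (Real.rpow_le_rpow_of_exponent_le hT (min_le_right _ _))))

open Classical in
/-- Kronecker's theorem for all primes up to `κ log T / log log T` at isolated zeros with a typical derivative -/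
theorem kro {a b' : ℝ} (hab : 0 < gm a b') : ∃ d : ℝ, 0 < d ∧ ∀ ε η : ℝ, 0 < ε → 0 < η → ∃ κ : ℝ, 0 < κ ∧
    ∀ᶠ T : ℝ in atTop, ∀ P : ℕ, P * Real.log (Real.log T) ≤ κ * Real.log T → ∀ z : ℕ → ℂ, (∀ p, ‖z p‖ = 1) →
      T ^ (1 - η) ≤ (((ZT2 a b' d P T).filter (fun s => ∀ p : ℕ, p.Prime → p ≤ P →
        ‖(p : ℂ) ^ (s.im * I) - z p‖ ≤ ε)).card : ℝ) := by
  have hab1 : a < b' := by
    by_contra h
    unfold gm at hab
    rw [Set.Ioo_eq_empty h] at hab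
    simp at hab
  have hcM2 := H370.cMTinv_lt
  obtain ⟨c₁, hc₁⟩ : ∃ c₁ : ℝ, c₁ = (2 - H370.cMTinv) * gm a b' / 2 := ⟨_, rfl⟩
  have hc₁0 : 0 < c₁ := by
    rw [hc₁]
    have : 0 < 2 - H370.cMTinv := by linarith
    positivity
  obtain ⟨d, θ₁, hd, hd1, hθ₁, evI⟩ := zfin2 hab1 hc₁0
  obtain ⟨θ₂, hθ₂, hθ₂', evS⟩ := b_SAMP (1 / 100) (by norm_num)
  have hPD := Pool.Agent.Q84.UM.t_DPM
  refine ⟨d, hd, ?_⟩
  intro ε₀ η hε₀ hη
  obtain ⟨ε, hε, hε1, hεε⟩ : ∃ ε : ℝ, 0 < ε ∧ ε ≤ 1 ∧ ε ≤ ε₀ :=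
    ⟨min ε₀ 1, lt_min hε₀ one_pos, min_le_right _ _, min_le_left _ _⟩
  obtain ⟨θ, hθ, hθa, hθb⟩ : ∃ θ : ℝ, 0 < θ ∧ θ ≤ θ₁ ∧ θ ≤ θ₂ :=
    ⟨min θ₁ θ₂, lt_min hθ₁ hθ₂, min_le_left _ _, min_le_right _ _⟩
  obtain ⟨κ, hκ⟩ : ∃ κ, κ = θ * ε ^ 2 / 100 := ⟨_, rfl⟩
  have hκ0 : 0 < κ := by rw [hκ]; positivity
  have hε2 : ε ^ 2 ≤ 1 := pow_le_one₀ hε.le hε1
  have hκ1 : κ ≤ 1 := by
    rw [hκ]
    have : θ ≤ 1 := by linarith
    nlinarith [sq_nonneg ε]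
  refine ⟨κ, hκ0, ?_⟩
  have tL : Tendsto Real.log atTop atTop := Real.tendsto_log_atTop
  have tLL : Tendsto (fun T => Real.log (Real.log T)) atTop atTop := tL.comp tL
  have hεp : 0 < ε ^ 2 := by positivity
  obtain ⟨c₂, hc₂⟩ : ∃ c₂ : ℝ, c₂ = c₁ / 7 := ⟨_, rfl⟩
  have hc₂0 : 0 < c₂ := by rw [hc₂]; positivity
  have hlogθ : ∀ᶠ T : ℝ in atTop, Real.log T ≤ T ^ θ₁ := by
    have h2 := (isLittleO_log_rpow_atTop hθ₁).bound (show (0 : ℝ) < 1 by norm_num)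
    filter_upwards [h2, eventually_ge_atTop (1 : ℝ)] with T h hT
    rw [Real.norm_eq_abs, Real.norm_eq_abs, abs_of_nonneg (Real.log_nonneg hT), abs_of_nonneg (by positivity)] at h
    linarith
  filter_upwards [evI, evS, hlogθ, tL.eventually_ge_atTop (2 / c₂), tL.eventually_ge_atTop 100, tLL.eventually_ge_atTop 1,
    tL.eventually_ge_atTop (70 / (c₂ * ε ^ 2)),
    tLL.eventually (Pool.Agent.Q47.UM10.ev_log (A := 35 / ε ^ 2) (c := η / κ) (by positivity) (by positivity)),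
    eventually_ge_atTop (1 : ℝ)] with T hTI hTS hLθ hLc hL hLL hLε hlog hT1 P hPT z hz
  obtain ⟨L, hLdef⟩ : ∃ L, L = Real.log T := ⟨_, rfl⟩
  obtain ⟨l, hldef⟩ : ∃ l, l = Real.log L := ⟨_, rfl⟩
  rw [← hLdef] at hTI hTS hLθ hLc hL hLL hLε hlog hPT
  rw [← hldef] at hLL hlog hPT
  have hT0 : 0 < T := by linarith
  have hL0 : 0 < L := by linarith
  have hl0 : 0 < l := by linarith
  have hlL : l ≤ L := by
    rw [hldef]
    exact (Real.log_le_sub_one_of_pos hL0).trans (by linarith)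
  have hexpL : Real.exp L = T := by rw [hLdef, Real.exp_log hT0]
  have hexpl : Real.exp l = L := by rw [hldef, Real.exp_log hL0]
  -- m
  obtain ⟨m, hm⟩ : ∃ m : ℕ, m = ⌈16 * l / ε ^ 2⌉₊ := ⟨_, rfl⟩
  have hm1 : 16 * l / ε ^ 2 ≤ m := by rw [hm]; exact Nat.le_ceil _
  have hm2 : (m : ℝ) ≤ 17 * l / ε ^ 2 := by
    have h1 : (m : ℝ) < 16 * l / ε ^ 2 + 1 := by rw [hm]; exact Nat.ceil_lt_add_one (by positivity)
    have h2 : 1 ≤ l / ε ^ 2 := by rw [le_div_iff₀ hεp]; linarith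
    have h3 : 17 * l / ε ^ 2 = 16 * l / ε ^ 2 + l / ε ^ 2 := by ring
    linarith
  have hm3 : (2 * m + 1 : ℝ) ≤ 35 / ε ^ 2 * l := by
    have h2 : 1 ≤ l / ε ^ 2 := by rw [le_div_iff₀ hεp]; linarith
    have h3 : 35 / ε ^ 2 * l = 2 * (17 * l / ε ^ 2) + l / ε ^ 2 := by ring
    linarith
  -- P
  have hP0 : (0 : ℝ) ≤ P := Nat.cast_nonneg P
  have hPl : (P : ℝ) ≤ L :=
    (le_mul_of_one_le_right hP0 hLL).trans (hPT.trans (mul_le_of_le_one_left hL0.le hκ1))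
  -- the primes
  obtain ⟨S, hSdef⟩ : ∃ S : Finset ℕ, S = (Finset.range (P + 1)).filter Nat.Prime := ⟨_, rfl⟩
  have hSp : ∀ p ∈ S, p.Prime := fun p hp => by
    rw [hSdef] at hp; exact (Finset.mem_filter.1 hp).2
  have hScard : (S.card : ℝ) ≤ P := by
    have h1 : S ⊆ Finset.Icc 1 P := by
      intro p hp
      have h2 := hSp p hp
      rw [hSdef, Finset.mem_filter, Finset.mem_range] at hp
      rw [Finset.mem_Icc]
      exact ⟨h2.one_lt.le, by omega⟩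
    have h2 := Finset.card_le_card h1
    rw [Nat.card_Icc] at h2
    exact_mod_cast (by omega : S.card ≤ P)
  have hprod : (((∏ p ∈ S, p) ^ m : ℕ) : ℝ) ≤ T ^ θ := by
    have h1 : ∏ p ∈ S, p ≤ 4 ^ P := by rw [hSdef]; exact primorial_le_four_pow P
    have h2 : (((∏ p ∈ S, p) ^ m : ℕ) : ℝ) ≤ ((4 : ℝ) ^ P) ^ m := by
      have := Nat.pow_le_pow_left h1 m
      exact_mod_cast this
    refine h2.trans ?_
    have h4 := Pool.Agent.Q47.UM10.four_le_exp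
    have h6 : ((4 : ℝ) ^ P) ^ m ≤ (Real.exp 2) ^ (P * m) := by
      rw [← pow_mul]
      exact pow_le_pow_left₀ (by norm_num) h4 _
    refine h6.trans ?_
    rw [← Real.exp_nat_mul, ← hexpL, ← Real.exp_mul, Real.exp_le_exp, Nat.cast_mul]
    have h7 : (P : ℝ) * m ≤ (P : ℝ) * (17 * l / ε ^ 2) := mul_le_mul_of_nonneg_left hm2 hP0
    have h8 : (P : ℝ) * (17 * l / ε ^ 2) = 17 / ε ^ 2 * (P * l) := by ring
    have h9 : 17 / ε ^ 2 * (P * l) ≤ 17 / ε ^ 2 * (κ * L) :=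
      mul_le_mul_of_nonneg_left hPT (by positivity)
    have h10 : 17 / ε ^ 2 * (κ * L) = 17 / 100 * (θ * L) := by
      rw [hκ]; field_simp
    have h11 : 0 < θ * L := by positivity
    linarith
  have hprod' : ∀ q ∈ S, (((∏ p ∈ S.erase q, p) ^ m : ℕ) : ℝ) ≤ T ^ θ := by
    intro q hq
    refine le_trans ?_ hprod
    have h1 : ∏ p ∈ S.erase q, p ≤ ∏ p ∈ S, p := by
      rw [← Finset.mul_prod_erase S (fun p => p) hq]
      exact Nat.le_mul_of_pos_left _ (hSp q hq).pos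
    exact_mod_cast Nat.pow_le_pow_left h1 m
  have hTθ1 : T ^ θ ≤ T ^ θ₁ := Real.rpow_le_rpow_of_exponent_le hT1 hθa
  have hTθ2 : T ^ θ ≤ T ^ θ₂ := Real.rpow_le_rpow_of_exponent_le hT1 hθb
  -- the polynomials
  obtain ⟨b, hb1, hb2, hb3⟩ := Pool.Agent.Q47.UM10.ppl_aux hPD m z hz S hSp
  have hSP : ∀ p ∈ S, p ≤ P := by
    intro p hp
    rw [hSdef, Finset.mem_filter, Finset.mem_range] at hp
    omega
  have hBs : Bs P ((∏ p ∈ S, p) ^ m) b := fun n hn =>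
    ⟨(hb1 n hn).1, (hb1 n hn).2.1, fun r hr hrn => hSP r ((hb1 n hn).2.2 r hr hrn)⟩
  have hPq : ∀ q ∈ S, ∃ bq : ℕ → ℂ,
      (∀ t : ℝ, ‖dp ((∏ p ∈ S.erase q, p) ^ m) bq t‖ ^ 2 =
        ∏ p ∈ S.erase q, (1 - ‖z p * (p : ℂ) ^ (-(t * I)) - 1‖ ^ 2 / 4) ^ m) ∧
      N2 ((∏ p ∈ S.erase q, p) ^ m) bq = ((Nat.choose (2 * m) m : ℝ) / 4 ^ m) ^ (S.erase q).card := by
    intro q hq
    obtain ⟨bq, -, h2, h3⟩ := Pool.Agent.Q47.UM10.ppl_aux hPD m z hz (S.erase q)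
      (fun p hp => hSp p (Finset.mem_of_mem_erase hp))
    exact ⟨bq, h2, h3⟩
  choose! bq hbq2 hbq3 using hPq
  obtain ⟨N, hN⟩ : ∃ N, N = N2 ((∏ p ∈ S, p) ^ m) b := ⟨_, rfl⟩
  obtain ⟨c, hc⟩ : ∃ c : ℝ, c = (Nat.choose (2 * m) m : ℝ) / 4 ^ m := ⟨_, rfl⟩
  have h4m : (0 : ℝ) < 4 ^ m := by positivity
  have hm0 : (0 : ℝ) ≤ m := Nat.cast_nonneg m
  have hc0 : 0 < c := by
    rw [hc]
    have : 0 < Nat.choose (2 * m) m := Nat.choose_pos (by omega)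
    have : (0 : ℝ) < Nat.choose (2 * m) m := by exact_mod_cast this
    positivity
  have hc1 : 1 ≤ (2 * m + 1) * c := by
    have h1 : ((4 ^ m : ℕ) : ℝ) ≤ (((2 * m + 1) * Nat.choose (2 * m) m : ℕ) : ℝ) := by
      exact_mod_cast Nat.four_pow_le_two_mul_add_one_mul_central_binom m
    push_cast at h1
    rw [hc, mul_div_assoc', le_div_iff₀ h4m, one_mul]
    exact h1
  rw [← hN, ← hc] at hb3
  have hN0 : 0 < N := by rw [hb3]; positivity
  have hNq : ∀ q ∈ S, N2 ((∏ p ∈ S.erase q, p) ^ m) (bq q) ≤ (2 * m + 1) * N := by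
    intro q hq
    rw [hbq3 q hq, ← hc, hb3, ← Finset.card_erase_add_one hq, pow_succ]
    have h1 : 0 < c ^ (S.erase q).card := by positivity
    calc c ^ (S.erase q).card ≤ c ^ (S.erase q).card * ((2 * m + 1) * c) :=
          le_mul_of_one_le_right h1.le hc1
      _ = (2 * m + 1) * (c ^ (S.erase q).card * c) := by ring
  -- the factors
  have hx : ∀ p ∈ S, ∀ t : ℝ, 0 ≤ 1 - ‖z p * (p : ℂ) ^ (-(t * I)) - 1‖ ^ 2 / 4 ∧
      1 - ‖z p * (p : ℂ) ^ (-(t * I)) - 1‖ ^ 2 / 4 ≤ 1 := by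
    intro p hp t
    have h1 : ‖(p : ℂ) ^ (-(t * I))‖ = 1 := by
      rw [Complex.norm_natCast_cpow_of_pos (hSp p hp).pos]
      simp
    have h2 : ‖z p * (p : ℂ) ^ (-(t * I)) - 1‖ ≤ 2 := by
      refine (norm_sub_le _ _).trans ?_
      rw [norm_mul, hz, h1, norm_one]
      norm_num
    exact Pool.Agent.Q47.UM10.fac_bounds (norm_nonneg _) h2
  obtain ⟨G, hG⟩ : ∃ G : ℂ → Prop, G = fun s => ∀ p : ℕ, p.Prime → p ≤ P →
    ‖(p : ℂ) ^ (s.im * I) - z p‖ ≤ ε := ⟨_, rfl⟩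
  obtain ⟨F, hFdef⟩ : ∃ F : ℂ → ℝ, F = fun s => ‖dp ((∏ p ∈ S, p) ^ m) b s.im‖ ^ 2 := ⟨_, rfl⟩
  obtain ⟨Fq, hFqdef⟩ : ∃ Fq : ℕ → ℂ → ℝ,
    Fq = fun q s => ‖dp ((∏ p ∈ S.erase q, p) ^ m) (bq q) s.im‖ ^ 2 := ⟨_, rfl⟩
  obtain ⟨Z, hZdef⟩ : ∃ Z : Finset ℂ, Z = ZT2 a b' d P T := ⟨_, rfl⟩
  have hZI : Z ⊆ ZI d T := by
    rw [hZdef]
    exact Finset.filter_subset _ _
  have hF1 : ∀ s ∈ Z, G s → F s ≤ 1 := by
    intro s _ _
    rw [hFdef]
    change ‖dp ((∏ p ∈ S, p) ^ m) b s.im‖ ^ 2 ≤ 1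
    rw [hb2]
    exact Finset.prod_le_one (fun p hp => pow_nonneg (hx p hp _).1 _)
      fun p hp => pow_le_one₀ (hx p hp _).1 (hx p hp _).2
  have hsum : c₁ * (L / (2 * Real.pi)) * (T * N) ≤ ∑ s ∈ Z, F s := by
    have := hTI P ((∏ p ∈ S, p) ^ m) b (hPl.trans hLθ) (hprod.trans hTθ1) hBs
    rw [← hN] at this
    rw [hFdef, hZdef]
    have e0 : (2 - H370.cMTinv) * gm a b' - c₁ = c₁ := by rw [hc₁]; ring
    rw [e0] at this
    exact this
  have hZs : Z ⊆ H370.Zf riemannZeta T (2 * T) := hZI.trans (Finset.filter_subset _ _)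
  have hW : ∀ q ∈ S, ∑ s ∈ Z, Fq q s ≤ L * (T * ((2 * m + 1) * N)) := by
    intro q hq
    have h1 := (hTS ((∏ p ∈ S.erase q, p) ^ m) ((hprod' q hq).trans hTθ2) (bq q)).2.2
    have h2 := (abs_le.1 h1).2
    have h3 : ∑ s ∈ Z, Fq q s ≤ ∑ s ∈ H370.Zf riemannZeta T (2 * T),
        (mz s : ℝ) * ‖dp ((∏ p ∈ S.erase q, p) ^ m) (bq q) s.im‖ ^ 2 := by
      have h4 : ∀ s ∈ Z, Fq q s = (mz s : ℝ) * ‖dp ((∏ p ∈ S.erase q, p) ^ m) (bq q) s.im‖ ^ 2 := by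
        intro s hs
        replace hs := hZI hs
        unfold ZI at hs
        rw [Finset.mem_filter] at hs
        rw [hs.2.2.1, Nat.cast_one, one_mul, hFqdef]
      rw [Finset.sum_congr rfl h4]
      exact Finset.sum_le_sum_of_subset_of_nonneg hZs fun s _ _ =>
        mul_nonneg (Nat.cast_nonneg _) (sq_nonneg _)
    obtain ⟨M, hM⟩ : ∃ M, M = N2 ((∏ p ∈ S.erase q, p) ^ m) (bq q) := ⟨_, rfl⟩
    have hM1 : M ≤ (2 * m + 1) * N := by rw [hM]; exact hNq q hq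
    have hM0 : 0 ≤ M := by
      rw [hM]
      exact Finset.sum_nonneg fun n _ => by positivity
    rw [← hM] at h2
    have hpi : 3 < Real.pi := Real.pi_gt_three
    have h5 : L / (2 * Real.pi) ≤ L / 6 := div_le_div_of_nonneg_left hL0.le (by norm_num) (by linarith)
    have h6 : 0 ≤ T * M := by positivity
    have h7 : L / (2 * Real.pi) * (T * M) ≤ L / 6 * (T * M) := mul_le_mul_of_nonneg_right h5 h6
    have h8 : 0 ≤ L * (T * M) := by positivity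
    have h9 : L * (T * M) ≤ L * (T * ((2 * m + 1) * N)) := by
      refine mul_le_mul_of_nonneg_left (mul_le_mul_of_nonneg_left hM1 hT0.le) hL0.le
    linarith
  have hL4 : (0 : ℝ) < L ^ 4 := by positivity
  have hbad : ∀ s ∈ Z, ¬ G s → ∃ q ∈ S, F s ≤ 1 / L ^ 4 * Fq q s := by
    intro s _ hs
    rw [hG] at hs
    push Not at hs
    obtain ⟨q, hqp, hqP, hqε⟩ := hs
    have hqS : q ∈ S := by
      rw [hSdef, Finset.mem_filter, Finset.mem_range]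
      exact ⟨by omega, hqp⟩
    refine ⟨q, hqS, ?_⟩
    rw [hFdef, hFqdef]
    change ‖dp ((∏ p ∈ S, p) ^ m) b s.im‖ ^ 2 ≤
      1 / L ^ 4 * ‖dp ((∏ p ∈ S.erase q, p) ^ m) (bq q) s.im‖ ^ 2
    rw [hb2, hbq2 q hqS, ← Finset.mul_prod_erase S _ hqS]
    refine mul_le_mul_of_nonneg_right ?_ (Finset.prod_nonneg fun p hp =>
      pow_nonneg (hx p (Finset.mem_of_mem_erase hp) _).1 _)
    rw [← Pool.Agent.Q47.UM10.norm_tw hqp.pos] at hqε
    obtain ⟨y, hy⟩ : ∃ y, y = ‖z q * (q : ℂ) ^ (-(s.im * I)) - 1‖ := ⟨_, rfl⟩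
    have hx' := (hx q hqS s.im).1
    rw [← hy] at hqε hx' ⊢
    have h1 : 1 - y ^ 2 / 4 ≤ Real.exp (-(ε ^ 2 / 4)) := by
      have h2 := Real.add_one_le_exp (-(ε ^ 2 / 4))
      have h3 : ε ^ 2 ≤ y ^ 2 := pow_le_pow_left₀ hε.le hqε.le 2
      linarith
    calc (1 - y ^ 2 / 4) ^ m ≤ (Real.exp (-(ε ^ 2 / 4))) ^ m := pow_le_pow_left₀ hx' h1 m
      _ = Real.exp (m * (-(ε ^ 2 / 4))) := (Real.exp_nat_mul _ _).symm
      _ ≤ Real.exp (-(4 * l)) := by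
          rw [Real.exp_le_exp]
          rw [div_le_iff₀ hεp] at hm1
          linarith
      _ = 1 / L ^ 4 := by
          rw [Real.exp_neg, one_div, ← hexpl, ← Real.exp_nat_mul]
          norm_num
  have hB := Pool.Agent.Q47.UM10.bad_bound Z G S F Fq (1 / L ^ 4) (L * (T * ((2 * m + 1) * N))) (by positivity)
    (fun q _ s _ => by rw [hFqdef]; exact sq_nonneg _) hbad hW
  have hcount := Pool.Agent.Q47.UM10.count_good Z G F hF1 _ _ hsum hB
  rw [← hZdef]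
  have hmono : ((Z.filter G).card : ℝ) ≤ ((Z.filter (fun s => ∀ p : ℕ, p.Prime →
      p ≤ P → ‖(p : ℂ) ^ (s.im * I) - z p‖ ≤ ε₀)).card : ℝ) := by
    have h1 : Z.filter G ⊆ Z.filter (fun s => ∀ p : ℕ, p.Prime →
      p ≤ P → ‖(p : ℂ) ^ (s.im * I) - z p‖ ≤ ε₀) := by
      refine Finset.monotone_filter_right _ ?_
      intro s _ hs
      rw [hG] at hs
      exact fun p hp hpP => (hs p hp hpP).trans hεε
    exact_mod_cast Finset.card_le_card h1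
  refine le_trans ?_ hmono
  refine le_trans ?_ hcount
  -- the main inequality
  have hTN : 0 < T * N := by positivity
  have e1 : c₂ * L * (T * N) ≤ c₁ * (L / (2 * Real.pi)) * (T * N) := by
    refine mul_le_mul_of_nonneg_right ?_ hTN.le
    have hpi : Real.pi < 3.15 := Real.pi_lt_d2
    have hpi0 : 0 < Real.pi := Real.pi_pos
    have h2 : L / 7 ≤ L / (2 * Real.pi) :=
      div_le_div_of_nonneg_left hL0.le (by positivity) (by linarith)
    calc c₂ * L = c₁ * (L / 7) := by rw [hc₂]; ring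
      _ ≤ c₁ * (L / (2 * Real.pi)) := mul_le_mul_of_nonneg_left h2 hc₁0.le
  have e2 : (S.card : ℝ) * (1 / L ^ 4 * (L * (T * ((2 * m + 1) * N)))) ≤ c₂ / 2 * L * (T * N) := by
    have h1 : (S.card : ℝ) ≤ L := hScard.trans hPl
    have h2 : (2 * m + 1 : ℝ) ≤ c₂ / 2 * L ^ 3 := by
      refine hm3.trans ?_
      have h3 : 35 / ε ^ 2 * l ≤ 35 / ε ^ 2 * L := mul_le_mul_of_nonneg_left hlL (by positivity)
      have h4 : 35 / ε ^ 2 ≤ c₂ / 2 * L := by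
        rw [div_le_iff₀ (by positivity)] at hLε
        rw [div_le_iff₀ hεp]
        linarith
      have h5 : 35 / ε ^ 2 * L ≤ c₂ / 2 * L * L := mul_le_mul_of_nonneg_right h4 hL0.le
      have h6 : c₂ / 2 * L * L ≤ c₂ / 2 * L * L * L := le_mul_of_one_le_right (by positivity) (by linarith)
      have h7 : c₂ / 2 * L * L * L = c₂ / 2 * L ^ 3 := by ring
      linarith
    have h7 : (S.card : ℝ) * (1 / L ^ 4 * (L * (T * ((2 * m + 1) * N)))) =
        (S.card : ℝ) * (2 * m + 1) * ((T * N) / L ^ 3) := by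
      field_simp
    have h8 : c₂ / 2 * L * (T * N) = L * (c₂ / 2 * L ^ 3) * ((T * N) / L ^ 3) := by
      field_simp
    rw [h7, h8]
    refine mul_le_mul_of_nonneg_right ?_ (by positivity)
    exact mul_le_mul h1 h2 (by positivity) hL0.le
  have e3 : T ^ (1 - η) ≤ T * N := by
    rw [Real.rpow_sub hT0, Real.rpow_one, div_eq_mul_inv]
    refine mul_le_mul_of_nonneg_left ?_ hT0.le
    rw [← Real.rpow_neg hT0.le, hb3]
    have h1 : (1 / (2 * m + 1 : ℝ)) ≤ c := by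
      rw [div_le_iff₀ (by positivity)]
      linarith
    have h2 : (1 / (2 * m + 1 : ℝ)) ^ S.card ≤ c ^ S.card := pow_le_pow_left₀ (by positivity) h1 _
    refine le_trans ?_ h2
    have h3 : (1 / (2 * m + 1 : ℝ)) = Real.exp (-Real.log (2 * m + 1)) := by
      rw [Real.exp_neg, Real.exp_log (by positivity), one_div]
    rw [h3, ← Real.exp_nat_mul, ← hexpL, ← Real.exp_mul, Real.exp_le_exp]
    have h4 : 0 ≤ Real.log (2 * m + 1) := Real.log_nonneg (by linarith)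
    have h5 : Real.log (2 * m + 1) ≤ η / κ * l :=
      (Real.log_le_log (by positivity) hm3).trans hlog
    have h6 : (S.card : ℝ) * Real.log (2 * m + 1) ≤ η * L := by
      calc (S.card : ℝ) * Real.log (2 * m + 1) ≤ P * (η / κ * l) :=
            mul_le_mul hScard h5 h4 hP0
        _ = η / κ * (P * l) := by ring
        _ ≤ η / κ * (κ * L) := mul_le_mul_of_nonneg_left hPT (by positivity)
        _ = η * L := by field_simp
    linarith
  have e4 : 1 ≤ c₂ / 2 * L := by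
    rw [div_le_iff₀ hc₂0] at hLc
    linarith
  have e5 : T * N ≤ c₂ / 2 * L * (T * N) := le_mul_of_one_le_left hTN.le e4
  have e6 : c₂ * L * (T * N) = c₂ / 2 * L * (T * N) + c₂ / 2 * L * (T * N) := by ring
  linarith

end

end Run7.h311.LW
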