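import Pool.Agent.Q98.UM.Lem
import Pool.Agent.Q198.UM.PRM
import Pool.Agent.Run7.h311.LW.GauB

set_option autoImplicit false

/-! The logarithm of an Euler product over the primes in `(P, X]` as a sum over primes. -/

namespace Run7.h311.LW

open Filter Topology MeasureTheory Complex ProbabilityTheory
open Pool.Agent.Q97.UM Pool.Agent.Q14.UM

noncomputable section

open Classical in
/-- the coefficients `a p` on the primes in `(P, X]` -/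
def uu (P X : ℕ) (a : ℕ → ℂ) (n : ℕ) : ℂ := if n ∈ bigP P X then a n else 0

open Classical in
/-- the coefficients `a p / 2` on the squares of the primes in `(P, X]` -/
def u2 (P X : ℕ) (a : ℕ → ℂ) (n : ℕ) : ℂ := if n ∈ (bigP P X).image (fun p => p ^ 2) then a (Nat.sqrt n) / 2 else 0

theorem mem_bP {P X p : ℕ} : p ∈ bigP P X ↔ p.Prime ∧ P < p ∧ p ≤ X := by
  unfold bigP
  rw [Finset.mem_filter, Finset.mem_Icc]
  constructor
  · rintro ⟨⟨h1, h2⟩, h3, h4⟩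
    exact ⟨h3, h4, h2⟩
  · rintro ⟨h1, h2, h3⟩
    exact ⟨⟨h1.one_lt.le, h3⟩, h1, h2⟩

theorem uu_qs (P X : ℕ) (a : ℕ → ℂ) : Qs P X (uu P X a) := by
  intro n hn
  unfold uu at hn
  by_cases h : n ∈ bigP P X
  · exact mem_bP.1 h
  · rw [if_neg h] at hn
    exact absurd rfl hn

theorem uu_le (P X : ℕ) (a : ℕ → ℂ) (n : ℕ) : ‖uu P X a n‖ ≤ ‖a n‖ := by
  unfold uu
  split_ifs
  · exact le_rfl
  · rw [norm_zero]; exact norm_nonneg _

theorem uu_N2 (P X : ℕ) (a : ℕ → ℂ) : N2 X (uu P X a) = ∑ p ∈ bigP P X, ‖a p‖ ^ 2 / (p : ℝ) := by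
  rw [← N2_supp (uu_qs P X a)]
  refine Finset.sum_congr rfl fun p hp => ?_
  unfold uu
  rw [if_pos hp]

theorem uu_dp (P X : ℕ) (a : ℕ → ℂ) (t : ℝ) : dp X (uu P X a) t = ∑ p ∈ bigP P X, a p * (p : ℂ) ^ (-(1 / 2 + t * I)) := by
  unfold dp
  have h1 : ∀ n ∈ Finset.Icc 1 X, uu P X a n * (n : ℂ) ^ (-(1 / 2 + t * I)) =
      if n ∈ bigP P X then a n * (n : ℂ) ^ (-(1 / 2 + t * I)) else 0 := by
    intro n _
    unfold uu
    split_ifs
    · rfl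
    · rw [zero_mul]
  rw [Finset.sum_congr rfl h1, Finset.sum_ite_mem]
  congr 1
  ext n
  rw [Finset.mem_inter, Finset.mem_Icc]
  constructor
  · exact fun h => h.2
  · intro h
    obtain ⟨a1, a2, a3⟩ := mem_bP.1 h
    exact ⟨⟨a1.one_lt.le, a3⟩, h⟩

theorem sq_inj (P X : ℕ) : Set.InjOn (fun p : ℕ => p ^ 2) (bigP P X : Set ℕ) := by
  intro x _ y _ hxy
  have : x ^ 2 = y ^ 2 := hxy
  exact Nat.pow_left_injective (n := 2) (by norm_num) this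

theorem sq_sub (P X : ℕ) : (bigP P X).image (fun p => p ^ 2) ⊆ Finset.Icc 1 (X ^ 2) := by
  intro n hn
  rw [Finset.mem_image] at hn
  obtain ⟨p, hp, rfl⟩ := hn
  obtain ⟨a1, a2, a3⟩ := mem_bP.1 hp
  rw [Finset.mem_Icc]
  exact ⟨Nat.one_le_pow _ _ a1.pos, Nat.pow_le_pow_left a3 2⟩

theorem u2_len (P X : ℕ) (a : ℕ → ℂ) : ∀ n, X ^ 2 < n → u2 P X a n = 0 := by
  intro n hn
  unfold u2
  rw [if_neg]
  intro h
  have := Finset.mem_Icc.1 (sq_sub P X h)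
  omega

theorem u2_sp (P X : ℕ) (a : ℕ → ℂ) : SP (fun p => P < p) (u2 P X a) := by
  intro n hn
  unfold u2 at hn
  by_cases h : n ∈ (bigP P X).image (fun p => p ^ 2)
  · rw [Finset.mem_image] at h
    obtain ⟨p, hp, rfl⟩ := h
    obtain ⟨a1, a2, a3⟩ := mem_bP.1 hp
    refine ⟨pow_ne_zero _ a1.ne_zero, fun r hr hrn => ?_⟩
    have := hr.dvd_of_dvd_pow hrn
    rw [(Nat.prime_dvd_prime_iff_eq hr a1).1 this]
    exact a2
  · rw [if_neg h] at hn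
    exact absurd rfl hn

theorem u2_N2 (P X : ℕ) {a : ℕ → ℂ} {A : ℝ} (ha : ∀ n, ‖a n‖ ≤ A) : N2 (X ^ 2) (u2 P X a) ≤ A ^ 2 / 2 := by
  have hA : 0 ≤ A := (norm_nonneg _).trans (ha 0)
  unfold N2
  have h1 : ∑ n ∈ Finset.Icc 1 (X ^ 2), ‖u2 P X a n‖ ^ 2 / (n : ℝ) =
      ∑ n ∈ (bigP P X).image (fun p => p ^ 2), ‖u2 P X a n‖ ^ 2 / (n : ℝ) := by
    symm
    apply Finset.sum_subset (sq_sub P X)
    intro n _ hn
    unfold u2
    rw [if_neg hn]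
    simp
  rw [h1, Finset.sum_image (sq_inj P X)]
  have h2 : ∀ p ∈ bigP P X, ‖u2 P X a (p ^ 2)‖ ^ 2 / ((p ^ 2 : ℕ) : ℝ) ≤ A ^ 2 / 4 * (1 / (p : ℝ) ^ 2) := by
    intro p hp
    have h3 : u2 P X a (p ^ 2) = a p / 2 := by
      unfold u2
      rw [if_pos (Finset.mem_image.2 ⟨p, hp, rfl⟩), Nat.sqrt_eq']
    rw [h3, norm_div, div_pow]
    have h4 : ‖(2 : ℂ)‖ ^ 2 = 4 := by norm_num
    rw [h4]
    push_cast
    have h5 := ha p
    calc ‖a p‖ ^ 2 / 4 / (p : ℝ) ^ 2 = ‖a p‖ ^ 2 / 4 * (1 / (p : ℝ) ^ 2) := by ring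
      _ ≤ A ^ 2 / 4 * (1 / (p : ℝ) ^ 2) := by gcongr
  refine (Finset.sum_le_sum h2).trans ?_
  rw [← Finset.mul_sum]
  have h3 : ∑ p ∈ bigP P X, 1 / (p : ℝ) ^ 2 ≤ 2 := by
    refine le_trans ?_ (sum_inv_sq X)
    apply Finset.sum_le_sum_of_subset_of_nonneg
    · intro p hp
      obtain ⟨a1, a2, a3⟩ := mem_bP.1 hp
      rw [Finset.mem_Icc]
      exact ⟨a1.one_lt.le, a3⟩
    · intro p _ _
      positivity
  nlinarith [sq_nonneg A]

theorem u2_dp (P X : ℕ) (a : ℕ → ℂ) (t : ℝ) : dp (X ^ 2) (u2 P X a) t =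
    ∑ p ∈ bigP P X, a p / 2 * (p : ℂ) ^ (-(1 + 2 * t * I)) := by
  unfold dp
  have h1 : ∑ n ∈ Finset.Icc 1 (X ^ 2), u2 P X a n * (n : ℂ) ^ (-(1 / 2 + t * I)) =
      ∑ n ∈ (bigP P X).image (fun p => p ^ 2), u2 P X a n * (n : ℂ) ^ (-(1 / 2 + t * I)) := by
    symm
    apply Finset.sum_subset (sq_sub P X)
    intro n _ hn
    unfold u2
    rw [if_neg hn, zero_mul]
  rw [h1, Finset.sum_image (sq_inj P X)]
  refine Finset.sum_congr rfl fun p hp => ?_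
  have h3 : u2 P X a (p ^ 2) = a p / 2 := by
    unfold u2
    rw [if_pos (Finset.mem_image.2 ⟨p, hp, rfl⟩), Nat.sqrt_eq']
  rw [h3]
  congr 1
  have hp0 : (p : ℂ) ≠ 0 := by
    have := (mem_bP.1 hp).1.ne_zero
    exact_mod_cast this
  push_cast
  rw [pow_two, Complex.natCast_mul_natCast_cpow, ← Complex.cpow_add _ _ hp0]
  congr 1
  ring

theorem PA_sub {P X : ℕ} (hPX : P ≤ X) (a a2 : ℕ → ℂ) (t : ℝ) :
    PA X a a2 t - PA P a a2 t = dp X (uu P X a) t + dp (X ^ 2) (u2 P X a2) t := by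
  rw [uu_dp, u2_dp, ← Finset.sum_add_distrib]
  unfold PA
  have h1 : (Finset.Icc 1 X).filter Nat.Prime = (Finset.Icc 1 P).filter Nat.Prime ∪ bigP P X := by
    ext p
    rw [Finset.mem_union, mem_bP, Finset.mem_filter, Finset.mem_filter, Finset.mem_Icc, Finset.mem_Icc]
    constructor
    · rintro ⟨⟨h1, h2⟩, h3⟩
      rcases Nat.lt_or_ge P p with h | h
      · exact Or.inr ⟨h3, h, h2⟩
      · exact Or.inl ⟨⟨h1, h⟩, h3⟩
    · rintro (⟨⟨h1, h2⟩, h3⟩ | ⟨h1, h2, h3⟩)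
      · exact ⟨⟨h1, h2.trans hPX⟩, h3⟩
      · exact ⟨⟨h1.one_lt.le, h3⟩, h1⟩
  rw [h1, Finset.sum_union]
  · ring
  · rw [Finset.disjoint_left]
    intro p hp hp2
    rw [Finset.mem_filter, Finset.mem_Icc] at hp
    have := (mem_bP.1 hp2).2.1
    omega

/-- the linearization -/
theorem EP_lin {n : ℕ} (k α : Fin n → ℝ) {A : ℝ} (h : ∑ j, |k j| ≤ A) {P X : ℕ} (hPX : P ≤ X) (t : ℝ) :
    |(∑ j, k j * (EP X (t + α j) - EP P (t + α j))) - (dp X (uu P X (ap k α)) t).re -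
      (dp (X ^ 2) (u2 P X (ap k fun j => 2 * α j)) t).re| ≤ 2 * (A * (2 * Pool.Agent.Q98.UM.S3)) := by
  have h1 := Pool.Agent.Q98.UM.EP_PA k α h X t
  have h2 := Pool.Agent.Q98.UM.EP_PA k α h P t
  have h3 := PA_sub hPX (ap k α) (ap k fun j => 2 * α j) t
  have h4 : (dp X (uu P X (ap k α)) t).re + (dp (X ^ 2) (u2 P X (ap k fun j => 2 * α j)) t).re =
      (PA X (ap k α) (ap k fun j => 2 * α j) t).re - (PA P (ap k α) (ap k fun j => 2 * α j) t).re := by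
    rw [← Complex.add_re, ← h3, Complex.sub_re]
  have h5 : (∑ j, k j * (EP X (t + α j) - EP P (t + α j))) = (∑ j, k j * EP X (t + α j)) - ∑ j, k j * EP P (t + α j) := by
    rw [← Finset.sum_sub_distrib]
    refine Finset.sum_congr rfl fun j _ => ?_
    ring
  rw [h5, abs_le]
  have h6 := abs_le.1 h1
  have h7 := abs_le.1 h2
  constructor <;> linarith [h6.1, h6.2, h7.1, h7.2]

/-- the primes between `T ^ δ` and `T` -/
theorem tail_bd {δ : ℝ} (hδ : 0 < δ) : ∀ᶠ T : ℝ in atTop, ∑ p ∈ bigP ⌊T ^ δ⌋₊ ⌊T⌋₊, (1 : ℝ) / p ≤ 4 / δ := by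
  obtain ⟨C, hC0, hC⟩ := Pool.Agent.Q198.UM.mert_le
  filter_upwards [eventually_ge_atTop (2 : ℝ), Real.tendsto_log_atTop.eventually_ge_atTop (C + 1)] with T hT hLC
  have hT0 : 0 < T := by linarith
  have hL : 0 < Real.log T := by linarith
  have hN1 : 1 ≤ ⌊T⌋₊ := Nat.le_floor (by push_cast; linarith)
  have h1 := hC ⌊T⌋₊ hN1
  have h2 : Real.log (⌊T⌋₊ : ℝ) ≤ Real.log T :=
    Real.log_le_log (by exact_mod_cast hN1) (Nat.floor_le hT0.le)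
  have h3 : ∀ p ∈ bigP ⌊T ^ δ⌋₊ ⌊T⌋₊, (1 : ℝ) / p ≤ 1 / (δ * Real.log T) * (Real.log p / p) := by
    intro p hp
    obtain ⟨a1, a2, a3⟩ := mem_bP.1 hp
    have h4 : T ^ δ < p := by
      rwa [Nat.floor_lt (by positivity)] at a2
    have h5 : δ * Real.log T ≤ Real.log p := by
      rw [← Real.log_rpow hT0]
      exact Real.log_le_log (by positivity) h4.le
    have hp0 : (0 : ℝ) < p := by exact_mod_cast a1.pos
    rw [one_div_mul_eq_div, div_div, div_le_div_iff₀ hp0 (by positivity)]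
    nlinarith
  refine (Finset.sum_le_sum h3).trans ?_
  rw [← Finset.mul_sum]
  have h4 : ∑ p ∈ bigP ⌊T ^ δ⌋₊ ⌊T⌋₊, Real.log p / p ≤ 2 * Real.log T := by
    have h5 : ∑ p ∈ bigP ⌊T ^ δ⌋₊ ⌊T⌋₊, Real.log p / p ≤ ∑ p ∈ (Finset.Icc 1 ⌊T⌋₊).filter Nat.Prime, Real.log p / p := by
      apply Finset.sum_le_sum_of_subset_of_nonneg
      · intro p hp
        obtain ⟨a1, a2, a3⟩ := mem_bP.1 hp
        rw [Finset.mem_filter, Finset.mem_Icc]
        exact ⟨⟨a1.one_lt.le, a3⟩, a1⟩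
      · intro p _ _
        exact div_nonneg (Real.log_natCast_nonneg p) (Nat.cast_nonneg p)
    linarith
  calc 1 / (δ * Real.log T) * ∑ p ∈ bigP ⌊T ^ δ⌋₊ ⌊T⌋₊, Real.log p / p ≤ 1 / (δ * Real.log T) * (2 * Real.log T) := by
        gcongr
    _ = 2 / δ := by field_simp
    _ ≤ 4 / δ := by gcongr; norm_num

end

end Run7.h311.LW
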