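import Pool.Agent.Q61.UM.SAMP
import Pool.Agent.Run7.h311.LW.GauB

set_option autoImplicit false

/-! A smooth cutoff of a sum over primes times the square of a Dirichlet polynomial: the variation. -/

namespace Run7.h311.LW

open Filter Topology MeasureTheory Complex ProbabilityTheory
open Pool.Agent.Q97.UM Pool.Agent.Q14.UM Pool.Agent.Q61.UM

noncomputable section

theorem st_diff (x : ℝ) : HasDerivAt Real.smoothTransition (deriv Real.smoothTransition x) x :=
  ((Real.smoothTransition.contDiff (n := 1)).differentiable (by norm_num) x).hasDerivAt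

theorem st_cont : Continuous (deriv Real.smoothTransition) :=
  (Real.smoothTransition.contDiff (n := 1)).continuous_deriv le_rfl

theorem st_bd : ∃ C : ℝ, 0 < C ∧ ∀ x, |deriv Real.smoothTransition x| ≤ C := by
  obtain ⟨C, hC⟩ := (isCompact_Icc (a := (0 : ℝ)) (b := 1)).exists_bound_of_continuousOn st_cont.continuousOn
  refine ⟨|C| + 1, by positivity, fun x => ?_⟩
  by_cases hx : x ∈ Set.Icc (0 : ℝ) 1
  · have h1 := hC x hx
    rw [Real.norm_eq_abs] at h1
    linarith [le_abs_self C]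
  · have h0 : deriv Real.smoothTransition x = 0 := by
      rw [Set.mem_Icc, not_and_or, not_le, not_le] at hx
      rcases hx with h | h
      · have e : Real.smoothTransition =ᶠ[𝓝 x] fun _ => (0 : ℝ) := by
          filter_upwards [Iio_mem_nhds h] with y hy
          exact Real.smoothTransition.zero_of_nonpos (le_of_lt hy)
        rw [e.deriv_eq, deriv_const]
      · have e : Real.smoothTransition =ᶠ[𝓝 x] fun _ => (1 : ℝ) := by
          filter_upwards [Ioi_mem_nhds h] with y hy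
          exact Real.smoothTransition.one_of_one_le (le_of_lt hy)
        rw [e.deriv_eq, deriv_const]
    rw [h0, abs_zero]
    positivity

/-- the cutoff: `1` on `[a, b]`, `0` outside `(a - η, b + η)` -/
def ph (a b η u : ℝ) : ℝ := Real.smoothTransition ((u - a) / η + 1) * Real.smoothTransition ((b - u) / η + 1)

theorem ph_nn (a b η u : ℝ) : 0 ≤ ph a b η u :=
  mul_nonneg (Real.smoothTransition.nonneg _) (Real.smoothTransition.nonneg _)

theorem ph_le (a b η u : ℝ) : ph a b η u ≤ 1 :=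
  mul_le_one₀ (Real.smoothTransition.le_one _) (Real.smoothTransition.nonneg _) (Real.smoothTransition.le_one _)

theorem ph_one {a b η u : ℝ} (hη : 0 < η) (h1 : a ≤ u) (h2 : u ≤ b) : ph a b η u = 1 := by
  unfold ph
  rw [Real.smoothTransition.one_of_one_le, Real.smoothTransition.one_of_one_le, mul_one]
  · have : 0 ≤ (b - u) / η := div_nonneg (by linarith) hη.le
    linarith
  · have : 0 ≤ (u - a) / η := div_nonneg (by linarith) hη.le
    linarith

theorem ph_zero {a b η u : ℝ} (hη : 0 < η) (h : u ≤ a - η ∨ b + η ≤ u) : ph a b η u = 0 := by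
  unfold ph
  rcases h with h | h
  · rw [Real.smoothTransition.zero_of_nonpos, zero_mul]
    have : (u - a) / η ≤ -1 := by
      rw [div_le_iff₀ hη]
      linarith
    linarith
  · rw [Real.smoothTransition.zero_of_nonpos (x := (b - u) / η + 1), mul_zero]
    have : (b - u) / η ≤ -1 := by
      rw [div_le_iff₀ hη]
      linarith
    linarith

/-- the derivative of the cutoff -/
def ph' (a b η u : ℝ) : ℝ := deriv Real.smoothTransition ((u - a) / η + 1) * (1 / η) * Real.smoothTransition ((b - u) / η + 1) +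
  Real.smoothTransition ((u - a) / η + 1) * (deriv Real.smoothTransition ((b - u) / η + 1) * (-(1 / η)))

theorem ph_deriv (a b η u : ℝ) : HasDerivAt (ph a b η) (ph' a b η u) u := by
  have h1 : HasDerivAt (fun u => (u - a) / η + 1) (1 / η) u := by
    have := (((hasDerivAt_id u).sub_const a).div_const η).add_const 1
    simpa using this
  have h2 : HasDerivAt (fun u => (b - u) / η + 1) (-(1 / η)) u := by
    have := (((hasDerivAt_id u).const_sub b).div_const η).add_const 1
    refine this.congr_deriv ?_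
    ring
  exact ((st_diff _).comp u h1).mul ((st_diff _).comp u h2)

theorem ph'_cont (a b η : ℝ) : Continuous (ph' a b η) := by
  unfold ph'
  have hc := (Real.smoothTransition.contDiff (n := 1)).continuous
  have hd := st_cont
  have h1 : Continuous fun u : ℝ => (u - a) / η + 1 := by fun_prop
  have h2 : Continuous fun u : ℝ => (b - u) / η + 1 := by fun_prop
  exact (((hd.comp h1).mul continuous_const).mul (hc.comp h2)).add ((hc.comp h1).mul ((hd.comp h2).mul continuous_const))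

theorem ph_cont (a b η : ℝ) : Continuous (ph a b η) :=
  continuous_iff_continuousAt.2 fun u => (ph_deriv a b η u).continuousAt

theorem ph'_bd {a b η C : ℝ} (hη : 0 < η) (hC : ∀ x, |deriv Real.smoothTransition x| ≤ C) (u : ℝ) :
    |ph' a b η u| ≤ 2 * C / η := by
  unfold ph'
  have hC0 : 0 ≤ C := (abs_nonneg _).trans (hC 0)
  refine (abs_add_le _ _).trans ?_
  rw [abs_mul, abs_mul, abs_mul, abs_mul, abs_neg, abs_of_pos (by positivity : 0 < 1 / η),
    abs_of_nonneg (Real.smoothTransition.nonneg _), abs_of_nonneg (Real.smoothTransition.nonneg _)]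
  have h1 := hC ((u - a) / η + 1)
  have h2 := hC ((b - u) / η + 1)
  have h3 := Real.smoothTransition.le_one ((b - u) / η + 1)
  have h4 := Real.smoothTransition.le_one ((u - a) / η + 1)
  have h5 := Real.smoothTransition.nonneg ((b - u) / η + 1)
  have h6 := Real.smoothTransition.nonneg ((u - a) / η + 1)
  have h7 : |deriv Real.smoothTransition ((u - a) / η + 1)| * (1 / η) * Real.smoothTransition ((b - u) / η + 1) ≤ C * (1 / η) * 1 := by
    gcongr
  have h8 : Real.smoothTransition ((u - a) / η + 1) * (|deriv Real.smoothTransition ((b - u) / η + 1)| * (1 / η)) ≤ 1 * (C * (1 / η)) := by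
    gcongr
  have e : 2 * C / η = C * (1 / η) * 1 + 1 * (C * (1 / η)) := by ring
  rw [e]
  linarith

/-- the test function -/
def fT (a b' η : ℝ) (X N : ℕ) (q b : ℕ → ℂ) (t : ℝ) : ℝ := ‖dp N b t‖ ^ 2 * ph a b' η (Real.sqrt 2 * (dp X q t).re)

/-- the majorant of its derivative -/
def kT (Cp lam : ℝ) (X N : ℕ) (q b : ℕ → ℂ) (t : ℝ) : ℝ := (1 + Cp) * (lam * ‖dp N b t‖ ^ 2 +
  lam⁻¹ * (‖dp N (bd b) t‖ ^ 2 + ‖dp (X * N) (cv (bd q) b) t‖ ^ 2))

theorem bd_len {X : ℕ} {q : ℕ → ℂ} (h : ∀ n, X < n → q n = 0) : ∀ n, X < n → bd q n = 0 := by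
  intro n hn
  unfold bd
  rw [h n hn, zero_mul]

theorem fT_var (hD : S_DPM) {a b' η Cp lam : ℝ} {X N : ℕ} {q b : ℕ → ℂ} (hq : ∀ n, X < n → q n = 0)
    (hb : ∀ n, N < n → b n = 0) (hCp : ∀ u, |ph' a b' η u| * Real.sqrt 2 ≤ Cp) (hl : 0 < lam) (x y : ℝ) :
    |fT a b' η X N q b y - fT a b' η X N q b x| ≤ |∫ t in x..y, kT Cp lam X N q b t| := by
  have hc : ∀ (n : ℕ) (c : ℕ → ℂ), Continuous (dp n c) := fun n c => dp_cont hD n c
  have hCp0 : 0 ≤ Cp := (by positivity : (0 : ℝ) ≤ |ph' a b' η 0| * Real.sqrt 2).trans (hCp 0)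
  obtain ⟨g, hg⟩ : ∃ g : ℝ → ℝ, g = fun t => 2 * inner ℝ (dp N b t) (dp N (bd b) t) * ph a b' η (Real.sqrt 2 * (dp X q t).re) +
    ‖dp N b t‖ ^ 2 * (ph' a b' η (Real.sqrt 2 * (dp X q t).re) * (Real.sqrt 2 * (dp X (bd q) t).re)) := ⟨_, rfl⟩
  have hx : ∀ t, HasDerivAt (fun t => Real.sqrt 2 * (dp X q t).re) (Real.sqrt 2 * (dp X (bd q) t).re) t := by
    intro t
    have h1 := dp_deriv X q t
    have h2 : HasDerivAt (fun t => (dp X q t).re) (dp X (bd q) t).re t :=
      Complex.reCLM.hasFDerivAt.comp_hasDerivAt t h1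
    exact h2.const_mul _
  have hd : ∀ t, HasDerivAt (fT a b' η X N q b) (g t) t := by
    intro t
    rw [hg]
    exact (dp_deriv N b t).norm_sq.mul ((ph_deriv a b' η _).comp t (hx t))
  have hxc : Continuous fun t => Real.sqrt 2 * (dp X q t).re := continuous_const.mul (Complex.continuous_re.comp (hc X q))
  have hgc : Continuous g := by
    rw [hg]
    exact ((continuous_const.mul ((hc N b).inner (hc N (bd b)))).mul ((ph_cont a b' η).comp hxc)).add
      (((hc N b).norm.pow 2).mul (((ph'_cont a b' η).comp hxc).mul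
        (continuous_const.mul (Complex.continuous_re.comp (hc X (bd q))))))
  rw [← intervalIntegral.integral_eq_sub_of_hasDerivAt (fun t _ => hd t) (hgc.intervalIntegrable _ _), ← Real.norm_eq_abs]
  apply intervalIntegral.norm_integral_le_abs_of_norm_le
  · refine Eventually.of_forall fun t => ?_
    rw [Real.norm_eq_abs, hg]
    unfold kT
    refine (abs_add_le _ _).trans ?_
    have h1 := abs_real_inner_le_norm (dp N b t) (dp N (bd b) t)
    have amgm : ∀ u v : ℝ, 2 * (u * v) ≤ lam * u ^ 2 + lam⁻¹ * v ^ 2 := by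
      intro u v
      have h3 : 0 ≤ lam⁻¹ * (lam * u - v) ^ 2 := by positivity
      have h4 : lam⁻¹ * (lam * u - v) ^ 2 = lam * u ^ 2 + lam⁻¹ * v ^ 2 - 2 * (u * v) := by
        field_simp
        ring
      linarith
    have h2 : |2 * inner ℝ (dp N b t) (dp N (bd b) t) * ph a b' η (Real.sqrt 2 * (dp X q t).re)| ≤
        lam * ‖dp N b t‖ ^ 2 + lam⁻¹ * ‖dp N (bd b) t‖ ^ 2 := by
      rw [abs_mul, abs_mul, abs_of_pos (by norm_num : (0 : ℝ) < 2), abs_of_nonneg (ph_nn _ _ _ _)]
      have h3 := ph_le a b' η (Real.sqrt 2 * (dp X q t).re)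
      have h4 : 2 * |inner ℝ (dp N b t) (dp N (bd b) t)| * ph a b' η (Real.sqrt 2 * (dp X q t).re) ≤
          2 * |inner ℝ (dp N b t) (dp N (bd b) t)| * 1 := by gcongr
      have h5 := amgm ‖dp N b t‖ ‖dp N (bd b) t‖
      linarith
    have hprod : ‖dp (X * N) (cv (bd q) b) t‖ = ‖dp X (bd q) t‖ * ‖dp N b t‖ := by
      rw [← norm_mul]
      congr 1
      exact (hD.1 X N (bd q) b t (bd_len hq) hb).symm
    have h3 : |‖dp N b t‖ ^ 2 * (ph' a b' η (Real.sqrt 2 * (dp X q t).re) * (Real.sqrt 2 * (dp X (bd q) t).re))| ≤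
        Cp * (lam * ‖dp N b t‖ ^ 2 + lam⁻¹ * ‖dp (X * N) (cv (bd q) b) t‖ ^ 2) := by
      rw [abs_mul, abs_mul, abs_mul, abs_of_nonneg (by positivity : (0 : ℝ) ≤ ‖dp N b t‖ ^ 2),
        abs_of_nonneg (Real.sqrt_nonneg 2)]
      have h4 := hCp (Real.sqrt 2 * (dp X q t).re)
      have h5 := Complex.abs_re_le_norm (dp X (bd q) t)
      have h6 := amgm ‖dp N b t‖ ‖dp (X * N) (cv (bd q) b) t‖
      have h7 : 0 ≤ ‖dp N b t‖ * ‖dp (X * N) (cv (bd q) b) t‖ := by positivity
      calc ‖dp N b t‖ ^ 2 * (|ph' a b' η (Real.sqrt 2 * (dp X q t).re)| * (Real.sqrt 2 * |(dp X (bd q) t).re|)) =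
            (|ph' a b' η (Real.sqrt 2 * (dp X q t).re)| * Real.sqrt 2) * (‖dp N b t‖ ^ 2 * |(dp X (bd q) t).re|) := by ring
        _ ≤ Cp * (‖dp N b t‖ ^ 2 * ‖dp X (bd q) t‖) := by gcongr
        _ = Cp * (‖dp N b t‖ * ‖dp (X * N) (cv (bd q) b) t‖) := by rw [hprod]; ring
        _ ≤ _ := mul_le_mul_of_nonneg_left (by linarith) hCp0
    have h4 : 0 ≤ Cp * (lam⁻¹ * ‖dp N (bd b) t‖ ^ 2) := by positivity
    have h5 : 0 ≤ lam⁻¹ * ‖dp (X * N) (cv (bd q) b) t‖ ^ 2 := by positivity
    have e : (1 + Cp) * (lam * ‖dp N b t‖ ^ 2 + lam⁻¹ * (‖dp N (bd b) t‖ ^ 2 + ‖dp (X * N) (cv (bd q) b) t‖ ^ 2)) =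
        (lam * ‖dp N b t‖ ^ 2 + lam⁻¹ * ‖dp N (bd b) t‖ ^ 2) +
        Cp * (lam * ‖dp N b t‖ ^ 2 + lam⁻¹ * ‖dp (X * N) (cv (bd q) b) t‖ ^ 2) + Cp * (lam⁻¹ * ‖dp N (bd b) t‖ ^ 2) +
        lam⁻¹ * ‖dp (X * N) (cv (bd q) b) t‖ ^ 2 := by ring
    rw [e]
    linarith
  · refine Continuous.intervalIntegrable ?_ _ _
    unfold kT
    exact continuous_const.mul ((((hc N b).norm.pow 2).const_mul _).add
      ((((hc N (bd b)).norm.pow 2).add ((hc (X * N) (cv (bd q) b)).norm.pow 2)).const_mul _))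

end

end Run7.h311.LW
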