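import Pool.Agent.Y586.SW.GM

set_option autoImplicit false

/-! The method of moments for the real part of a complex Gaussian variable, in a uniform form. -/

namespace Run7.h311.LW

open Filter Topology MeasureTheory Complex ProbabilityTheory

/-- finitely many moments, up to a small error, determine the law up to a small error -/
theorem umm {a b ε : ℝ} (hab : a < b) (hε : 0 < ε) : ∃ (K : ℕ) (η : ℝ), 0 < η ∧
    ∀ (μ : Measure ℝ) (f : ℝ → ℂ), IsFiniteMeasure μ → Measurable f →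
      (∀ k : ℕ, Integrable (fun x => ‖f x‖ ^ k) μ) →
      (∀ k l : ℕ, k ≤ K → l ≤ K →
        ‖(∫ x, f x ^ k * (starRingEnd ℂ) (f x) ^ l ∂μ) - (if k = l then (k.factorial : ℂ) else 0)‖ ≤ η) →
      |μ.real {x | a < Real.sqrt 2 * (f x).re ∧ Real.sqrt 2 * (f x).re < b} -
        (gaussianReal 0 1).real (Set.Ioo a b)| ≤ ε := by
  by_contra hcon
  push Not at hcon
  have h1 : ∀ n : ℕ, ∃ (μ : Measure ℝ) (f : ℝ → ℂ), IsFiniteMeasure μ ∧ Measurable f ∧
      (∀ k : ℕ, Integrable (fun x => ‖f x‖ ^ k) μ) ∧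
      (∀ k l : ℕ, k ≤ n → l ≤ n →
        ‖(∫ x, f x ^ k * (starRingEnd ℂ) (f x) ^ l ∂μ) - (if k = l then (k.factorial : ℂ) else 0)‖ ≤
          1 / ((n : ℝ) + 1)) ∧
      ε < |μ.real {x | a < Real.sqrt 2 * (f x).re ∧ Real.sqrt 2 * (f x).re < b} -
        (gaussianReal 0 1).real (Set.Ioo a b)| := fun n => by
    obtain ⟨μ, f, h1, h2, h3, h4, h5⟩ := hcon n (1 / ((n : ℝ) + 1)) (by positivity)
    exact ⟨μ, f, h1, h2, h3, h4, h5⟩
  choose μ f h1 h2 h3 h4 h5 using h1
  have h6 := Pool.Agent.Y586.SW.t_GM μ f 1 zero_le_one h1 h2 h3 (fun k l => by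
    rw [Complex.ofReal_one, mul_one, tendsto_iff_norm_sub_tendsto_zero]
    refine squeeze_zero' (Eventually.of_forall fun n => norm_nonneg _) ?_ tendsto_one_div_add_atTop_nhds_zero_nat
    filter_upwards [eventually_ge_atTop (max k l)] with n hn
    exact h4 n k l ((le_max_left _ _).trans hn) ((le_max_right _ _).trans hn)) a b hab
  rw [one_mul, Metric.tendsto_atTop] at h6
  obtain ⟨n, hn⟩ := h6 ε hε
  have h7 := hn n le_rfl
  rw [Real.dist_eq] at h7
  exact absurd (h5 n) (not_lt.2 h7.le)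

end Run7.h311.LW
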